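import Mathlib

set_option autoImplicit false
open MeasureTheory Filter Topology Finset
open scoped ENNReal

namespace Pool.Agent.H9.Shift

abbrev L1 := lp (fun _ : ℕ => ℝ) 1

noncomputable def rho (m : ℕ) : ℝ := 1 + 3 / (4 * (m + 1))

lemma rho_nonneg (m : ℕ) : 0 ≤ rho m := by unfold rho; positivity

lemma rho_le (m : ℕ) : rho m ≤ 2 := by
  unfold rho
  have : (3 : ℝ) / (4 * (m + 1)) ≤ 1 := by
    rw [div_le_one (by positivity)]
    have : (0 : ℝ) ≤ m := Nat.cast_nonneg m
    linarith
  linarith

lemma summable_abs (f : L1) : Summable fun n => |f n| := by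
  have := lp.memℓp f
  rw [memℓp_gen_iff (by simp)] at this
  simpa using this

lemma norm_eq (f : L1) : ‖f‖ = ∑' n, |f n| := by
  rw [lp.norm_eq_tsum_rpow (by simp)]
  simp

lemma memL1 {g : ℕ → ℝ} (h : Summable fun n => |g n|) : Memℓp g 1 := by
  apply memℓp_gen
  simpa using h

lemma summable_shift (f : L1) : Summable fun m => |rho m * f (m + 1)| := by
  have h1 : Summable fun m => |f (m + 1)| := (summable_nat_add_iff 1).mpr (summable_abs f)
  refine Summable.of_nonneg_of_le (fun _ => abs_nonneg _) (fun m => ?_) (h1.mul_left 2)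
  rw [abs_mul, abs_of_nonneg (rho_nonneg m)]
  exact mul_le_mul_of_nonneg_right (rho_le m) (abs_nonneg _)

noncomputable def S : L1 →L[ℝ] L1 :=
  LinearMap.mkContinuous
    { toFun := fun f => ⟨fun m => rho m * f (m + 1), memL1 (summable_shift f)⟩
      map_add' := fun f g => by
        ext m
        change rho m * (f (m + 1) + g (m + 1)) = rho m * f (m + 1) + rho m * g (m + 1)
        ring
      map_smul' := fun c f => by
        ext m
        change rho m * (c * f (m + 1)) = c * (rho m * f (m + 1))
        ring } 2 (by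
    intro f
    rw [norm_eq, norm_eq]
    calc ∑' n, |rho n * f (n + 1)| ≤ ∑' n, 2 * |f (n + 1)| := by
          refine Summable.tsum_le_tsum (fun m => ?_) (summable_shift f)
            (((summable_nat_add_iff 1).mpr (summable_abs f)).mul_left 2)
          rw [abs_mul, abs_of_nonneg (rho_nonneg m)]
          exact mul_le_mul_of_nonneg_right (rho_le m) (abs_nonneg _)
      _ = 2 * ∑' n, |f (n + 1)| := tsum_mul_left
      _ ≤ 2 * ∑' n, |f n| := by
          have h0 := (summable_abs f).tsum_eq_zero_add
          have := abs_nonneg (f 0)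
          linarith)

lemma S_apply (f : L1) (m : ℕ) : S f m = rho m * f (m + 1) := rfl

noncomputable def e (n : ℕ) : L1 := lp.single 1 n 1

lemma e_apply (n m : ℕ) : e n m = if m = n then 1 else 0 := by
  unfold e
  rw [lp.single_apply]
  by_cases h : m = n
  · subst h; simp
  · simp [h]

lemma norm_e (n : ℕ) : ‖e n‖ = 1 := by
  unfold e; rw [lp.norm_single (by norm_num)]; simp

lemma S_e_succ (n : ℕ) : S (e (n + 1)) = rho n • e n := by
  ext m
  rw [S_apply, e_apply]
  simp only [lp.coeFn_smul, Pi.smul_apply, e_apply, smul_eq_mul]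
  by_cases h : m = n
  · subst h; simp
  · simp [h]

lemma S_e_zero : S (e 0) = 0 := by
  ext m
  rw [S_apply, e_apply]
  simp

/-- coefficients: `S^k e_n = a n k • e (n-k)` -/
noncomputable def a (n : ℕ) : ℕ → ℝ
  | 0 => 1
  | k + 1 => a n k * (if k < n then rho (n - k - 1) else 0)

lemma a_nonneg (n k : ℕ) : 0 ≤ a n k := by
  induction k with
  | zero => simp [a]
  | succ k ih =>
    rw [a]
    split_ifs
    · exact mul_nonneg ih (rho_nonneg _)
    · simp

lemma one_le_a (n k : ℕ) (h : k ≤ n) : 1 ≤ a n k := by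
  induction k with
  | zero => simp [a]
  | succ k ih =>
    rw [a, if_pos (by omega)]
    have h1 := ih (by omega)
    have h2 : 1 ≤ rho (n - k - 1) := by
      unfold rho
      have : (0 : ℝ) ≤ 3 / (4 * (((n - k - 1 : ℕ) : ℝ) + 1)) := by positivity
      linarith
    nlinarith

lemma a_zero_of_lt (n k : ℕ) (h : n < k) : a n k = 0 := by
  induction k with
  | zero => omega
  | succ k ih =>
    rw [a]
    by_cases hk : k < n
    · omega
    · rw [if_neg hk, mul_zero]

lemma pow_S_e (n k : ℕ) : (S ^ k) (e n) = a n k • e (n - k) := by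
  induction k with
  | zero => simp [a]
  | succ k ih =>
    rw [pow_succ', mul_apply_eq_comp, ih, map_smul, a]
    by_cases hk : k < n
    · rw [if_pos hk]
      have : n - k = (n - k - 1) + 1 := by omega
      have h2 : n - (k + 1) = n - k - 1 := by omega
      rw [h2]
      conv_lhs => rw [this, S_e_succ]
      rw [smul_smul]
    · rw [if_neg hk]
      have : n - k = 0 := by omega
      rw [this, S_e_zero]; simp

/-- `D n k = (n - k + 1) a n k` -/
noncomputable def D (n k : ℕ) : ℝ := ((n : ℝ) - k + 1) * a n k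

lemma D_step (n k : ℕ) : a n k ≤ 4 * (D n k - D n (k + 1)) := by
  unfold D
  rcases lt_trichotomy k n with h | h | h
  · rw [a, if_pos h]
    unfold rho
    have hx : (((n - k - 1 : ℕ) : ℝ) + 1) = (n : ℝ) - k := by
      have : ((n - k - 1 : ℕ) : ℝ) = (n : ℝ) - k - 1 := by
        rw [Nat.cast_sub (by omega), Nat.cast_sub h.le]; simp
      rw [this]; ring
    rw [hx]
    have hpos : (0 : ℝ) < (n : ℝ) - k := by
      have : (k : ℝ) < n := by exact_mod_cast h
      linarith
    push_cast
    have : ((n : ℝ) - (k + 1) + 1) * (a n k * (1 + 3 / (4 * (n - k)))) =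
        a n k * ((n : ℝ) - k + 3 / 4) := by
      field_simp
      ring
    rw [this]
    linarith [a_nonneg n k]
  · subst h
    rw [a_zero_of_lt k (k + 1) (by omega)]
    have := a_nonneg k k
    simp; linarith
  · rw [a_zero_of_lt n (k + 1) (by omega), a_zero_of_lt n k h]
    simp

lemma D_ge (n k : ℕ) (h : k ≤ n) : (n : ℝ) + 1 - k ≤ D n k := by
  unfold D
  have h1 := one_le_a n k h
  have : (k : ℝ) ≤ n := by exact_mod_cast h
  nlinarith

lemma growth (n k : ℕ) (h : k ≤ n) : ((n : ℝ) + 1) ^ 3 ≤ (a n k) ^ 4 * ((n : ℝ) - k + 1) ^ 3 := by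
  induction k with
  | zero => simp [a]
  | succ k ih =>
    have hk : k < n := by omega
    refine (ih hk.le).trans ?_
    rw [a, if_pos hk]
    unfold rho
    have hx : (((n - k - 1 : ℕ) : ℝ) + 1) = (n : ℝ) - k := by
      have : ((n - k - 1 : ℕ) : ℝ) = (n : ℝ) - k - 1 := by
        rw [Nat.cast_sub (by omega), Nat.cast_sub hk.le]; simp
      rw [this]; ring
    rw [hx]
    set x : ℝ := (n : ℝ) - k with hxdef
    have hpos : 0 < x := by
      have : (k : ℝ) < n := by exact_mod_cast hk
      rw [hxdef]; linarith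
    have e1 : (n : ℝ) - ((k + 1 : ℕ) : ℝ) + 1 = x := by rw [hxdef]; push_cast; ring
    rw [e1, mul_pow, mul_assoc]
    refine mul_le_mul_of_nonneg_left ?_ (by positivity)
    have : (1 + 3 / (4 * x)) ^ 4 * x ^ 3 = (4 * x + 3) ^ 4 / (256 * x) := by
      field_simp
      ring
    rw [this, le_div_iff₀ (by positivity)]
    nlinarith [sq_nonneg x, pow_pos hpos 3, pow_pos hpos 2]

/-- Poisson weights -/
noncomputable def w (k : ℕ) (t : ℝ) : ℝ := Real.exp (-t) * (t ^ k / k.factorial)

lemma w_nonneg (k : ℕ) {t : ℝ} (ht : 0 ≤ t) : 0 ≤ w k t := by unfold w; positivity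

lemma w_deriv_zero (t : ℝ) : HasDerivAt (w 0) (-(w 0 t)) t := by
  have h : HasDerivAt (fun t : ℝ => Real.exp (-t)) (Real.exp (-t) * (-1)) t :=
    (hasDerivAt_neg t).exp
  have e1 : w 0 = fun t : ℝ => Real.exp (-t) := by funext t; simp [w]
  rw [e1]
  simpa using h

lemma w_deriv_succ (k : ℕ) (t : ℝ) : HasDerivAt (w (k + 1)) (w k t - w (k + 1) t) t := by
  have h1 : HasDerivAt (fun t : ℝ => Real.exp (-t)) (Real.exp (-t) * (-1)) t :=
    (hasDerivAt_neg t).exp
  have h2 : HasDerivAt (fun t : ℝ => t ^ (k + 1) / ((k + 1).factorial : ℝ))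
      (((k + 1 : ℕ) : ℝ) * t ^ k / ((k + 1).factorial : ℝ)) t := by
    have := (hasDerivAt_pow (k + 1) t).div_const ((k + 1).factorial : ℝ)
    simpa using this
  have h3 := h1.mul h2
  refine HasDerivAt.congr_deriv h3 ?_
  unfold w
  have hf : (((k + 1).factorial : ℕ) : ℝ) = ((k : ℝ) + 1) * (k.factorial : ℝ) := by
    rw [Nat.factorial_succ]; push_cast; ring
  rw [hf]
  have : (k.factorial : ℝ) ≠ 0 := by positivity
  push_cast
  field_simp
  ring

/-- derivative of a finite Poisson combination -/
lemma deriv_sum (n : ℕ) (c : ℕ → ℝ) (t : ℝ) :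
    HasDerivAt (fun t => ∑ k ∈ range (n + 1), w k t * c k)
      (∑ k ∈ range (n + 1), w k t * (c (k + 1) - c k) - w n t * c (n + 1)) t := by
  induction n with
  | zero =>
    simp only [zero_add, Finset.sum_range_one]
    exact ((w_deriv_zero t).mul_const (c 0)).congr_deriv (by ring)
  | succ n ih =>
    have h := ih.add ((w_deriv_succ n t).mul_const (c (n + 1)))
    have e1 : (fun t => ∑ k ∈ range (n + 1 + 1), w k t * c k) =
        (fun t => ∑ k ∈ range (n + 1), w k t * c k) + fun t => w (n + 1) t * c (n + 1) := by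
      funext t; simp [Finset.sum_range_succ]
    rw [e1]
    refine h.congr_deriv ?_
    rw [Finset.sum_range_succ _ (n + 1)]
    ring

lemma sum_w_le_one (n : ℕ) {t : ℝ} (ht : 0 ≤ t) : ∑ k ∈ range (n + 1), w k t ≤ 1 := by
  have h := Real.sum_le_exp_of_nonneg ht (n + 1)
  unfold w
  rw [← Finset.mul_sum]
  calc Real.exp (-t) * ∑ k ∈ range (n + 1), t ^ k / (k.factorial : ℝ)
      ≤ Real.exp (-t) * Real.exp t := by gcongr
    _ = 1 := by rw [← Real.exp_add]; simp

lemma w_cont (k : ℕ) : Continuous (w k) := by unfold w; fun_prop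

lemma w_at_zero (k : ℕ) : w k 0 = if k = 0 then 1 else 0 := by
  unfold w
  by_cases h : k = 0
  · subst h; simp
  · simp [h]

/-- the weighted sum of remaining lengths is at least `n + 1 - s`. -/
lemma remaining (n : ℕ) {s : ℝ} (hs : 0 ≤ s) :
    (n : ℝ) + 1 - s ≤ ∑ k ∈ range (n + 1), w k s * ((n : ℝ) + 1 - k) := by
  set c : ℕ → ℝ := fun k => (n : ℝ) + 1 - k with hc
  have hcn : c (n + 1) = 0 := by simp [hc]
  have hd : ∀ t, HasDerivAt (fun t => ∑ k ∈ range (n + 1), w k t * c k)
      (- ∑ k ∈ range (n + 1), w k t) t := by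
    intro t
    have := deriv_sum n c t
    rw [hcn, mul_zero, sub_zero] at this
    refine this.congr_deriv ?_
    rw [← Finset.sum_neg_distrib]
    apply Finset.sum_congr rfl
    intro k _
    simp only [hc]
    push_cast; ring
  have hint := intervalIntegral.integral_eq_sub_of_hasDerivAt (a := 0) (b := s)
    (fun t _ => hd t) (by
      apply Continuous.intervalIntegrable
      have := w_cont
      fun_prop)
  have h0 : ∑ k ∈ range (n + 1), w k 0 * c k = (n : ℝ) + 1 := by
    rw [Finset.sum_eq_single 0]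
    · simp [w_at_zero, hc]
    · intro k _ hk; simp [w_at_zero, hk]
    · simp
  rw [h0] at hint
  have hb : ∫ t in (0 : ℝ)..s, (- ∑ k ∈ range (n + 1), w k t) ≥ ∫ t in (0 : ℝ)..s, (-1 : ℝ) := by
    apply intervalIntegral.integral_mono_on hs
    · simp
    · apply Continuous.intervalIntegrable
      have := w_cont
      fun_prop
    · intro t ht
      have := sum_w_le_one n ht.1
      linarith
  rw [intervalIntegral.integral_const] at hb
  simp only [sub_zero, smul_eq_mul, mul_neg, mul_one] at hb
  linarith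

/-- The occupation bound. -/
lemma occupation (n : ℕ) {s : ℝ} (hs : 0 ≤ s) :
    ∫ t in (0 : ℝ)..s, ∑ k ∈ range (n + 1), w k t * a n k ≤ min (4 * s) (4 * (n + 1)) := by
  have hD1 : D n (n + 1) = 0 := by unfold D; rw [a_zero_of_lt n (n + 1) (by omega)]; simp
  have hd : ∀ t, HasDerivAt (fun t => ∑ k ∈ range (n + 1), w k t * D n k)
      (∑ k ∈ range (n + 1), w k t * (D n (k + 1) - D n k)) t := by
    intro t
    have := deriv_sum n (D n) t
    rwa [hD1, mul_zero, sub_zero] at this
  have hw := w_cont
  have hint := intervalIntegral.integral_eq_sub_of_hasDerivAt (a := 0) (b := s)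
    (fun t _ => hd t) (by
      apply Continuous.intervalIntegrable
      fun_prop)
  have h0 : ∑ k ∈ range (n + 1), w k 0 * D n k = (n : ℝ) + 1 := by
    rw [Finset.sum_eq_single 0]
    · simp [w_at_zero, D, a]
    · intro k _ hk; simp [w_at_zero, hk]
    · simp
  rw [h0] at hint
  have hb : ∫ t in (0 : ℝ)..s, ∑ k ∈ range (n + 1), w k t * a n k ≤
      ∫ t in (0 : ℝ)..s, (-4) * ∑ k ∈ range (n + 1), w k t * (D n (k + 1) - D n k) := by
    apply intervalIntegral.integral_mono_on hs
    · apply Continuous.intervalIntegrable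
      fun_prop
    · apply Continuous.intervalIntegrable
      fun_prop
    · intro t ht
      rw [Finset.mul_sum]
      apply Finset.sum_le_sum
      intro k _
      have h1 := D_step n k
      have h2 := w_nonneg k ht.1
      nlinarith
  rw [intervalIntegral.integral_const_mul, hint] at hb
  have hge : (n : ℝ) + 1 - s ≤ ∑ k ∈ range (n + 1), w k s * D n k := by
    refine (remaining n hs).trans ?_
    apply Finset.sum_le_sum
    intro k hk
    simp only [Finset.mem_range] at hk
    exact mul_le_mul_of_nonneg_left (D_ge n k (by omega)) (w_nonneg k hs)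
  have hge0 : 0 ≤ ∑ k ∈ range (n + 1), w k s * D n k := by
    apply Finset.sum_nonneg
    intro k hk
    simp only [Finset.mem_range] at hk
    have h1 := D_ge n k (by omega)
    have h2 := w_nonneg k hs
    have h3 : (k : ℝ) ≤ n := by exact_mod_cast (by omega : k ≤ n)
    apply mul_nonneg h2; linarith
  apply le_min <;> linarith

end Pool.Agent.H9.Shift
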