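import Pool.Agent.H9.Shift

set_option autoImplicit false
open MeasureTheory Filter Topology Finset
open scoped ENNReal

namespace Pool.Agent.H9.Shift

open NormedSpace (exp)

noncomputable local instance : NormedAlgebra ℚ (L1 →L[ℝ] L1) :=
  NormedAlgebra.restrictScalars ℚ ℝ (L1 →L[ℝ] L1)

noncomputable def A : L1 →L[ℝ] L1 := S - 1
noncomputable def P (t : ℝ) : L1 →L[ℝ] L1 := exp (t • A)

lemma P_eq (t : ℝ) : P t = Real.exp (-t) • exp (t • S) := by
  unfold P A
  have h1 : t • (S - 1) = t • S + algebraMap ℝ (L1 →L[ℝ] L1) (-t) := by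
    rw [smul_sub, Algebra.algebraMap_eq_smul_one, neg_smul, sub_eq_add_neg]
  have hc : Commute (t • S) (algebraMap ℝ (L1 →L[ℝ] L1) (-t)) :=
    (Algebra.commutes (-t) (t • S)).symm
  rw [h1, NormedSpace.exp_add_of_commute hc, ← NormedSpace.algebraMap_exp_comm,
    ← Real.exp_eq_exp_ℝ, Algebra.algebraMap_eq_smul_one]
  simp

lemma P_zero : P 0 = 1 := by unfold P; simp [NormedSpace.exp_zero]

lemma P_add (s t : ℝ) : P (s + t) = P s * P t := by
  unfold P
  rw [add_smul]
  exact NormedSpace.exp_add_of_commute (((Commute.refl A).smul_left s).smul_right t)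

lemma P_cont : Continuous P := by
  unfold P
  exact NormedSpace.exp_continuous.comp (by fun_prop)

lemma P_e (t : ℝ) (n : ℕ) :
    P t (e n) = ∑ k ∈ range (n + 1), (w k t * a n k) • e (n - k) := by
  have h := NormedSpace.exp_series_hasSum_exp' (𝕂 := ℝ) (t • S)
  have h2 := (ContinuousLinearMap.apply ℝ L1 (e n)).hasSum h
  have h3 : ∀ k, (ContinuousLinearMap.apply ℝ L1 (e n)) (((k.factorial : ℝ)⁻¹) • (t • S) ^ k) =
      ((t ^ k / k.factorial) * a n k) • e (n - k) := by
    intro k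
    rw [ContinuousLinearMap.apply_apply, smul_apply, smul_pow,
      smul_apply, pow_S_e, smul_smul, smul_smul]
    congr 1
    ring
  have h4 : HasSum (fun k => ((t ^ k / k.factorial) * a n k) • e (n - k)) (exp (t • S) (e n)) := by
    simpa only [h3, ContinuousLinearMap.apply_apply] using h2
  have h5 := hasSum_sum_of_ne_finset_zero (L := SummationFilter.unconditional ℕ) (s := range (n + 1))
    (f := fun k => ((t ^ k / (k.factorial : ℝ)) * a n k) • e (n - k)) (by
      intro k hk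
      simp only [Finset.mem_range, not_lt] at hk
      rw [a_zero_of_lt n k (by omega)]; simp)
  have h6 := h4.unique h5
  rw [P_eq, smul_apply, h6, Finset.smul_sum]
  apply Finset.sum_congr rfl
  intro k _
  rw [smul_smul]
  congr 1
  unfold w; ring

lemma norm_P_e {t : ℝ} (ht : 0 ≤ t) (n : ℕ) :
    ‖P t (e n)‖ ≤ ∑ k ∈ range (n + 1), w k t * a n k := by
  rw [P_e]
  refine (norm_sum_le _ _).trans (Finset.sum_le_sum fun k _ => ?_)
  rw [norm_smul, norm_e, mul_one, Real.norm_eq_abs,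
    abs_of_nonneg (mul_nonneg (w_nonneg k ht) (a_nonneg n k))]

lemma P_e_nonneg {t : ℝ} (ht : 0 ≤ t) (n m : ℕ) : 0 ≤ P t (e n) m := by
  rw [P_e]
  rw [lp.coeFn_sum, Finset.sum_apply]
  apply Finset.sum_nonneg
  intro k _
  rw [lp.coeFn_smul, Pi.smul_apply, smul_eq_mul, e_apply]
  have h1 := mul_nonneg (w_nonneg k ht) (a_nonneg n k)
  split_ifs
  · simpa using h1
  · simp

lemma single_eq (f : L1) (i : ℕ) : lp.single 1 i (f i) = f i • e i := by
  ext m
  rw [lp.coeFn_smul, Pi.smul_apply, smul_eq_mul, e_apply, lp.single_apply]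
  by_cases h : m = i
  · subst h; simp
  · simp [h]

lemma hasSum_basis (f : L1) : HasSum (fun i => f i • e i) f := by
  have := lp.hasSum_single (p := 1) (by simp) f
  simpa only [single_eq] using this

/-- matrix representation of a bounded operator -/
lemma hasSum_matrix (B : L1 →L[ℝ] L1) (f : L1) (x : ℕ) :
    HasSum (fun y => B (e y) x * f y) (B f x) := by
  have h1 := B.hasSum (hasSum_basis f)
  have h2 : HasSum (fun y => f y • B (e y)) (B f) := by
    simpa only [Function.comp_def, map_smul] using h1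
  have h3 := (lp.evalCLM ℝ (fun _ : ℕ => ℝ) 1 x).hasSum h2
  have h4 : ∀ y, (lp.evalCLM ℝ (fun _ : ℕ => ℝ) 1 x) (f y • B (e y)) = B (e y) x * f y := by
    intro y
    change f y * B (e y) x = B (e y) x * f y
    ring
  simp only [h4] at h3
  exact h3

noncomputable def L (s : ℝ) : L1 →L[ℝ] L1 := ∫ t in (0 : ℝ)..s, P t

lemma L_apply (s : ℝ) (f : L1) : L s f = ∫ t in (0 : ℝ)..s, P t f := by
  unfold L
  exact ContinuousLinearMap.intervalIntegral_apply (P_cont.intervalIntegrable _ _) f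

lemma norm_L_e {s : ℝ} (hs : 0 ≤ s) (n : ℕ) : ‖L s (e n)‖ ≤ min (4 * s) (4 * (n + 1)) := by
  rw [L_apply]
  refine le_trans ?_ (occupation n hs)
  refine intervalIntegral.norm_integral_le_of_norm_le hs ?_ ?_
  · refine Filter.Eventually.of_forall fun t ht => norm_P_e ht.1.le n
  · apply Continuous.intervalIntegrable
    have := w_cont
    fun_prop

lemma mean (f : L1) : Tendsto (fun s : ℝ => s⁻¹ • ∫ t in (0 : ℝ)..s, P t f) atTop (𝓝 0) := by
  rw [tendsto_zero_iff_norm_tendsto_zero]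
  -- dominated convergence
  have hdom : Tendsto (fun s : ℝ => ∑' n : ℕ, |f n| * min 4 (4 * (n + 1) / s)) atTop
      (𝓝 (∑' _ : ℕ, 0)) := by
    apply tendsto_tsum_of_dominated_convergence (bound := fun n => |f n| * 4)
      ((summable_abs f).mul_right 4)
    · intro n
      have h1 : Tendsto (fun s : ℝ => 4 * ((n : ℝ) + 1) / s) atTop (𝓝 0) :=
        Tendsto.const_div_atTop tendsto_id _
      have h2 : Tendsto (fun s : ℝ => min 4 (4 * ((n : ℝ) + 1) / s)) atTop (𝓝 (min 4 0)) :=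
        tendsto_const_nhds.min h1
      have h3 := h2.const_mul |f n|
      simpa using h3
    · filter_upwards [eventually_gt_atTop 0] with s hs n
      rw [Real.norm_eq_abs, abs_mul, abs_abs]
      apply mul_le_mul_of_nonneg_left _ (abs_nonneg _)
      rw [abs_of_nonneg (le_min (by norm_num) (by positivity))]
      exact min_le_left _ _
  rw [tsum_zero] at hdom
  refine squeeze_zero' (Filter.Eventually.of_forall fun s => norm_nonneg _) ?_ hdom
  filter_upwards [eventually_gt_atTop 0] with s hs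
  rw [← L_apply]
  have h1 := (L s).hasSum (hasSum_basis f)
  have h2 : HasSum (fun y => f y • L s (e y)) (L s f) := by
    simpa only [Function.comp_def, map_smul] using h1
  have hsum : Summable fun n : ℕ => |f n| * min 4 (4 * ((n : ℝ) + 1) / s) := by
    refine Summable.of_nonneg_of_le (fun n => by positivity) (fun n => ?_)
      ((summable_abs f).mul_right 4)
    exact mul_le_mul_of_nonneg_left (min_le_left _ _) (abs_nonneg _)
  have h3 : ∀ n, ‖f n • L s (e n)‖ ≤ s * (|f n| * min 4 (4 * ((n : ℝ) + 1) / s)) := by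
    intro n
    rw [norm_smul, Real.norm_eq_abs]
    have h4 := norm_L_e hs.le n
    have h5 : min (4 * s) (4 * ((n : ℝ) + 1)) = s * min 4 (4 * ((n : ℝ) + 1) / s) := by
      rw [mul_min_of_nonneg _ _ hs.le]
      congr 1
      · ring
      · field_simp
    rw [h5] at h4
    calc |f n| * ‖L s (e n)‖ ≤ |f n| * (s * min 4 (4 * ((n : ℝ) + 1) / s)) :=
          mul_le_mul_of_nonneg_left h4 (abs_nonneg _)
      _ = _ := by ring
  have h6 : ‖L s f‖ ≤ ∑' n : ℕ, s * (|f n| * min 4 (4 * ((n : ℝ) + 1) / s)) :=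
    h2.norm_le_of_bounded (hsum.mul_left s).hasSum h3
  rw [tsum_mul_left] at h6
  rw [norm_smul, norm_inv, Real.norm_eq_abs, abs_of_pos hs]
  rw [inv_mul_le_iff₀ hs]
  exact h6

lemma P_e_coord (N : ℕ) (t : ℝ) : P t (e N) 0 = w N t * a N N := by
  rw [P_e, lp.coeFn_sum, Finset.sum_apply, Finset.sum_eq_single N]
  · rw [lp.coeFn_smul, Pi.smul_apply, smul_eq_mul, e_apply]; simp
  · intro k hk hkN
    simp only [Finset.mem_range] at hk
    rw [lp.coeFn_smul, Pi.smul_apply, smul_eq_mul, e_apply, if_neg (by omega), mul_zero]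
  · intro h; simp at h

lemma factorial_bound (N : ℕ) (hN : 0 < N) :
    (N.factorial : ℝ) ≤ Real.exp 1 * √N * (N / Real.exp 1) ^ N := by
  obtain ⟨m, rfl⟩ : ∃ m, N = m + 1 := ⟨N - 1, by omega⟩
  have h := Stirling.stirlingSeq'_antitone (Nat.zero_le m)
  simp only [Function.comp_apply, Nat.succ_eq_add_one, zero_add, Stirling.stirlingSeq_one] at h
  unfold Stirling.stirlingSeq at h
  have hpos : 0 < √(2 * ((m + 1 : ℕ) : ℝ)) * (((m + 1 : ℕ) : ℝ) / Real.exp 1) ^ (m + 1) := by
    positivity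
  rw [div_le_iff₀ hpos] at h
  refine h.trans (le_of_eq ?_)
  rw [Real.sqrt_mul (by norm_num)]
  have : √(2 : ℝ) ≠ 0 := by positivity
  field_simp

lemma w_lower (N : ℕ) (hN : 0 < N) : 1 / (Real.exp 1 * √N) ≤ w N N := by
  unfold w
  have h := factorial_bound N hN
  have hf : (0 : ℝ) < N.factorial := by positivity
  have hN' : (0 : ℝ) < N := by exact_mod_cast hN
  have e1 : Real.exp (-(N : ℝ)) * (N : ℝ) ^ N = (N / Real.exp 1) ^ N := by
    rw [div_pow, ← Real.exp_nat_mul, mul_one, Real.exp_neg]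
    field_simp
  rw [← mul_div_assoc, e1, div_le_div_iff₀ (by positivity) hf, one_mul]
  linarith

/-- The semigroup is not strongly convergent. -/
lemma not_convergent : ¬ ∀ f : L1, ∃ g : L1, Tendsto (fun t : ℝ => P t f) atTop (𝓝 g) := by
  intro hconv
  have hb : ∃ C', ∀ N : ℕ, ‖P (N : ℝ)‖ ≤ C' := by
    apply banach_steinhaus
    intro f
    obtain ⟨g, hg⟩ := hconv f
    have h1 : Tendsto (fun N : ℕ => P (N : ℝ) f) atTop (𝓝 g) :=
      hg.comp tendsto_natCast_atTop_atTop
    have h2 := Metric.isBounded_range_of_tendsto _ h1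
    obtain ⟨C, hC⟩ := h2.exists_norm_le
    exact ⟨C, fun N => hC _ ⟨N, rfl⟩⟩
  obtain ⟨C, hC⟩ := hb
  have hC0 : 0 ≤ C := (norm_nonneg _).trans (hC 0)
  -- for every N > 0, (w N N * a N N) ≤ C
  have h1 : ∀ N : ℕ, w N N * a N N ≤ C := by
    intro N
    rw [← P_e_coord]
    calc P (N : ℝ) (e N) 0 ≤ |P (N : ℝ) (e N) 0| := le_abs_self _
      _ ≤ ‖P (N : ℝ) (e N)‖ := by
          have := lp.norm_apply_le_norm (p := 1) one_ne_zero (P (N : ℝ) (e N)) 0
          rwa [Real.norm_eq_abs] at this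
      _ ≤ ‖P (N : ℝ)‖ * ‖e N‖ := ContinuousLinearMap.le_opNorm _ _
      _ ≤ C := by rw [norm_e, mul_one]; exact hC N
  obtain ⟨N, hN⟩ := exists_nat_gt ((C * Real.exp 1) ^ 4)
  have hNpos : 0 < N := by
    rcases Nat.eq_zero_or_pos N with h | h
    · subst h
      have : 0 ≤ (C * Real.exp 1) ^ 4 := by positivity
      simp at hN; linarith
    · exact h
  have hNr : (0 : ℝ) < N := by exact_mod_cast hNpos
  have h2 := w_lower N hNpos
  have h3 := growth N N le_rfl
  have h4 : ((N : ℝ) + 1) ^ 3 ≤ (a N N) ^ 4 := by simpa using h3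
  have ha : 0 ≤ a N N := a_nonneg N N
  have h5 : a N N ≤ C * (Real.exp 1 * √N) := by
    have := (mul_le_mul_of_nonneg_right h2 ha).trans (h1 N)
    rw [one_div, inv_mul_le_iff₀ (by positivity)] at this
    linarith
  have h6 : (a N N) ^ 4 ≤ (C * (Real.exp 1 * √N)) ^ 4 := pow_le_pow_left₀ ha h5 4
  have h7 : (C * (Real.exp 1 * √N)) ^ 4 = (C * Real.exp 1) ^ 4 * (N : ℝ) ^ 2 := by
    have : (√(N : ℝ)) ^ 4 = (N : ℝ) ^ 2 := by
      have h := Real.sq_sqrt hNr.le
      calc (√(N : ℝ)) ^ 4 = ((√(N : ℝ)) ^ 2) ^ 2 := by ring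
        _ = _ := by rw [h]
    calc (C * (Real.exp 1 * √N)) ^ 4 = (C * Real.exp 1) ^ 4 * (√(N : ℝ)) ^ 4 := by ring
      _ = _ := by rw [this]
  have h8 : ((N : ℝ) + 1) ^ 3 ≤ (C * Real.exp 1) ^ 4 * (N : ℝ) ^ 2 := by linarith
  have h9 : (C * Real.exp 1) ^ 4 * (N : ℝ) ^ 2 ≤ N * (N : ℝ) ^ 2 := by
    apply mul_le_mul_of_nonneg_right hN.le (by positivity)
  nlinarith [pow_pos hNr 2]

end Pool.Agent.H9.Shift
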