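import Mathlib

set_option autoImplicit false
open MeasureTheory Complex Set Filter Topology

namespace Pool.Agent.S04334

noncomputable def psi (z : ℂ) : ENNReal :=
  if z = 0 then ⊤ else ENNReal.ofReal (‖z‖ ^ 2 - Real.log ‖z‖)

lemma sq_sub_log_nonneg {t : ℝ} (ht : 0 < t) : 0 ≤ t ^ 2 - Real.log t := by
  have := Real.log_le_sub_one_of_pos ht
  nlinarith [sq_nonneg (t - 1/2)]

lemma measurable_psi : Measurable psi := by
  unfold psi
  refine Measurable.ite (measurableSet_singleton 0) measurable_const ?_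
  fun_prop

lemma norm_sq_circle (z : ℂ) (d t : ℝ) :
    ‖z + (d:ℂ) * exp (t * I)‖ ^ 2 = ‖z‖ ^ 2 + d ^ 2 + 2 * d * (z.re * Real.cos t + z.im * Real.sin t) := by
  rw [← Complex.normSq_eq_norm_sq, ← Complex.normSq_eq_norm_sq, Complex.normSq_apply, Complex.normSq_apply]
  simp only [Complex.add_re, Complex.add_im, Complex.mul_re, Complex.mul_im, Complex.ofReal_re, Complex.ofReal_im,
    Complex.exp_ofReal_mul_I_re, Complex.exp_ofReal_mul_I_im]
  nlinarith [Real.sin_sq_add_cos_sq t]

lemma integral_norm_sq_circle (z : ℂ) (d : ℝ) :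
    ∫ t in (0:ℝ)..(2*Real.pi), ‖z + (d:ℂ) * exp (t * I)‖ ^ 2 = 2 * Real.pi * (‖z‖ ^ 2 + d ^ 2) := by
  simp_rw [norm_sq_circle]
  rw [intervalIntegral.integral_add, intervalIntegral.integral_const_mul, intervalIntegral.integral_add,
    intervalIntegral.integral_add,
    intervalIntegral.integral_const_mul, intervalIntegral.integral_const_mul, integral_cos, integral_sin]
  · simp; ring
  all_goals apply Continuous.intervalIntegrable; fun_prop

lemma integral_log_circle (z : ℂ) (hz : z ≠ 0) (d : ℝ) (hd : 0 < d) :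
    2 * Real.pi * Real.log ‖z‖ ≤ ∫ t in (0:ℝ)..(2*Real.pi), Real.log ‖z + (d:ℂ) * exp (t * I)‖ := by
  have h := circleAverage_log_norm_sub_const_eq_log_radius_add_posLog (a := 0) (c := z) (R := d) hd.ne'
  rw [Real.circleAverage_def] at h
  simp only [circleMap, sub_zero, smul_eq_mul] at h
  have h2 : Real.log ‖z‖ ≤ Real.log d + Real.posLog (d⁻¹ * ‖z‖) := by
    have h3 : Real.log (d⁻¹ * ‖z‖) ≤ Real.posLog (d⁻¹ * ‖z‖) := by
      simp [Real.posLog]
    rw [Real.log_mul (by positivity) (norm_ne_zero_iff.mpr hz), Real.log_inv] at h3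
    linarith
  rw [← h] at h2
  have hpi := Real.pi_pos
  rw [inv_mul_eq_div, le_div_iff₀ (by positivity)] at h2
  linarith

lemma psi_avg (z : ℂ) (d : ℝ) (hd : 0 < d) :
    ∫⁻ t in Ioc (0:ℝ) (2*Real.pi), psi (z + (d:ℂ) * exp (t * I))
      ≤ ENNReal.ofReal (2*Real.pi) * (psi z + ENNReal.ofReal (d^2)) := by
  by_cases hz : z = 0
  · have : psi z = ⊤ := by simp [psi, hz]
    rw [this, top_add, ENNReal.mul_top (by simp [Real.pi_pos])]
    exact le_top
  have hnull : ∀ᵐ t : ℝ ∂(volume.restrict (Ioc (0:ℝ) (2*Real.pi))), z + (d:ℂ) * exp (t * I) ≠ 0 := by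
    apply ae_restrict_of_ae
    have hc : (circleMap z d ⁻¹' {0}).Countable := (countable_singleton _).preimage_circleMap z hd.ne'
    have := hc.measure_zero volume
    rw [ae_iff]
    convert this using 2
    ext t; simp [circleMap]
  have hci : IntervalIntegrable (fun t : ℝ => Real.log ‖z + (d:ℂ) * exp (t * I)‖) volume 0 (2*Real.pi) := by
    have h := circleIntegrable_log_norm_sub_const (a := 0) (c := z) d
    simpa [CircleIntegrable, circleMap] using h
  have hcs : IntervalIntegrable (fun t : ℝ => ‖z + (d:ℂ) * exp (t * I)‖ ^ 2) volume 0 (2*Real.pi) := by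
    apply Continuous.intervalIntegrable; fun_prop
  have hpi := Real.pi_pos
  have hint : IntegrableOn (fun t : ℝ => ‖z + (d:ℂ) * exp (t * I)‖ ^ 2 - Real.log ‖z + (d:ℂ) * exp (t * I)‖)
      (Ioc (0:ℝ) (2*Real.pi)) volume := by
    rw [← intervalIntegrable_iff_integrableOn_Ioc_of_le (by positivity)]
    exact hcs.sub hci
  calc ∫⁻ t in Ioc (0:ℝ) (2*Real.pi), psi (z + (d:ℂ) * exp (t * I))
      = ∫⁻ t in Ioc (0:ℝ) (2*Real.pi), ENNReal.ofReal (‖z + (d:ℂ) * exp (t * I)‖ ^ 2 - Real.log ‖z + (d:ℂ) * exp (t * I)‖) := by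
        apply lintegral_congr_ae
        filter_upwards [hnull] with t ht
        simp [psi, ht]
    _ = ENNReal.ofReal (∫ t in Ioc (0:ℝ) (2*Real.pi), (‖z + (d:ℂ) * exp (t * I)‖ ^ 2 - Real.log ‖z + (d:ℂ) * exp (t * I)‖)) := by
        rw [ofReal_integral_eq_lintegral_ofReal hint]
        filter_upwards [hnull] with t ht
        exact sq_sub_log_nonneg (norm_pos_iff.mpr ht)
    _ ≤ ENNReal.ofReal (2*Real.pi * (‖z‖^2 - Real.log ‖z‖ + d^2)) := by
        apply ENNReal.ofReal_le_ofReal
        rw [← intervalIntegral.integral_of_le (by positivity), intervalIntegral.integral_sub hcs hci,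
          integral_norm_sq_circle]
        have := integral_log_circle z hz d hd
        nlinarith
    _ = _ := by
        rw [ENNReal.ofReal_mul (by positivity), ENNReal.ofReal_add (sq_sub_log_nonneg (norm_pos_iff.mpr hz)) (by positivity)]
        simp [psi, hz]

lemma sq_avg (z : ℂ) (d S T : ℝ) (hT : 0 < T) (hS : ∀ t : ℝ, ‖z + (d:ℂ) * exp (t * I)‖ ^ 2 ≤ S) :
    ∫⁻ t in Ioc (0:ℝ) (2*Real.pi), ENNReal.ofReal ((S - ‖z + (d:ℂ) * exp (t * I)‖ ^ 2) / T)
      = ENNReal.ofReal (2*Real.pi) * ENNReal.ofReal ((S - ‖z‖^2 - d^2) / T) := by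
  have hpi := Real.pi_pos
  rw [← ofReal_integral_eq_lintegral_ofReal, ← ENNReal.ofReal_mul (by positivity),
    ← intervalIntegral.integral_of_le (by positivity), intervalIntegral.integral_div,
    intervalIntegral.integral_sub, integral_norm_sq_circle]
  · congr 1
    simp
    field_simp
    ring
  · simp
  · apply Continuous.intervalIntegrable; fun_prop
  · rw [← IntegrableOn, ← intervalIntegrable_iff_integrableOn_Ioc_of_le (by positivity)]
    apply Continuous.intervalIntegrable; fun_prop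
  · exact Eventually.of_forall (fun t => div_nonneg (sub_nonneg.mpr (hS t)) hT.le)

lemma shift_avg (g : ℂ → ENNReal) (c : ℝ) :
    ∫⁻ t in Ioc (0:ℝ) (2*Real.pi), g (exp ((t + c : ℝ) * I))
      = ∫⁻ t in Ioc (0:ℝ) (2*Real.pi), g (exp (t * I)) := by
  haveI : Fact (0 < 2 * Real.pi) := ⟨by positivity⟩
  have hT := Real.pi_pos
  have h1 := AddCircle.lintegral_preimage (2*Real.pi) 0 (fun b => g (AddCircle.toCircle b))
  have h2 := AddCircle.lintegral_preimage (2*Real.pi) 0 (fun b => g (AddCircle.toCircle (b + (c : AddCircle (2*Real.pi)))))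
  rw [lintegral_add_right_eq_self (fun b => g (AddCircle.toCircle b)) (c : AddCircle (2*Real.pi)), ← h1] at h2
  simp only [zero_add] at h1 h2
  convert h2 using 3 with t t
  · rw [← AddCircle.coe_add, AddCircle.toCircle_apply_mk]
    simp only [Circle.coe_exp]
    congr 1
    push_cast
    field_simp
  · rw [AddCircle.toCircle_apply_mk]
    simp only [Circle.coe_exp]
    congr 1
    push_cast
    field_simp

end Pool.Agent.S04334
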