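import Mathlib

set_option autoImplicit false
open Classical MeasureTheory
open Complex Set Filter Topology

namespace Pool.Agent.S04334

lemma lintegral_log_lt_top :
    ∫⁻ w : ℂ, (if w = 0 then (⊤ : ENNReal) else ENNReal.ofReal (-Real.log ‖w‖)) < ⊤ := by
  have h1 : ∫⁻ w : ℂ, (if w = 0 then (⊤ : ENNReal) else ENNReal.ofReal (-Real.log ‖w‖))
      = ∫⁻ w : ℂ, ENNReal.ofReal (-Real.log ‖w‖) := by
    apply lintegral_congr_ae
    have : ∀ᵐ w : ℂ, w ≠ 0 := by
      rw [ae_iff]; simp
    filter_upwards [this] with w hw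
    simp [hw]
  rw [h1, ← Complex.lintegral_comp_polarCoord_symm]
  calc ∫⁻ (p : ℝ × ℝ) in polarCoord.target, ENNReal.ofReal p.1 • ENNReal.ofReal (-Real.log ‖Complex.polarCoord.symm p‖)
      ≤ ∫⁻ (p : ℝ × ℝ) in polarCoord.target, (Set.Ioo (0:ℝ) 1 ×ˢ Set.Ioo (-Real.pi) Real.pi).indicator 1 p := by
        apply setLIntegral_mono' polarCoord.open_target.measurableSet
        intro p hp
        rw [polarCoord_target] at hp
        obtain ⟨hp1, hp2⟩ := hp
        simp only [mem_Ioi] at hp1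
        rw [Complex.norm_polarCoord_symm, abs_of_pos hp1, smul_eq_mul]
        by_cases h : p.1 < 1
        · rw [indicator_of_mem (show p ∈ Set.Ioo (0:ℝ) 1 ×ˢ Set.Ioo (-Real.pi) Real.pi from ⟨⟨hp1, h⟩, hp2⟩)]
          rw [← ENNReal.ofReal_mul hp1.le]
          simp only [Pi.one_apply]
          rw [ENNReal.ofReal_le_one]
          have h2 := Real.one_sub_inv_le_log_of_pos hp1
          have h3 : p.1 * (1 - p.1⁻¹) = p.1 - 1 := by field_simp
          nlinarith
        · have : -Real.log p.1 ≤ 0 := by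
            have := Real.log_nonneg (not_lt.mp h)
            linarith
          rw [ENNReal.ofReal_of_nonpos this]
          simp
    _ ≤ ∫⁻ (p : ℝ × ℝ), (Set.Ioo (0:ℝ) 1 ×ˢ Set.Ioo (-Real.pi) Real.pi).indicator 1 p :=
        setLIntegral_le_lintegral _ _
    _ = volume (Set.Ioo (0:ℝ) 1 ×ˢ Set.Ioo (-Real.pi) Real.pi) := by
        rw [lintegral_indicator_one (measurableSet_Ioo.prod measurableSet_Ioo)]
    _ < ⊤ := by
        rw [Measure.volume_eq_prod, Measure.prod_prod]
        simp [ENNReal.mul_lt_top]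

lemma energy_finite (K : Set ℂ) (hK : IsCompact K) :
    ∫⁻ z, ∫⁻ w, (if z = w then (⊤ : ENNReal)
      else ENNReal.ofReal (-Real.log (dist z w))) ∂(volume.restrict K) ∂(volume.restrict K) ≠ ⊤ := by
  have hE := lintegral_log_lt_top
  set E := ∫⁻ w : ℂ, (if w = 0 then (⊤ : ENNReal) else ENNReal.ofReal (-Real.log ‖w‖)) with hEdef
  have h1 : ∀ z : ℂ, ∫⁻ w, (if z = w then (⊤ : ENNReal)
      else ENNReal.ofReal (-Real.log (dist z w))) ∂(volume.restrict K) ≤ E := by
    intro z
    calc ∫⁻ w, (if z = w then (⊤ : ENNReal)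
      else ENNReal.ofReal (-Real.log (dist z w))) ∂(volume.restrict K)
        ≤ ∫⁻ w, (if z = w then (⊤ : ENNReal)
      else ENNReal.ofReal (-Real.log (dist z w))) := setLIntegral_le_lintegral _ _
      _ = ∫⁻ w, (fun x : ℂ => if x = 0 then (⊤ : ENNReal) else ENNReal.ofReal (-Real.log ‖x‖)) (z - w) := by
          apply lintegral_congr
          intro w
          simp only [sub_eq_zero, dist_eq_norm]
      _ = E := by
          rw [lintegral_sub_left_eq_self (fun x : ℂ => if x = 0 then (⊤ : ENNReal) else ENNReal.ofReal (-Real.log ‖x‖)) z]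
  have h2 : ∫⁻ z, ∫⁻ w, (if z = w then (⊤ : ENNReal)
      else ENNReal.ofReal (-Real.log (dist z w))) ∂(volume.restrict K) ∂(volume.restrict K) ≤ E * volume K := by
    calc _ ≤ ∫⁻ z, E ∂(volume.restrict K) := lintegral_mono h1
      _ = E * volume K := by rw [setLIntegral_const]
  exact ne_top_of_le_ne_top (ENNReal.mul_ne_top hE.ne hK.measure_lt_top.ne) h2

end Pool.Agent.S04334
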