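import Mathlib

set_option autoImplicit false
open MeasureTheory Complex Set Filter Topology

namespace Pool.Agent.S04334

lemma exists_q (a : ℕ → ℝ) (ha0 : ∀ k, 0 < a k) (ha1 : ∀ k, a k ≤ 1) :
    ∃ q : ℕ → ℕ, ∀ m, m + 1 ≤ q m ∧
      (1 - a m / (4 * ((∑ k ∈ Finset.range m, q k : ℕ) + 1 : ℝ))) ^ (q m) ≤ a m * (1/2) ^ (m+2) := by
  have h : ∀ m s : ℕ, ∃ g : ℕ, m + 1 ≤ g ∧ (1 - a m / (4 * ((s:ℝ) + 1))) ^ g ≤ a m * (1/2) ^ (m+2) := by
    intro m s
    have h0 : 0 < a m / (4 * ((s:ℝ) + 1)) := div_pos (ha0 m) (by positivity)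
    have h1 : a m / (4 * ((s:ℝ) + 1)) ≤ 1 := by
      rw [div_le_one (by positivity)]
      have := ha1 m
      have : (0:ℝ) ≤ s := by positivity
      linarith
    have ht := tendsto_pow_atTop_nhds_zero_of_lt_one (r := 1 - a m / (4 * ((s:ℝ) + 1))) (by linarith) (by linarith)
    have hp : 0 < a m * (1/2:ℝ) ^ (m+2) := mul_pos (ha0 m) (by positivity)
    have h2 := (ht.eventually (gt_mem_nhds hp)).and (eventually_ge_atTop (m+1))
    obtain ⟨g, hg1, hg2⟩ := h2.exists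
    exact ⟨g, hg2, hg1.le⟩
  choose g hg1 hg2 using h
  let S : ℕ → ℕ := fun n => Nat.rec 0 (fun m s => s + g m s) n
  have hS : ∀ m, S m = ∑ k ∈ Finset.range m, g k (S k) := by
    intro m
    induction m with
    | zero => rfl
    | succ m ih =>
      rw [Finset.sum_range_succ, ← ih]
  refine ⟨fun m => g m (S m), fun m => ⟨hg1 m _, ?_⟩⟩
  rw [← hS m]
  exact hg2 m (S m)

/-- thresholds -/
noncomputable def RR (a : ℕ → ℝ) (q : ℕ → ℕ) (m : ℕ) : ℝ :=
  a m / (4 * ((∑ k ∈ Finset.range m, q k : ℕ) + 1 : ℝ))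

lemma norm_pow_sub_pow_le' (z w : ℂ) (hz : ‖z‖ ≤ 1) (hw : ‖w‖ ≤ 1) (n : ℕ) :
    ‖z ^ n - w ^ n‖ ≤ n * ‖z - w‖ := by
  induction n with
  | zero => simp
  | succ n ih =>
    have : z ^ (n+1) - w ^ (n+1) = z * (z ^ n - w ^ n) + (z - w) * w ^ n := by ring
    rw [this]
    calc _ ≤ ‖z * (z ^ n - w ^ n)‖ + ‖(z - w) * w ^ n‖ := norm_add_le _ _
      _ = ‖z‖ * ‖z ^ n - w ^ n‖ + ‖z - w‖ * ‖w‖ ^ n := by rw [norm_mul, norm_mul, norm_pow]
      _ ≤ 1 * (n * ‖z - w‖) + ‖z - w‖ * 1 := by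
          have := pow_le_one₀ (norm_nonneg w) hw (n := n)
          gcongr
      _ = _ := by push_cast; ring

section
variable (a : ℕ → ℝ) (ha0 : ∀ k, 0 < a k) (ha1 : ∀ k, a k ≤ 1) (hanti : Antitone a)
  (q : ℕ → ℕ) (hq1 : ∀ m, m + 1 ≤ q m) (hq2 : ∀ m, (1 - RR a q m) ^ (q m) ≤ a m * (1/2) ^ (m+2))
  (u : ℕ → ℂ) (hu : ∀ k, ‖u k‖ = 1)

noncomputable def ff (a : ℕ → ℝ) (q : ℕ → ℕ) (u : ℕ → ℂ) (z : ℂ) : ℂ := ∑' k, (a k : ℂ) * u k * z ^ (q k)

include ha0 ha1 hq1 hu in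
lemma ff_diff : DifferentiableOn ℂ (ff a q u) (Metric.ball (0:ℂ) 1) := by
  intro z hz
  rw [mem_ball_zero_iff] at hz
  obtain ⟨r, hr1, hr2⟩ := exists_between hz
  have hr0 : 0 ≤ r := le_trans (norm_nonneg _) hr1.le
  have h : DifferentiableOn ℂ (fun w => ∑' k, (a k : ℂ) * u k * w ^ (q k)) (Metric.ball (0:ℂ) r) := by
    apply differentiableOn_tsum_of_summable_norm (u := fun k => r ^ k) (summable_geometric_of_lt_one hr0 hr2)
    · intro k; fun_prop
    · exact Metric.isOpen_ball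
    · intro k w hw
      rw [mem_ball_zero_iff] at hw
      rw [norm_mul, norm_mul, hu, norm_pow, Complex.norm_real, Real.norm_of_nonneg (ha0 k).le]
      calc a k * 1 * ‖w‖ ^ q k ≤ 1 * 1 * r ^ (q k) := by
            have := ha1 k
            gcongr
        _ ≤ r ^ k := by
            rw [one_mul, one_mul]
            exact pow_le_pow_of_le_one hr0 hr2.le (by have := hq1 k; omega)
  have := (h z (by simpa using hr1)).differentiableAt (Metric.isOpen_ball.mem_nhds (by simpa using hr1))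
  exact this.differentiableWithinAt

include ha0 in
lemma RR_pos (m : ℕ) : 0 < RR a q m := div_pos (ha0 m) (by positivity)

include ha0 ha1 in
lemma RR_le (m : ℕ) : RR a q m ≤ 1/4 := by
  unfold RR
  rw [div_le_iff₀ (by positivity)]
  have := ha1 m
  have h : (0:ℝ) ≤ (∑ k ∈ Finset.range m, q k : ℕ) := by positivity
  linarith

include ha0 hanti in
lemma RR_anti : Antitone (RR a q) := by
  intro m n hmn
  unfold RR
  have h1 := hanti hmn
  have h2 : (∑ k ∈ Finset.range m, q k) ≤ (∑ k ∈ Finset.range n, q k) :=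
    Finset.sum_le_sum_of_subset (Finset.range_mono hmn)
  have h3 : ((∑ k ∈ Finset.range m, q k : ℕ) : ℝ) ≤ ((∑ k ∈ Finset.range n, q k : ℕ) : ℝ) := by exact_mod_cast h2
  have h4 := (ha0 m).le
  gcongr

include ha0 ha1 hq1 in
lemma RR_tendsto : Tendsto (RR a q) atTop (𝓝 0) := by
  have h : ∀ m, RR a q m ≤ 1 / ((m:ℝ) + 1) := by
    intro m
    unfold RR
    have h2 : m ≤ (∑ k ∈ Finset.range m, q k) := by
      calc m = ∑ k ∈ Finset.range m, 1 := by simp
        _ ≤ _ := Finset.sum_le_sum (fun k _ => by have := hq1 k; omega)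
    have h3 : (m:ℝ) ≤ ((∑ k ∈ Finset.range m, q k : ℕ) : ℝ) := by exact_mod_cast h2
    have := ha1 m
    have h4 : (0:ℝ) ≤ m := by positivity
    apply div_le_div₀ (by norm_num) this (by positivity) (by linarith)
  exact squeeze_zero (fun m => (RR_pos a ha0 q m).le) h tendsto_one_div_add_atTop_nhds_zero_nat

include ha0 ha1 hanti hq1 hq2 hu in
lemma contain (m : ℕ) (ζ z : ℂ) (hζ : ‖ζ‖ = 1) (hz : ‖z‖ < 1) (h2 : ‖ζ - z‖ ≤ 2 * (1 - ‖z‖))
    (hR1 : RR a q (m+1) ≤ 1 - ‖z‖) (hR2 : 1 - ‖z‖ ≤ RR a q m) :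
    ‖ff a q u z - ∑ k ∈ Finset.range m, (a k : ℂ) * u k * ζ ^ (q k)‖ < 2 * a m := by
  set t : ℕ → ℂ := fun k => (a k : ℂ) * u k * z ^ (q k) with ht
  have hnorm : ∀ k, ‖t k‖ = a k * ‖z‖ ^ (q k) := by
    intro k
    rw [ht]; simp only
    rw [norm_mul, norm_mul, hu, norm_pow, Complex.norm_real, Real.norm_of_nonneg (ha0 k).le, mul_one]
  have hsum : Summable t := by
    apply Summable.of_norm_bounded (g := fun k => ‖z‖ ^ k) (summable_geometric_of_lt_one (norm_nonneg _) hz)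
    intro k
    rw [hnorm]
    calc a k * ‖z‖ ^ q k ≤ 1 * ‖z‖ ^ q k := by have := ha1 k; gcongr
      _ ≤ ‖z‖ ^ k := by
          rw [one_mul]
          exact pow_le_pow_of_le_one (norm_nonneg _) hz.le (by have := hq1 k; omega)
  have hsplit : ff a q u z = ∑ k ∈ Finset.range m, t k + (t m + ∑' k, t (k + (m+1))) := by
    have := (hsum.sum_add_tsum_nat_add (m+1))
    rw [Finset.sum_range_succ] at this
    rw [show ff a q u z = ∑' k, t k from rfl, ← this]
    ring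
  have hA : ‖∑ k ∈ Finset.range m, t k - ∑ k ∈ Finset.range m, (a k : ℂ) * u k * ζ ^ (q k)‖ ≤ a m / 2 := by
    rw [← Finset.sum_sub_distrib]
    calc ‖∑ k ∈ Finset.range m, (t k - (a k : ℂ) * u k * ζ ^ (q k))‖
        ≤ ∑ k ∈ Finset.range m, (q k : ℝ) * (2 * RR a q m) := by
          apply norm_sum_le_of_le
          intro k _
          have : t k - (a k : ℂ) * u k * ζ ^ (q k) = (a k : ℂ) * u k * (z ^ (q k) - ζ ^ (q k)) := by
            rw [ht]; ring
          rw [this, norm_mul, norm_mul, hu, Complex.norm_real, Real.norm_of_nonneg (ha0 k).le, mul_one]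
          have h3 := norm_pow_sub_pow_le' z ζ hz.le hζ.le (q k)
          have h4 : ‖z - ζ‖ ≤ 2 * RR a q m := by rw [norm_sub_rev]; linarith
          calc a k * ‖z ^ q k - ζ ^ q k‖ ≤ 1 * (q k * ‖z - ζ‖) := by have := ha1 k; gcongr
            _ ≤ (q k : ℝ) * (2 * RR a q m) := by rw [one_mul]; gcongr
      _ = 2 * RR a q m * ((∑ k ∈ Finset.range m, q k : ℕ) : ℝ) := by
          rw [← Finset.sum_mul]; push_cast; ring
      _ ≤ a m / 2 := by
          unfold RR
          have h5 : (0:ℝ) ≤ ((∑ k ∈ Finset.range m, q k : ℕ) : ℝ) := by positivity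
          have h6 := ha0 m
          set s := ((∑ k ∈ Finset.range m, q k : ℕ) : ℝ)
          rw [show 2 * (a m / (4 * (s + 1))) * s = (a m / 2) * (s / (s+1)) by field_simp; ring]
          have : s / (s+1) ≤ 1 := by rw [div_le_one (by positivity)]; linarith
          nlinarith
  have hB : ‖t m‖ < a m := by
    rw [hnorm]
    have : ‖z‖ ^ (q m) < 1 := pow_lt_one₀ (norm_nonneg _) hz (by have := hq1 m; omega)
    have := ha0 m
    nlinarith
  have hC : ‖∑' k, t (k + (m+1))‖ ≤ a m / 2 := by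
    have hb : ∀ k, ‖t (k + (m+1))‖ ≤ (a m / 4) * (1/2) ^ k := by
      intro k
      rw [hnorm]
      have h1 : ‖z‖ ≤ 1 - RR a q (k + (m+1)) := by
        have := RR_anti a ha0 hanti q (show m+1 ≤ k + (m+1) by omega)
        linarith
      calc a (k + (m+1)) * ‖z‖ ^ q (k + (m+1)) ≤ 1 * (1 - RR a q (k + (m+1))) ^ q (k + (m+1)) := by
            have := ha1 (k + (m+1))
            have h0 : 0 ≤ 1 - RR a q (k + (m+1)) := le_trans (norm_nonneg _) h1
            gcongr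
        _ ≤ a (k + (m+1)) * (1/2) ^ (k + (m+1) + 2) := by rw [one_mul]; exact hq2 _
        _ ≤ a m * (1/2) ^ (k + 2) := by
            have h3 : a (k + (m+1)) ≤ a m := hanti (by omega)
            have h4 : (1/2:ℝ) ^ (k + (m+1) + 2) ≤ (1/2) ^ (k+2) :=
              pow_le_pow_of_le_one (by norm_num) (by norm_num) (by omega)
            have h5 := (ha0 m).le
            gcongr
        _ = _ := by ring
    have hg : HasSum (fun k : ℕ => (a m / 4) * (1/2:ℝ) ^ k) ((a m / 4) * 2) := hasSum_geometric_two.mul_left _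
    calc _ ≤ (a m / 4) * 2 := tsum_of_norm_bounded hg hb
      _ = _ := by ring
  rw [hsplit]
  calc ‖∑ k ∈ Finset.range m, t k + (t m + ∑' k, t (k + (m+1))) - ∑ k ∈ Finset.range m, (a k : ℂ) * u k * ζ ^ (q k)‖
      = ‖(∑ k ∈ Finset.range m, t k - ∑ k ∈ Finset.range m, (a k : ℂ) * u k * ζ ^ (q k)) + t m + ∑' k, t (k + (m+1))‖ := by
        congr 1; ring
    _ ≤ ‖∑ k ∈ Finset.range m, t k - ∑ k ∈ Finset.range m, (a k : ℂ) * u k * ζ ^ (q k)‖ + ‖t m‖ + ‖∑' k, t (k + (m+1))‖ :=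
        norm_add₃_le
    _ < 2 * a m := by linarith

end

end Pool.Agent.S04334
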