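import Mathlib
import Pool.Agent.H9.T1

set_option autoImplicit false
open Classical MeasureTheory
open Complex Set Filter Topology

namespace Pool.Agent.S04334

noncomputable def pos (a : ℕ → ℝ) (v : ℕ → ℂ) (k : ℕ) : ℂ := ∑ j ∈ Finset.range k, (a j : ℂ) * v j

def hitP (a : ℕ → ℝ) (b : ℕ → ℕ) (n k : ℕ) (v : ℕ → ℂ) (w : ℂ) : Prop :=
  ∃ j, j < k ∧ b n ≤ j ∧ j < b (n+1) ∧ ‖pos a v j - w‖ < 2 * a j

noncomputable def PP (a : ℕ → ℝ) (b : ℕ → ℕ) (n k : ℕ) (v : ℕ → ℂ) (w : ℂ) : ENNReal :=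
  if hitP a b n k v w then 1 else
    if k < b (n+1) then ENNReal.ofReal ((-Real.log (2 * a (b n)))⁻¹) *
      (psi (pos a v k - w) + ENNReal.ofReal (∑ j ∈ Finset.Ico k (b (n+1)), a j ^ 2)) else 0

noncomputable def dd (a : ℕ → ℝ) (b : ℕ → ℕ) (n k : ℕ) (v : ℕ → ℂ) : ℂ :=
  ∑ j ∈ Finset.Ico (b n) (min k (b (n+1))), (a j : ℂ) * v j

def excP (a : ℕ → ℝ) (b : ℕ → ℕ) (n k : ℕ) (v : ℕ → ℂ) : Prop := ∃ j, j ≤ k ∧ 1 ≤ ‖dd a b n j v‖

noncomputable def QQ (a : ℕ → ℝ) (b : ℕ → ℕ) (T : ℕ → ℝ) (n k : ℕ) (v : ℕ → ℂ) : ENNReal :=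
  if excP a b n k v then 0 else
    ENNReal.ofReal ((4 + ∑ j ∈ Finset.Ico (b n) (min k (b (n+1))), a j ^ 2 - ‖dd a b n k v‖ ^ 2) / T n)

lemma pos_congr (a : ℕ → ℝ) (v v' : ℕ → ℂ) (k : ℕ) (h : ∀ j, j < k → v j = v' j) : pos a v k = pos a v' k := by
  unfold pos
  apply Finset.sum_congr rfl
  intro j hj
  rw [h j (Finset.mem_range.mp hj)]

lemma dd_congr (a : ℕ → ℝ) (b : ℕ → ℕ) (n : ℕ) (v v' : ℕ → ℂ) (k : ℕ) (h : ∀ j, j < k → v j = v' j) :
    dd a b n k v = dd a b n k v' := by
  unfold dd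
  apply Finset.sum_congr rfl
  intro j hj
  rw [Finset.mem_Ico] at hj
  rw [h j (lt_of_lt_of_le hj.2 (min_le_left _ _))]

lemma hitP_congr (a : ℕ → ℝ) (b : ℕ → ℕ) (n : ℕ) (v v' : ℕ → ℂ) (w : ℂ) (k : ℕ)
    (h : ∀ j, j + 1 < k → v j = v' j) :
    hitP a b n k v w ↔ hitP a b n k v' w := by
  unfold hitP
  apply exists_congr
  intro j
  constructor
  · rintro ⟨h1, h2, h3, h4⟩
    refine ⟨h1, h2, h3, ?_⟩
    rw [← pos_congr a v v' j (fun i hi => h i (by omega))]
    exact h4
  · rintro ⟨h1, h2, h3, h4⟩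
    refine ⟨h1, h2, h3, ?_⟩
    rw [pos_congr a v v' j (fun i hi => h i (by omega))]
    exact h4

lemma excP_congr (a : ℕ → ℝ) (b : ℕ → ℕ) (n : ℕ) (v v' : ℕ → ℂ) (k : ℕ)
    (h : ∀ j, j < k → v j = v' j) :
    excP a b n k v ↔ excP a b n k v' := by
  unfold excP
  apply exists_congr
  intro j
  apply and_congr_right
  intro hj
  rw [dd_congr a b n v v' j (fun i hi => h i (by omega))]

lemma PP_congr (a : ℕ → ℝ) (b : ℕ → ℕ) (n : ℕ) (v v' : ℕ → ℂ) (w : ℂ) (k : ℕ)
    (h : ∀ j, j < k → v j = v' j) : PP a b n k v w = PP a b n k v' w := by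
  unfold PP
  have h1 := hitP_congr a b n v v' w k (fun j hj => h j (by omega))
  have h2 := pos_congr a v v' k h
  by_cases hh : hitP a b n k v w
  · rw [if_pos hh, if_pos (h1.mp hh)]
  · rw [if_neg hh, if_neg (fun h' => hh (h1.mpr h')), h2]

lemma QQ_congr (a : ℕ → ℝ) (b : ℕ → ℕ) (T : ℕ → ℝ) (n : ℕ) (v v' : ℕ → ℂ) (k : ℕ)
    (h : ∀ j, j < k → v j = v' j) : QQ a b T n k v = QQ a b T n k v' := by
  unfold QQ
  have h1 := excP_congr a b n v v' k h
  have h2 := dd_congr a b n v v' k h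
  by_cases hh : excP a b n k v
  · rw [if_pos hh, if_pos (h1.mp hh)]
  · rw [if_neg hh, if_neg (fun h' => hh (h1.mpr h')), h2]

lemma PP_step (a : ℕ → ℝ) (ha0 : ∀ k, 0 < a k) (hanti : Antitone a) (b : ℕ → ℕ)
    (hL : ∀ n, 0 < -Real.log (2 * a (b n))) (n k : ℕ) (v : ℕ → ℂ) (w : ℂ) :
    ∫⁻ t in Ioc (0:ℝ) (2*Real.pi), PP a b n (k+1) (Function.update v k (exp (t * I))) w
      ≤ ENNReal.ofReal (2*Real.pi) * PP a b n k v w := by
  have hpos : ∀ t : ℝ, pos a (Function.update v k (exp (t * I))) (k+1) = pos a v k + (a k : ℂ) * exp (t * I) := by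
    intro t
    unfold pos
    rw [Finset.sum_range_succ, Function.update_self]
    congr 1
    apply Finset.sum_congr rfl
    intro j hj
    rw [Function.update_of_ne (by have := Finset.mem_range.mp hj; omega)]
  have hhit : ∀ t : ℝ, hitP a b n (k+1) (Function.update v k (exp (t * I))) w ↔ hitP a b n (k+1) v w := by
    intro t
    apply hitP_congr
    intro j hj
    rw [Function.update_of_ne (by omega)]
  have hvol : ∫⁻ t in Ioc (0:ℝ) (2*Real.pi), (1:ENNReal) = ENNReal.ofReal (2*Real.pi) := by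
    rw [setLIntegral_one, Real.volume_Ioc, sub_zero]
  by_cases h0 : hitP a b n k v w
  · have h1 : PP a b n k v w = 1 := by unfold PP; rw [if_pos h0]
    have h2 : hitP a b n (k+1) v w := by
      obtain ⟨j, h1, h2⟩ := h0
      exact ⟨j, by omega, h2⟩
    have h3 : ∀ t : ℝ, PP a b n (k+1) (Function.update v k (exp (t * I))) w = 1 := by
      intro t
      unfold PP; rw [if_pos ((hhit t).mpr h2)]
    simp_rw [h3]
    rw [h1, hvol, mul_one]
  by_cases hk : k < b (n+1)
  · have h1 : PP a b n k v w = ENNReal.ofReal ((-Real.log (2 * a (b n)))⁻¹) *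
      (psi (pos a v k - w) + ENNReal.ofReal (∑ j ∈ Finset.Ico k (b (n+1)), a j ^ 2)) := by
      unfold PP; rw [if_neg h0, if_pos hk]
    by_cases h2 : hitP a b n (k+1) v w
    · have h3 : b n ≤ k ∧ ‖pos a v k - w‖ < 2 * a k := by
        obtain ⟨j, g1, g2, g3, g4⟩ := h2
        have : j = k := by
          by_contra hne
          exact h0 ⟨j, by omega, g2, g3, g4⟩
        subst this
        exact ⟨g2, g4⟩
      have h3' : ∀ t : ℝ, PP a b n (k+1) (Function.update v k (exp (t * I))) w = 1 := by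
        intro t
        unfold PP; rw [if_pos ((hhit t).mpr h2)]
      simp_rw [h3']
      rw [hvol]
      have h4 : 1 ≤ PP a b n k v w := by
        rw [h1]
        have h5 : ENNReal.ofReal (-Real.log (2 * a (b n))) ≤ psi (pos a v k - w) := by
          unfold psi
          split_ifs with hz
          · exact le_top
          · apply ENNReal.ofReal_le_ofReal
            have h6 : Real.log ‖pos a v k - w‖ ≤ Real.log (2 * a (b n)) := by
              apply Real.log_le_log (norm_pos_iff.mpr hz)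
              have := hanti h3.1
              linarith [h3.2]
            nlinarith [sq_nonneg ‖pos a v k - w‖]
        calc (1:ENNReal) = ENNReal.ofReal ((-Real.log (2 * a (b n)))⁻¹) * ENNReal.ofReal (-Real.log (2 * a (b n))) := by
              rw [← ENNReal.ofReal_mul (inv_nonneg.mpr (hL n).le), inv_mul_cancel₀ (hL n).ne', ENNReal.ofReal_one]
          _ ≤ _ := by gcongr; exact le_trans h5 le_self_add
      calc ENNReal.ofReal (2*Real.pi) = ENNReal.ofReal (2*Real.pi) * 1 := (mul_one _).symm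
        _ ≤ _ := by gcongr
    · have h3 : ∀ t : ℝ, PP a b n (k+1) (Function.update v k (exp (t * I))) w
          ≤ ENNReal.ofReal ((-Real.log (2 * a (b n)))⁻¹) *
      (psi ((pos a v k - w) + (a k : ℂ) * exp (t * I)) + ENNReal.ofReal (∑ j ∈ Finset.Ico (k+1) (b (n+1)), a j ^ 2)) := by
        intro t
        unfold PP
        rw [if_neg (fun h' => h2 ((hhit t).mp h')), hpos,
          show pos a v k + (a k : ℂ) * exp (t * I) - w = (pos a v k - w) + (a k : ℂ) * exp (t * I) by ring]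
        split_ifs
        · exact le_refl _
        · exact bot_le
      have hm : Measurable (fun t : ℝ => psi ((pos a v k - w) + (a k : ℂ) * exp (t * I))) := by
        apply measurable_psi.comp
        fun_prop
      calc ∫⁻ t in Ioc (0:ℝ) (2*Real.pi), PP a b n (k+1) (Function.update v k (exp (t * I))) w
          ≤ ∫⁻ t in Ioc (0:ℝ) (2*Real.pi), ENNReal.ofReal ((-Real.log (2 * a (b n)))⁻¹) *
      (psi ((pos a v k - w) + (a k : ℂ) * exp (t * I)) + ENNReal.ofReal (∑ j ∈ Finset.Ico (k+1) (b (n+1)), a j ^ 2)) :=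
            lintegral_mono h3
        _ = ENNReal.ofReal ((-Real.log (2 * a (b n)))⁻¹) *
            ((∫⁻ t in Ioc (0:ℝ) (2*Real.pi), psi ((pos a v k - w) + (a k : ℂ) * exp (t * I)))
              + ENNReal.ofReal (∑ j ∈ Finset.Ico (k+1) (b (n+1)), a j ^ 2) * ENNReal.ofReal (2*Real.pi)) := by
            rw [lintegral_const_mul _ (hm.add_const _), lintegral_add_left hm, setLIntegral_const, Real.volume_Ioc, sub_zero]
        _ ≤ ENNReal.ofReal ((-Real.log (2 * a (b n)))⁻¹) *
            ((ENNReal.ofReal (2*Real.pi) * (psi (pos a v k - w) + ENNReal.ofReal ((a k)^2)))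
              + ENNReal.ofReal (∑ j ∈ Finset.Ico (k+1) (b (n+1)), a j ^ 2) * ENNReal.ofReal (2*Real.pi)) := by
            gcongr
            exact psi_avg _ _ (ha0 k)
        _ = ENNReal.ofReal (2*Real.pi) * PP a b n k v w := by
            rw [h1, Finset.sum_eq_sum_Ico_succ_bot hk, ENNReal.ofReal_add (sq_nonneg _) (Finset.sum_nonneg (fun _ _ => sq_nonneg _))]
            ring
  · have h2 : ¬ hitP a b n (k+1) v w := by
      rintro ⟨j, g1, g2, g3, g4⟩
      exact h0 ⟨j, by omega, g2, g3, g4⟩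
    have h3 : ∀ t : ℝ, PP a b n (k+1) (Function.update v k (exp (t * I))) w = 0 := by
      intro t
      unfold PP
      rw [if_neg (fun h' => h2 ((hhit t).mp h')), if_neg (by omega)]
    simp_rw [h3]
    simp

lemma QQ_step (a : ℕ → ℝ) (ha0 : ∀ k, 0 < a k) (ha1 : ∀ k, a k ≤ 1) (b : ℕ → ℕ) (T : ℕ → ℝ)
    (hT : ∀ n, 0 < T n) (n k : ℕ) (v : ℕ → ℂ) :
    ∫⁻ t in Ioc (0:ℝ) (2*Real.pi), QQ a b T n (k+1) (Function.update v k (exp (t * I)))
      ≤ ENNReal.ofReal (2*Real.pi) * QQ a b T n k v := by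
  have hdd0 : ∀ t : ℝ, ∀ j ≤ k, dd a b n j (Function.update v k (exp (t * I))) = dd a b n j v := by
    intro t j hj
    apply dd_congr
    intro i hi
    rw [Function.update_of_ne (by omega)]
  by_cases h0 : excP a b n k v
  · have h3 : ∀ t : ℝ, QQ a b T n (k+1) (Function.update v k (exp (t * I))) = 0 := by
      intro t
      unfold QQ
      rw [if_pos]
      obtain ⟨j, h1, h2⟩ := h0
      exact ⟨j, by omega, by rw [hdd0 t j h1]; exact h2⟩
    simp_rw [h3]
    simp
  have hQ : QQ a b T n k v = ENNReal.ofReal ((4 + ∑ j ∈ Finset.Ico (b n) (min k (b (n+1))), a j ^ 2 - ‖dd a b n k v‖ ^ 2) / T n) := by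
    unfold QQ; rw [if_neg h0]
  have hlt : ‖dd a b n k v‖ < 1 := by
    by_contra h
    exact h0 ⟨k, le_refl _, not_lt.mp h⟩
  have hle : ∀ t : ℝ, QQ a b T n (k+1) (Function.update v k (exp (t * I))) ≤
      ENNReal.ofReal ((4 + ∑ j ∈ Finset.Ico (b n) (min (k+1) (b (n+1))), a j ^ 2 - ‖dd a b n (k+1) (Function.update v k (exp (t * I)))‖ ^ 2) / T n) := by
    intro t
    unfold QQ
    split_ifs
    · exact bot_le
    · exact le_refl _
  by_cases hk : b n ≤ k ∧ k < b (n+1)
  · have hm1 : min (k+1) (b (n+1)) = k+1 := min_eq_left (by omega)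
    have hm2 : min k (b (n+1)) = k := min_eq_left (by omega)
    have hdd : ∀ t : ℝ, dd a b n (k+1) (Function.update v k (exp (t * I))) = dd a b n k v + (a k : ℂ) * exp (t * I) := by
      intro t
      rw [← hdd0 t k (le_refl _)]
      unfold dd
      rw [hm1, hm2, Finset.sum_Ico_succ_top hk.1, Function.update_self]
    simp_rw [hdd, hm1, Finset.sum_Ico_succ_top hk.1] at hle
    calc ∫⁻ t in Ioc (0:ℝ) (2*Real.pi), QQ a b T n (k+1) (Function.update v k (exp (t * I)))
        ≤ ∫⁻ t in Ioc (0:ℝ) (2*Real.pi), ENNReal.ofReal ((4 + (∑ j ∈ Finset.Ico (b n) k, a j ^ 2 + a k ^ 2) - ‖dd a b n k v + (a k : ℂ) * exp (t * I)‖ ^ 2) / T n) :=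
          lintegral_mono hle
      _ = ENNReal.ofReal (2*Real.pi) * QQ a b T n k v := by
          rw [sq_avg _ _ _ _ (hT n), hQ, hm2]
          · congr 3; ring
          · intro t
            have h1 : ‖dd a b n k v + (a k : ℂ) * exp (t * I)‖ ≤ 2 := by
              calc _ ≤ ‖dd a b n k v‖ + ‖(a k : ℂ) * exp (t * I)‖ := norm_add_le _ _
                _ ≤ 1 + 1 := by
                    rw [norm_mul, Complex.norm_exp_ofReal_mul_I, Complex.norm_real, Real.norm_of_nonneg (ha0 k).le, mul_one]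
                    have := ha1 k
                    linarith
                _ = 2 := by norm_num
            have h2 : 0 ≤ ∑ j ∈ Finset.Ico (b n) k, a j ^ 2 := Finset.sum_nonneg (fun _ _ => sq_nonneg _)
            nlinarith [norm_nonneg (dd a b n k v + (a k : ℂ) * exp (t * I)), sq_nonneg (a k)]
  · have hI : Finset.Ico (b n) (min (k+1) (b (n+1))) = Finset.Ico (b n) (min k (b (n+1))) := by
      ext j
      simp only [Finset.mem_Ico]
      omega
    have hdd : ∀ t : ℝ, dd a b n (k+1) (Function.update v k (exp (t * I))) = dd a b n k v := by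
      intro t
      rw [← hdd0 t k (le_refl _)]
      unfold dd
      rw [hI]
    simp_rw [hdd, hI, ← hQ] at hle
    calc ∫⁻ t in Ioc (0:ℝ) (2*Real.pi), QQ a b T n (k+1) (Function.update v k (exp (t * I)))
        ≤ ∫⁻ t in Ioc (0:ℝ) (2*Real.pi), QQ a b T n k v := lintegral_mono hle
      _ = ENNReal.ofReal (2*Real.pi) * QQ a b T n k v := by
          rw [setLIntegral_const, Real.volume_Ioc, sub_zero, mul_comm]

lemma measurable_pos (a : ℕ → ℝ) (k : ℕ) : Measurable (fun v : ℕ → ℂ => pos a v k) := by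
  unfold pos
  fun_prop

lemma measurable_dd (a : ℕ → ℝ) (b : ℕ → ℕ) (n k : ℕ) : Measurable (fun v : ℕ → ℂ => dd a b n k v) := by
  unfold dd
  fun_prop

lemma measurableSet_hitP (a : ℕ → ℝ) (b : ℕ → ℕ) (n k : ℕ) :
    MeasurableSet {p : (ℕ → ℂ) × ℂ | hitP a b n k p.1 p.2} := by
  unfold hitP
  apply measurableSet_setOf.mpr
  apply Measurable.exists
  intro j
  apply Measurable.and measurable_const
  apply Measurable.and measurable_const
  apply Measurable.and measurable_const
  apply measurableSet_setOf.mp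
  apply measurableSet_lt
  · exact (((measurable_pos a j).comp measurable_fst).sub measurable_snd).norm
  · exact measurable_const

lemma measurableSet_excP (a : ℕ → ℝ) (b : ℕ → ℕ) (n k : ℕ) :
    MeasurableSet {v : (ℕ → ℂ) | excP a b n k v} := by
  unfold excP
  apply measurableSet_setOf.mpr
  apply Measurable.exists
  intro j
  apply Measurable.and measurable_const
  apply measurableSet_setOf.mp
  apply measurableSet_le
  · exact measurable_const
  · exact (measurable_dd a b n j).norm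

lemma measurable_PP (a : ℕ → ℝ) (b : ℕ → ℕ) (n k : ℕ) :
    Measurable (fun p : (ℕ → ℂ) × ℂ => PP a b n k p.1 p.2) := by
  unfold PP
  apply Measurable.ite (measurableSet_hitP a b n k) measurable_const
  split_ifs
  · apply Measurable.const_mul
    apply Measurable.add_const
    apply measurable_psi.comp
    exact ((measurable_pos a k).comp measurable_fst).sub measurable_snd
  · exact measurable_const

lemma measurable_QQ (a : ℕ → ℝ) (b : ℕ → ℕ) (T : ℕ → ℝ) (n k : ℕ) :
    Measurable (fun v : (ℕ → ℂ) => QQ a b T n k v) := by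
  unfold QQ
  apply Measurable.ite (measurableSet_excP a b n k) measurable_const
  apply ENNReal.measurable_ofReal.comp
  apply Measurable.div_const
  apply Measurable.const_sub
  exact (measurable_dd a b n k).norm.pow_const 2

end Pool.Agent.S04334
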