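import Mathlib
import Pool.Agent.H9.T4

set_option autoImplicit false
open Classical MeasureTheory
open Complex Set Filter Topology

namespace Pool.Agent.S04334

lemma exists_seq (W : (ℕ → ℝ) → ℕ → ENNReal)
    (hcongr : ∀ (φ φ' : ℕ → ℝ) k, (∀ j, j < k → φ j = φ' j) → W φ k = W φ' k)
    (hstep : ∀ (φ : ℕ → ℝ) k, ∃ t : ℝ, W (Function.update φ k t) (k+1) ≤ W φ k) :
    ∃ φ : ℕ → ℝ, ∀ k, W φ k ≤ W 0 0 := by
  choose t ht using hstep
  let Φ : ℕ → (ℕ → ℝ) := fun n => Nat.rec 0 (fun k φ => Function.update φ k (t φ k)) n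
  have hΦ : ∀ k, Φ (k+1) = Function.update (Φ k) k (t (Φ k) k) := fun k => rfl
  let φ : ℕ → ℝ := fun k => Φ (k+1) k
  have h1 : ∀ k, ∀ j, j < k → φ j = Φ k j := by
    intro k
    induction k with
    | zero => intro j hj; omega
    | succ k ih =>
      intro j hj
      rcases Nat.lt_or_ge j k with h | h
      · rw [hΦ, Function.update_of_ne (by omega)]
        exact ih j h
      · have : j = k := by omega
        subst this
        rfl
  refine ⟨φ, fun k => ?_⟩
  rw [hcongr φ (Φ k) k (h1 k)]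
  induction k with
  | zero => exact le_refl _
  | succ k ih =>
    rw [hΦ]
    exact (ht _ _).trans ih

noncomputable def GG (a : ℕ → ℝ) (b : ℕ → ℕ) (T : ℕ → ℝ) (k : ℕ) (v : ℕ → ℂ) (w : ℂ) : ENNReal :=
  ∑' n, (PP a b n k v w + QQ a b T n k v)

lemma GG_congr (a : ℕ → ℝ) (b : ℕ → ℕ) (T : ℕ → ℝ) (v v' : ℕ → ℂ) (w : ℂ) (k : ℕ)
    (h : ∀ j, j < k → v j = v' j) : GG a b T k v w = GG a b T k v' w := by
  unfold GG
  apply tsum_congr
  intro n
  rw [PP_congr a b n v v' w k h, QQ_congr a b T n v v' k h]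

lemma measurable_GG (a : ℕ → ℝ) (b : ℕ → ℕ) (T : ℕ → ℝ) (k : ℕ) :
    Measurable (fun p : (ℕ → ℂ) × ℂ => GG a b T k p.1 p.2) := by
  unfold GG
  apply Measurable.tsum
  intro n
  exact (measurable_PP a b n k).add ((measurable_QQ a b T n k).comp measurable_fst)

lemma measurable_upd (v : ℕ → ℂ) (k : ℕ) : Measurable (fun t : ℝ => Function.update v k (exp (t * I))) := by
  rw [measurable_pi_iff]
  intro j
  by_cases hj : j = k
  · subst hj
    simp only [Function.update_self]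
    fun_prop
  · simp only [Function.update_of_ne hj]
    exact measurable_const

lemma GG_step (a : ℕ → ℝ) (ha0 : ∀ k, 0 < a k) (ha1 : ∀ k, a k ≤ 1) (hanti : Antitone a) (b : ℕ → ℕ)
    (hL : ∀ n, 0 < -Real.log (2 * a (b n))) (T : ℕ → ℝ) (hT : ∀ n, 0 < T n) (k : ℕ) (v : ℕ → ℂ) (w : ℂ) :
    ∫⁻ t in Ioc (0:ℝ) (2*Real.pi), GG a b T (k+1) (Function.update v k (exp (t * I))) w
      ≤ ENNReal.ofReal (2*Real.pi) * GG a b T k v w := by
  unfold GG
  have hu2 : Measurable (fun t : ℝ => ((Function.update v k (exp (t * I)), w) : (ℕ → ℂ) × ℂ)) :=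
    Measurable.prodMk (measurable_upd v k) measurable_const
  have hm1 : ∀ n, Measurable (fun t : ℝ => PP a b n (k+1) (Function.update v k (exp (t * I))) w) := by
    intro n
    exact Measurable.comp (g := fun p : (ℕ → ℂ) × ℂ => PP a b n (k+1) p.1 p.2)
      (f := fun t : ℝ => ((Function.update v k (exp (t * I)), w) : (ℕ → ℂ) × ℂ)) (measurable_PP a b n (k+1)) hu2
  have hm2 : ∀ n, Measurable (fun t : ℝ => QQ a b T n (k+1) (Function.update v k (exp (t * I)))) := by
    intro n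
    exact Measurable.comp (g := fun p : (ℕ → ℂ) => QQ a b T n (k+1) p)
      (f := fun t : ℝ => Function.update v k (exp (t * I))) (measurable_QQ a b T n (k+1)) (measurable_upd v k)
  have hts := lintegral_tsum (μ := volume.restrict (Ioc (0:ℝ) (2*Real.pi)))
    (f := fun n (t : ℝ) => PP a b n (k+1) (Function.update v k (exp (t * I))) w + QQ a b T n (k+1) (Function.update v k (exp (t * I))))
    (fun n => ((hm1 n).add (hm2 n)).aemeasurable)
  rw [hts, ← ENNReal.tsum_mul_left]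
  apply ENNReal.tsum_le_tsum
  intro n
  rw [lintegral_add_left (hm1 n), mul_add]
  exact add_le_add (PP_step a ha0 hanti b hL n k v w) (QQ_step a ha0 ha1 b T hT n k v)

noncomputable def VV (q : ℕ → ℕ) (φ : ℕ → ℝ) (θ : ℝ) (j : ℕ) : ℂ := exp (((φ j + q j * θ : ℝ) : ℂ) * I)

lemma VV_update (q : ℕ → ℕ) (φ : ℕ → ℝ) (θ : ℝ) (k : ℕ) (t : ℝ) :
    VV q (Function.update φ k t) θ = Function.update (VV q φ θ) k (exp ((t + q k * θ : ℝ) * I)) := by
  ext j
  by_cases hj : j = k
  · subst hj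
    simp [VV]
  · simp [VV, Function.update_of_ne hj]

lemma exists_phases (a : ℕ → ℝ) (ha0 : ∀ k, 0 < a k) (ha1 : ∀ k, a k ≤ 1) (hanti : Antitone a) (b : ℕ → ℕ)
    (hL : ∀ n, 0 < -Real.log (2 * a (b n))) (T : ℕ → ℝ) (hT : ∀ n, 0 < T n) (q : ℕ → ℕ)
    (ν : Measure (ℝ × ℂ)) [SFinite ν] :
    ∃ φ : ℕ → ℝ, ∀ k, ∫⁻ y, GG a b T k (VV q φ y.1) y.2 ∂ν ≤ ∫⁻ y, GG a b T 0 (VV q 0 y.1) y.2 ∂ν := by
  apply exists_seq (fun φ k => ∫⁻ y, GG a b T k (VV q φ y.1) y.2 ∂ν)
  · intro φ φ' k h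
    apply lintegral_congr
    intro y
    apply GG_congr
    intro j hj
    unfold VV
    rw [h j hj]
  · intro φ k
    have hpi := Real.pi_pos
    have hmeas : Measurable (fun p : ℝ × (ℝ × ℂ) => GG a b T (k+1) (VV q (Function.update φ k p.1) p.2.1) p.2.2) := by
      apply (measurable_GG a b T (k+1)).comp (f := fun p : ℝ × (ℝ × ℂ) => (VV q (Function.update φ k p.1) p.2.1, p.2.2))
      apply Measurable.prodMk
      · rw [measurable_pi_iff]
        intro j
        unfold VV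
        by_cases hj : j = k
        · subst hj
          simp only [Function.update_self]
          fun_prop
        · simp only [Function.update_of_ne hj]
          fun_prop
      · fun_prop
    have h1 : ∫⁻ t in Ioc (0:ℝ) (2*Real.pi), (∫⁻ y, GG a b T (k+1) (VV q (Function.update φ k t) y.1) y.2 ∂ν)
        ≤ ENNReal.ofReal (2*Real.pi) * ∫⁻ y, GG a b T k (VV q φ y.1) y.2 ∂ν := by
      rw [lintegral_lintegral_swap hmeas.aemeasurable]
      rw [← lintegral_const_mul']
      · apply lintegral_mono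
        intro y
        simp only
        simp_rw [VV_update]
        rw [shift_avg (fun e => GG a b T (k+1) (Function.update (VV q φ y.1) k e) y.2) (q k * y.1)]
        exact GG_step a ha0 ha1 hanti b hL T hT k _ _
      · exact ENNReal.ofReal_ne_top
    have h2 : Measurable (fun t : ℝ => ∫⁻ y, GG a b T (k+1) (VV q (Function.update φ k t) y.1) y.2 ∂ν) :=
      hmeas.lintegral_prod_right'
    have h3 : volume (Ioc (0:ℝ) (2*Real.pi)) = ENNReal.ofReal (2*Real.pi) := by
      rw [Real.volume_Ioc, sub_zero]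
    have h4 : ENNReal.ofReal (2*Real.pi) ≠ 0 := by
      simp [hpi]
    obtain ⟨t, _, ht⟩ := exists_le_setLAverage (μ := volume) (s := Ioc (0:ℝ) (2*Real.pi))
      (f := fun t : ℝ => ∫⁻ y, GG a b T (k+1) (VV q (Function.update φ k t) y.1) y.2 ∂ν)
      (by rw [h3]; exact h4) (by rw [h3]; exact ENNReal.ofReal_ne_top) h2.aemeasurable
    refine ⟨t, ht.trans ?_⟩
    rw [setLAverage_eq, h3]
    apply ENNReal.div_le_of_le_mul
    exact h1.trans (le_of_eq (mul_comm _ _))

lemma hit_eventually (a : ℕ → ℝ) (b : ℕ → ℕ) (T : ℕ → ℝ) (v : ℕ → ℂ) (w : ℂ)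
    (h : Filter.liminf (fun k => GG a b T k v w) atTop < 1) (n k : ℕ) : ¬ hitP a b n k v w := by
  intro hh
  have h1 : ∀ᶠ j in atTop, 1 ≤ GG a b T j v w := by
    filter_upwards [eventually_ge_atTop k] with j hj
    have h2 : hitP a b n j v w := by
      obtain ⟨i, g1, g2⟩ := hh
      exact ⟨i, by omega, g2⟩
    have h3 : PP a b n j v w = 1 := by unfold PP; rw [if_pos h2]
    calc (1:ENNReal) = PP a b n j v w := h3.symm
      _ ≤ PP a b n j v w + QQ a b T n j v := le_self_add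
      _ ≤ _ := ENNReal.le_tsum n
  have h2 : 1 ≤ Filter.liminf (fun k => GG a b T k v w) atTop := le_liminf_of_le (by isBoundedDefault) h1
  exact absurd h (not_lt.mpr h2)

lemma exc_eventually (a : ℕ → ℝ) (b : ℕ → ℕ) (T : ℕ → ℝ) (hT : ∀ n, 0 < T n)
    (hT2 : ∀ n, T n = ∑ j ∈ Finset.Ico (b n) (b (n+1)), a j ^ 2) (v : ℕ → ℂ) (w : ℂ)
    (h : Filter.liminf (fun k => GG a b T k v w) atTop < 1) (n : ℕ) : ∃ k, excP a b n k v := by
  by_contra hh
  push Not at hh
  have h1 : ∀ᶠ j in atTop, 1 ≤ GG a b T j v w := by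
    filter_upwards [eventually_ge_atTop (b (n+1))] with j hj
    have h3 : 1 ≤ QQ a b T n j v := by
      unfold QQ
      rw [if_neg (hh j)]
      rw [ENNReal.one_le_ofReal, min_eq_right hj, ← hT2 n, le_div_iff₀ (hT n)]
      have : ‖dd a b n j v‖ < 1 := by
        by_contra h'
        exact hh j ⟨j, le_refl _, not_lt.mp h'⟩
      nlinarith [norm_nonneg (dd a b n j v)]
    calc (1:ENNReal) ≤ QQ a b T n j v := h3
      _ ≤ PP a b n j v w + QQ a b T n j v := le_add_self
      _ ≤ _ := ENNReal.le_tsum n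
  have h2 : 1 ≤ Filter.liminf (fun k => GG a b T k v w) atTop := le_liminf_of_le (by isBoundedDefault) h1
  exact absurd h (not_lt.mpr h2)

end Pool.Agent.S04334
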