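import Mathlib

set_option autoImplicit false
open Classical MeasureTheory
open Set Filter Topology

namespace Pool.Agent.S04334

lemma exists_params : ∃ (a : ℕ → ℝ) (b : ℕ → ℕ) (T : ℕ → ℝ),
    (∀ k, 0 < a k) ∧ (∀ k, a k ≤ 1) ∧ Antitone a ∧ Tendsto a atTop (𝓝 0) ∧ StrictMono b ∧
    (∀ n, 0 < -Real.log (2 * a (b n))) ∧ (∀ n, 0 < T n) ∧
    (∀ n, T n = ∑ j ∈ Finset.Ico (b n) (b (n+1)), a j ^ 2) ∧
    ∑' n, (ENNReal.ofReal ((-Real.log (2 * a (b n)))⁻¹) *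
      (ENNReal.ofReal 3 + ENNReal.ofReal (∑ j ∈ Finset.Ico 0 (b (n+1)), a j ^ 2)) + ENNReal.ofReal (4 / T n)) ≤ ENNReal.ofReal (1/2)
    ∧ (∀ k, ∃ n, b n ≤ k ∧ k < b (n+1)) := by
  obtain ⟨m, hm⟩ : ∃ m : ℕ → ℕ, ∀ n, m n = 2 ^ (2*n+11) := ⟨fun n => 2 ^ (2*n+11), fun n => rfl⟩
  obtain ⟨d, hd⟩ : ∃ d : ℕ → ℝ, ∀ n, d n = (1/2) ^ (m n + 1) := ⟨fun n => (1/2) ^ (m n + 1), fun n => rfl⟩
  obtain ⟨N, hN⟩ : ∃ N : ℕ → ℕ, ∀ n, N n = 2 ^ (n+5) * 4 ^ (m n + 1) := ⟨fun n => 2 ^ (n+5) * 4 ^ (m n + 1), fun n => rfl⟩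
  have hN0 : ∀ n, 0 < N n := by intro n; rw [hN]; positivity
  obtain ⟨b, hb⟩ : ∃ b : ℕ → ℕ, ∀ n, b n = ∑ i ∈ Finset.range n, N i := ⟨fun n => ∑ i ∈ Finset.range n, N i, fun n => rfl⟩
  have hb0 : b 0 = 0 := by rw [hb]; simp
  have hbs : ∀ n, b (n+1) = b n + N n := by intro n; rw [hb, hb, Finset.sum_range_succ]
  have hbm : StrictMono b := strictMono_nat_of_lt_succ (fun n => by rw [hbs]; have := hN0 n; omega)
  have hbn : ∀ n, n ≤ b n := fun n => hbm.le_apply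
  have hmm : Monotone m := by
    intro i j hij
    rw [hm, hm]
    exact Nat.pow_le_pow_right (by norm_num) (by omega)
  have hda : Antitone d := by
    intro i j hij
    rw [hd, hd]
    exact pow_le_pow_of_le_one (by norm_num) (by norm_num) (by have := hmm hij; omega)
  have hd0 : ∀ n, 0 < d n := by intro n; rw [hd]; positivity
  have hd1 : ∀ n, d n ≤ 1 := by intro n; rw [hd]; exact pow_le_one₀ (by norm_num) (by norm_num)
  let blk : ℕ → ℕ := fun k => Nat.findGreatest (fun n => b n ≤ k) k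
  have hblk1 : ∀ k, b (blk k) ≤ k := by
    intro k
    exact Nat.findGreatest_spec (P := fun n => b n ≤ k) (m := 0) (Nat.zero_le k) (by rw [hb0]; exact Nat.zero_le k)
  have hblk2 : ∀ k, k < b (blk k + 1) := by
    intro k
    by_contra h
    push Not at h
    have h1 : blk k + 1 ≤ k := (hbn _).trans h
    have h2 : blk k + 1 ≤ blk k := Nat.le_findGreatest h1 h
    omega
  have hblk3 : ∀ n k, b n ≤ k → k < b (n+1) → blk k = n := by
    intro n k h1 h2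
    have h3 := hbm.lt_iff_lt.mp (lt_of_le_of_lt (hblk1 k) h2)
    have h4 := hbm.lt_iff_lt.mp (lt_of_le_of_lt h1 (hblk2 k))
    omega
  have hblkm : Monotone blk := by
    intro i j hij
    have h3 := hbm.lt_iff_lt.mp (lt_of_le_of_lt ((hblk1 i).trans hij) (hblk2 j))
    omega
  have hblkn : ∀ n, blk (b n) = n := fun n => hblk3 n (b n) (le_refl _) (hbm (by omega))
  have hblkt : Tendsto blk atTop atTop := by
    rw [tendsto_atTop_atTop]
    intro n
    refine ⟨b n, fun k hk => ?_⟩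
    rw [← hblkn n]
    exact hblkm hk
  have hdt : Tendsto d atTop (𝓝 0) := by
    have h1 : ∀ n, d n ≤ (1/2) ^ n := by
      intro n
      rw [hd]
      apply pow_le_pow_of_le_one (by norm_num) (by norm_num)
      rw [hm]
      have : 2*n+11 < 2 ^ (2*n+11) := Nat.lt_two_pow_self
      omega
    exact squeeze_zero (fun n => (hd0 n).le) h1 (tendsto_pow_atTop_nhds_zero_of_lt_one (by norm_num) (by norm_num))
  let a : ℕ → ℝ := fun k => d (blk k)
  have hab : ∀ n, a (b n) = d n := by intro n; simp only [a, hblkn]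
  have hTn : ∀ n, ∑ j ∈ Finset.Ico (b n) (b (n+1)), a j ^ 2 = 2 ^ (n+5) := by
    intro n
    have h1 : ∀ j ∈ Finset.Ico (b n) (b (n+1)), a j ^ 2 = (d n)^2 := by
      intro j hj
      rw [Finset.mem_Ico] at hj
      simp only [a]
      rw [hblk3 n j hj.1 hj.2]
    rw [Finset.sum_congr rfl h1, Finset.sum_const, Nat.card_Ico, hbs, Nat.add_sub_cancel_left, hN, hd, nsmul_eq_mul]
    push_cast
    rw [← pow_mul, mul_comm (m n + 1) 2, pow_mul, show ((1/2:ℝ)^2) = 1/4 by norm_num, mul_assoc, ← mul_pow]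
    norm_num
  have hV : ∀ n, ∑ j ∈ Finset.Ico 0 (b n), a j ^ 2 ≤ 2 ^ (n+5) := by
    intro n
    induction n with
    | zero => rw [hb0]; simp
    | succ n ih =>
      rw [← Finset.sum_Ico_consecutive _ (Nat.zero_le (b n)) (hbm.monotone (Nat.le_succ n)), hTn]
      calc _ ≤ (2:ℝ) ^ (n+5) + 2 ^ (n+5) := by gcongr
        _ = _ := by ring
  have hlog : ∀ n, -Real.log (2 * a (b n)) = 2 ^ (2*n+11) * Real.log 2 := by
    intro n
    rw [hab, hd, pow_succ, show 2 * ((1/2:ℝ) ^ (m n) * (1/2)) = (1/2) ^ (m n) by ring, Real.log_pow, one_div, Real.log_inv, hm]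
    push_cast
    ring
  have hlog2 : ∀ n, (2:ℝ) ^ (2*n+10) ≤ -Real.log (2 * a (b n)) := by
    intro n
    rw [hlog]
    have h1 : (1/2:ℝ) ≤ Real.log 2 := by have := Real.log_two_gt_d9; linarith
    have h2 : (0:ℝ) < 2 ^ (2*n+11) := by positivity
    calc (2:ℝ) ^ (2*n+10) = 2 ^ (2*n+11) * (1/2) := by ring
      _ ≤ _ := by gcongr
  have hLpos : ∀ n, 0 < -Real.log (2 * a (b n)) := fun n => lt_of_lt_of_le (by positivity) (hlog2 n)
  refine ⟨a, b, fun n => 2 ^ (n+5), fun k => hd0 _, fun k => hd1 _, fun i j hij => hda (hblkm hij), hdt.comp hblkt, hbm,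
    hLpos, fun n => by positivity, fun n => (hTn n).symm, ?_, fun k => ⟨blk k, hblk1 k, hblk2 k⟩⟩
  have hterm : ∀ n : ℕ, (ENNReal.ofReal ((-Real.log (2 * a (b n)))⁻¹) *
      (ENNReal.ofReal 3 + ENNReal.ofReal (∑ j ∈ Finset.Ico 0 (b (n+1)), a j ^ 2)) + ENNReal.ofReal (4 / 2 ^ (n+5)))
      ≤ ENNReal.ofReal ((1/4) * (1/2) ^ n) := by
    intro n
    have hs0 : 0 ≤ ∑ j ∈ Finset.Ico 0 (b (n+1)), a j ^ 2 := Finset.sum_nonneg (fun _ _ => sq_nonneg _)
    rw [← ENNReal.ofReal_add (by norm_num) hs0, ← ENNReal.ofReal_mul (inv_nonneg.mpr (hLpos n).le),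
      ← ENNReal.ofReal_add (mul_nonneg (inv_nonneg.mpr (hLpos n).le) (by linarith)) (by positivity)]
    apply ENNReal.ofReal_le_ofReal
    have h1 : (-Real.log (2 * a (b n)))⁻¹ ≤ ((2:ℝ) ^ (2*n+10))⁻¹ := inv_anti₀ (by positivity) (hlog2 n)
    have h2 : 3 + ∑ j ∈ Finset.Ico 0 (b (n+1)), a j ^ 2 ≤ 2 ^ (n+7) := by
      have := hV (n+1)
      have h3 : (1:ℝ) ≤ 2 ^ n := one_le_pow₀ (by norm_num)
      calc 3 + ∑ j ∈ Finset.Ico 0 (b (n+1)), a j ^ 2 ≤ 3 * 2 ^ n + 2 ^ (n+1+5) := by linarith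
        _ = 67 * 2 ^ n := by ring
        _ ≤ 128 * 2 ^ n := by nlinarith
        _ = 2 ^ (n+7) := by ring
    calc (-Real.log (2 * a (b n)))⁻¹ * (3 + ∑ j ∈ Finset.Ico 0 (b (n+1)), a j ^ 2) + 4 / 2 ^ (n+5)
        ≤ ((2:ℝ) ^ (2*n+10))⁻¹ * 2 ^ (n+7) + 4 / 2 ^ (n+5) := by
          gcongr
      _ = (1/4) * (1/2) ^ n := by
          rw [one_div_pow]
          have h3 : (2:ℝ) ^ n ≠ 0 := by positivity
          rw [show (2:ℝ) ^ (2*n+10) = 2^n * 2^n * 1024 by ring, show (2:ℝ) ^ (n+7) = 2^n * 128 by ring,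
            show (2:ℝ) ^ (n+5) = 2^n * 32 by ring]
          field_simp
          norm_num
  calc _ ≤ ∑' n : ℕ, ENNReal.ofReal ((1/4) * (1/2) ^ n) := ENNReal.tsum_le_tsum hterm
    _ = ENNReal.ofReal (∑' n : ℕ, (1/4:ℝ) * (1/2) ^ n) := by
        rw [ENNReal.ofReal_tsum_of_nonneg (fun n => by positivity)]
        exact (summable_geometric_two).mul_left _
    _ = ENNReal.ofReal (1/2) := by
        rw [tsum_mul_left, tsum_geometric_two]; norm_num

end Pool.Agent.S04334
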