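import Mathlib
import Pool.Agent.H9.T2
import Pool.Agent.H9.T3
import Pool.Agent.H9.T5
import Pool.Agent.H9.T6

set_option autoImplicit false
open Classical MeasureTheory
open Complex Set Filter Topology

namespace Pool.Agent.S04334

lemma psi_le (w : ℂ) (hw : w ∈ Metric.closedBall (1:ℂ) (1/2)) : psi (0 - w) ≤ ENNReal.ofReal 3 := by
  rw [mem_closedBall_iff_norm] at hw
  have h1 : 1/2 ≤ ‖w‖ := by
    have : ‖(1:ℂ)‖ ≤ ‖w‖ + ‖w - 1‖ := by
      calc ‖(1:ℂ)‖ = ‖w - (w - 1)‖ := by congr 1; ring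
        _ ≤ _ := norm_sub_le _ _
    rw [norm_one] at this
    linarith
  have h2 : ‖w‖ ≤ 3/2 := by
    calc ‖w‖ = ‖1 + (w - 1)‖ := by congr 1; ring
      _ ≤ ‖(1:ℂ)‖ + ‖w - 1‖ := norm_add_le _ _
      _ ≤ 3/2 := by rw [norm_one]; linarith
  have h0 : w ≠ 0 := by
    intro h; rw [h, norm_zero] at h1; norm_num at h1
  unfold psi
  rw [if_neg (by simpa using h0)]
  apply ENNReal.ofReal_le_ofReal
  rw [zero_sub, norm_neg]
  have h3 : Real.log (1/2) ≤ Real.log ‖w‖ := Real.log_le_log (by norm_num) h1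
  rw [one_div, Real.log_inv] at h3
  have h4 := Real.log_two_lt_d9
  nlinarith

lemma GG_zero (a : ℕ → ℝ) (b : ℕ → ℕ) (T : ℕ → ℝ) (hb : StrictMono b) (v : ℕ → ℂ) (w : ℂ) :
    GG a b T 0 v w = ∑' n, (ENNReal.ofReal ((-Real.log (2 * a (b n)))⁻¹) *
      (psi (0 - w) + ENNReal.ofReal (∑ j ∈ Finset.Ico 0 (b (n+1)), a j ^ 2)) + ENNReal.ofReal (4 / T n)) := by
  unfold GG
  apply tsum_congr
  intro n
  congr 1
  · unfold PP
    rw [if_neg (by rintro ⟨j, h, _⟩; omega), if_pos (lt_of_le_of_lt (Nat.zero_le _) (hb (Nat.lt_succ_self n)))]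
    simp [pos]
  · unfold QQ
    rw [if_neg]
    · simp [dd]
    · rintro ⟨j, h1, h2⟩
      have : j = 0 := by omega
      subst this
      simp [dd] at h2
      linarith

lemma VV_eq (a : ℕ → ℝ) (q : ℕ → ℕ) (φ : ℕ → ℝ) (θ : ℝ) (m : ℕ) :
    ∑ k ∈ Finset.range m, (a k : ℂ) * exp (φ k * I) * (exp (θ * I)) ^ (q k) = pos a (VV q φ θ) m := by
  unfold pos VV
  apply Finset.sum_congr rfl
  intro k _
  rw [← Complex.exp_nat_mul, mul_assoc, ← Complex.exp_add]
  congr 2
  push_cast
  ring

theorem main_result :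
    ¬ (∀ f : ℂ → ℂ, DifferentiableOn ℂ f (Metric.ball (0 : ℂ) 1) →
      ∀ᵐ θ : ℝ ∂volume,
        (∃ L : ℂ, ∀ M : ℝ, 1 < M →
          Filter.Tendsto f
            (nhdsWithin (Complex.exp ((θ : ℂ) * Complex.I))
              {z : ℂ | ‖z‖ < 1 ∧ ‖Complex.exp ((θ : ℂ) * Complex.I) - z‖ < M * (1 - ‖z‖)})
            (nhds L)) ∨
        (∀ M : ℝ, 1 < M → ∀ δ : ℝ, 0 < δ →
          ∀ K : Set ℂ, IsCompact K →
            K ⊆ (f '' {z : ℂ | ‖z‖ < 1 ∧
                  ‖Complex.exp ((θ : ℂ) * Complex.I) - z‖ < M * (1 - ‖z‖) ∧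
                  ‖z - Complex.exp ((θ : ℂ) * Complex.I)‖ < δ})ᶜ →
            ∀ μ : Measure ℂ, IsFiniteMeasure μ → μ Kᶜ = 0 → μ ≠ 0 →
              ∫⁻ z, ∫⁻ w, (if z = w then (⊤ : ENNReal)
                  else ENNReal.ofReal (-Real.log (dist z w))) ∂μ ∂μ = ⊤)) := by
  intro H
  obtain ⟨a, b, T, ha0, ha1, hanti, hat, hbm, hL, hT, hT2, hsum, hcov⟩ := exists_params
  obtain ⟨q, hq⟩ := exists_q a ha0 ha1
  have hq1 : ∀ m, m + 1 ≤ q m := fun m => (hq m).1
  have hq2 : ∀ m, (1 - RR a q m) ^ (q m) ≤ a m * (1/2) ^ (m+2) := fun m => (hq m).2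
  set Q : Set ℂ := Metric.closedBall (1:ℂ) (1/2) with hQ
  have hQc : IsCompact Q := isCompact_closedBall _ _
  haveI : IsFiniteMeasure ((volume : Measure ℂ).restrict Q) := ⟨by
    rw [Measure.restrict_apply_univ]; exact hQc.measure_lt_top⟩
  set μθ := (volume : Measure ℝ).restrict (Ioc (0:ℝ) (2*Real.pi)) with hμθ
  set ν := μθ.prod ((volume : Measure ℂ).restrict Q) with hν
  obtain ⟨φ, hφ⟩ := exists_phases a ha0 ha1 hanti b hL T hT q ν
  have hpi := Real.pi_pos
  have hν1 : ν univ = ENNReal.ofReal (2*Real.pi) * volume Q := by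
    rw [hν, ← univ_prod_univ, Measure.prod_prod, Measure.restrict_apply_univ, Measure.restrict_apply_univ, Real.volume_Ioc, sub_zero]
  have hQpos : volume Q ≠ 0 := by
    have : 0 < volume Q := lt_of_lt_of_le (Metric.measure_ball_pos volume (1:ℂ) (by norm_num : (0:ℝ) < 1/2))
      (measure_mono Metric.ball_subset_closedBall)
    exact this.ne'
  have hν0 : ν univ ≠ 0 := by
    rw [hν1]
    exact mul_ne_zero (by simp [hpi]) hQpos
  have hνt : ν univ ≠ ⊤ := by
    rw [hν1]
    exact ENNReal.mul_ne_top ENNReal.ofReal_ne_top hQc.measure_lt_top.ne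
  -- initial bound
  have hW0 : ∫⁻ y, GG a b T 0 (VV q 0 y.1) y.2 ∂ν ≤ ENNReal.ofReal (1/2) * ν univ := by
    have h1 : ∀ᵐ y ∂ν, y.2 ∈ Q := by
      have h2 : ∀ᵐ w ∂((volume : Measure ℂ).restrict Q), w ∈ Q := ae_restrict_mem hQc.measurableSet
      exact Measure.quasiMeasurePreserving_snd.ae h2
    calc ∫⁻ y, GG a b T 0 (VV q 0 y.1) y.2 ∂ν ≤ ∫⁻ y, ENNReal.ofReal (1/2) ∂ν := by
          apply lintegral_mono_ae
          filter_upwards [h1] with y hy
          rw [GG_zero a b T hbm]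
          refine le_trans (ENNReal.tsum_le_tsum (fun n => ?_)) hsum
          gcongr
          exact psi_le _ hy
      _ = _ := lintegral_const _
  -- Fatou
  set h : ℝ × ℂ → ENNReal := fun y => Filter.liminf (fun k => GG a b T k (VV q φ y.1) y.2) atTop with hh
  have hVm : Measurable (fun y : ℝ × ℂ => ((VV q φ y.1, y.2) : (ℕ → ℂ) × ℂ)) := by
    apply Measurable.prodMk
    · rw [measurable_pi_iff]
      intro j
      unfold VV
      fun_prop
    · fun_prop
  have hGm : ∀ k, Measurable (fun y : ℝ × ℂ => GG a b T k (VV q φ y.1) y.2) := by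
    intro k
    exact Measurable.comp (g := fun p : (ℕ → ℂ) × ℂ => GG a b T k p.1 p.2)
      (f := fun y : ℝ × ℂ => ((VV q φ y.1, y.2) : (ℕ → ℂ) × ℂ)) (measurable_GG a b T k) hVm
  have hhm : Measurable h := Measurable.liminf hGm
  have hFatou : ∫⁻ y, h y ∂ν ≤ ENNReal.ofReal (1/2) * ν univ := by
    calc ∫⁻ y, h y ∂ν ≤ Filter.liminf (fun k => ∫⁻ y, GG a b T k (VV q φ y.1) y.2 ∂ν) atTop :=
          lintegral_liminf_le hGm
      _ ≤ Filter.liminf (fun _ : ℕ => ENNReal.ofReal (1/2) * ν univ) atTop :=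
          liminf_le_liminf (Eventually.of_forall (fun k => (hφ k).trans hW0))
      _ = _ := by simp
  have hbad : ν {y | 1 ≤ h y} ≤ ENNReal.ofReal (1/2) * ν univ := by
    have := mul_meas_ge_le_lintegral (μ := ν) hhm 1
    rw [one_mul] at this
    exact this.trans hFatou
  set good : Set (ℝ × ℂ) := {y | h y < 1} with hgood
  have hgm : MeasurableSet good := measurableSet_lt hhm measurable_const
  have hgoodpos : ν good ≠ 0 := by
    intro h0
    have h1 : ν univ ≤ ν {y | 1 ≤ h y} + ν good := by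
      refine le_trans (measure_mono ?_) (measure_union_le _ _)
      intro y _
      rcases le_or_gt 1 (h y) with h2 | h2
      · exact Or.inl h2
      · exact Or.inr h2
    rw [h0, add_zero] at h1
    have h2 := h1.trans hbad
    have h3 : ENNReal.ofReal (1/2) * ν univ < 1 * ν univ := by
      apply ENNReal.mul_lt_mul_left hν0 hνt
      rw [ENNReal.ofReal_lt_one]; norm_num
    rw [one_mul] at h3
    exact absurd h2 (not_le.mpr h3)
  apply hgoodpos
  rw [hν, Measure.measure_prod_null hgm]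
  -- the function
  set u : ℕ → ℂ := fun k => exp (φ k * I) with hu
  have hu1 : ∀ k, ‖u k‖ = 1 := fun k => Complex.norm_exp_ofReal_mul_I _
  have hH := H (ff a q u) (ff_diff a ha0 ha1 q hq1 u hu1)
  apply ae_restrict_of_ae
  filter_upwards [hH] with θ hθ
  by_contra hne
  simp only [Pi.zero_apply] at hne
  set ζ : ℂ := exp ((θ:ℂ) * I) with hζ
  have hζ1 : ‖ζ‖ = 1 := Complex.norm_exp_ofReal_mul_I _
  set v : ℕ → ℂ := VV q φ θ with hv
  have hcont : ∀ (m : ℕ) (z : ℂ), ‖z‖ < 1 → ‖ζ - z‖ ≤ 2 * (1 - ‖z‖) → RR a q (m+1) ≤ 1 - ‖z‖ → 1 - ‖z‖ ≤ RR a q m →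
      ‖ff a q u z - pos a v m‖ < 2 * a m := by
    intro m z h1 h2 h3 h4
    have := contain a ha0 ha1 hanti q hq1 hq2 u hu1 m ζ z hζ1 h1 h2 h3 h4
    rw [hu, hζ, VV_eq] at this
    exact this
  rcases hθ with hA | hB
  · -- no angular limit
    obtain ⟨L, hLim⟩ := hA
    have hLim2 := hLim 2 (by norm_num)
    have hnonempty : (Prod.mk θ ⁻¹' good).Nonempty := by
      by_contra hemp
      rw [not_nonempty_iff_eq_empty] at hemp
      rw [hemp, measure_empty] at hne
      exact hne rfl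
    obtain ⟨w, hw⟩ := hnonempty
    have hexc : ∀ n, ∃ k, excP a b n k v := fun n => exc_eventually a b T hT hT2 v w hw n
    have hR0 := RR_pos a ha0 q
    have hRl := RR_le a ha0 ha1 q
    have hzt : Tendsto (fun m => ((1 - RR a q m : ℝ) : ℂ) * ζ) atTop
        (nhdsWithin ζ {z : ℂ | ‖z‖ < 1 ∧ ‖ζ - z‖ < 2 * (1 - ‖z‖)}) := by
      rw [tendsto_nhdsWithin_iff]
      constructor
      · have h1 : Tendsto (fun m => ((1 - RR a q m : ℝ) : ℂ) * ζ) atTop (𝓝 (((1 - 0 : ℝ) : ℂ) * ζ)) := by
          apply Tendsto.mul_const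
          apply (Complex.continuous_ofReal.tendsto _).comp
          exact tendsto_const_nhds.sub (RR_tendsto a ha0 ha1 q hq1)
        simpa using h1
      · apply Eventually.of_forall
        intro m
        have h0 := hR0 m
        have h1 := hRl m
        have h2 : ‖((1 - RR a q m : ℝ) : ℂ) * ζ‖ = 1 - RR a q m := by
          rw [norm_mul, hζ1, Complex.norm_real, Real.norm_of_nonneg (by linarith), mul_one]
        have h3 : ‖ζ - ((1 - RR a q m : ℝ) : ℂ) * ζ‖ = RR a q m := by
          have : ζ - ((1 - RR a q m : ℝ) : ℂ) * ζ = (RR a q m : ℂ) * ζ := by push_cast; ring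
          rw [this, norm_mul, hζ1, Complex.norm_real, Real.norm_of_nonneg h0.le, mul_one]
        constructor
        · rw [h2]; linarith
        · rw [h2, h3]; linarith
    have hft := hLim2.comp hzt
    have hxt : Tendsto (fun m => pos a v m) atTop (𝓝 L) := by
      have h1 : Tendsto (fun m => ff a q u (((1 - RR a q m : ℝ) : ℂ) * ζ) - pos a v m) atTop (𝓝 0) := by
        apply squeeze_zero_norm (a := fun m => 2 * a m)
        · intro m
          have h0 := hR0 m
          have h1 := hRl m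
          have h2 : ‖((1 - RR a q m : ℝ) : ℂ) * ζ‖ = 1 - RR a q m := by
            rw [norm_mul, hζ1, Complex.norm_real, Real.norm_of_nonneg (by linarith), mul_one]
          have h3 : ‖ζ - ((1 - RR a q m : ℝ) : ℂ) * ζ‖ = RR a q m := by
            have : ζ - ((1 - RR a q m : ℝ) : ℂ) * ζ = (RR a q m : ℂ) * ζ := by push_cast; ring
            rw [this, norm_mul, hζ1, Complex.norm_real, Real.norm_of_nonneg h0.le, mul_one]
          apply (hcont m _ _ _ _ _).le
          · rw [h2]; linarith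
          · rw [h2, h3]; linarith
          · rw [h2]
            have := RR_anti a ha0 hanti q (Nat.le_succ m)
            linarith
          · rw [h2]; linarith
        · simpa using hat.const_mul 2
      have h2 := hft.sub h1
      simpa using h2
    have hcau := hxt.cauchySeq
    rw [Metric.cauchySeq_iff] at hcau
    obtain ⟨N, hN⟩ := hcau 1 one_pos
    obtain ⟨k, j, hj1, hj2⟩ := hexc N
    by_cases hjb : b N ≤ min j (b (N+1))
    · have h1 : dd a b N j v = pos a v (min j (b (N+1))) - pos a v (b N) := by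
        unfold dd pos
        rw [Finset.sum_Ico_eq_sub _ hjb]
      rw [h1, ← dist_eq_norm] at hj2
      have hNb : N ≤ b N := hbm.le_apply
      have := hN (min j (b (N+1))) (by omega) (b N) (by omega)
      linarith
    · have h1 : dd a b N j v = 0 := by
        unfold dd
        rw [Finset.Ico_eq_empty (by omega), Finset.sum_empty]
      rw [h1, norm_zero] at hj2
      linarith
  · -- complement of positive area
    set K : Set ℂ := Q ∩ ⋂ j, {w | 2 * a j ≤ ‖pos a v j - w‖} with hK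
    have hKc : IsCompact K := by
      apply hQc.inter_right
      apply isClosed_iInter
      intro j
      exact isClosed_le continuous_const (by fun_prop)
    have hsub : Prod.mk θ ⁻¹' good ∩ Q ⊆ K := by
      rintro w ⟨hw, hwQ⟩
      refine ⟨hwQ, mem_iInter.mpr (fun j => ?_)⟩
      obtain ⟨n, hn1, hn2⟩ := hcov j
      have := hit_eventually a b T v w hw n (j+1)
      by_contra hlt
      exact this ⟨j, by omega, hn1, hn2, not_le.mp hlt⟩
    have hKpos : volume K ≠ 0 := by
      intro h0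
      apply hne
      rw [Measure.restrict_apply (measurable_prodMk_left hgm)]
      exact measure_mono_null hsub h0
    have hR0 := RR_pos a ha0 q 0
    have hEn := hB 2 (by norm_num) (RR a q 0) hR0 K hKc (by
      intro w hw hw2
      obtain ⟨z, ⟨hz1, hz2, hz3⟩, hz4⟩ := hw2
      have h1 : 0 < 1 - ‖z‖ := by linarith
      have h2 : 1 - ‖z‖ ≤ ‖z - ζ‖ := by
        calc 1 - ‖z‖ = ‖ζ‖ - ‖z‖ := by rw [hζ1]
          _ ≤ ‖ζ - z‖ := norm_sub_norm_le _ _
          _ = _ := norm_sub_rev _ _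
      have h3 : ∃ m, RR a q (m+1) ≤ 1 - ‖z‖ := by
        have ht := (RR_tendsto a ha0 ha1 q hq1).comp (tendsto_add_atTop_nat 1)
        obtain ⟨m, hm⟩ := (ht.eventually (gt_mem_nhds h1)).exists
        exact ⟨m, hm.le⟩
      have h4 := Nat.find_spec h3
      have h5 : 1 - ‖z‖ ≤ RR a q (Nat.find h3) := by
        rcases Nat.eq_zero_or_pos (Nat.find h3) with h0 | h0
        · rw [h0]; linarith
        · have := Nat.find_min h3 (show Nat.find h3 - 1 < Nat.find h3 by omega)
          rw [Nat.sub_add_cancel h0] at this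
          linarith
      have h6 := hcont (Nat.find h3) z hz1 hz2.le h4 h5
      have h7 := mem_iInter.mp hw.2 (Nat.find h3)
      simp only [mem_setOf_eq] at h7
      rw [hz4, norm_sub_rev] at h6
      linarith) (volume.restrict K) ⟨by rw [Measure.restrict_apply_univ]; exact hKc.measure_lt_top⟩
      (by rw [Measure.restrict_apply hKc.measurableSet.compl]; simp)
      (by rw [Ne, Measure.restrict_eq_zero]; exact hKpos)
    exact energy_finite K hKc hEn

end Pool.Agent.S04334
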