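import Mathlib

set_option autoImplicit false
open MeasureTheory Set Filter Topology

namespace Pool.Agent.S04335

section grad
variable {E : Type*} [NormedAddCommGroup E] [InnerProductSpace ℝ E]

/-- symmetric difference quotient -/
noncomputable def AA (f : E → ℝ) (θ : E) (r : ℝ) (y : E) : ℝ := (f (y + r • θ) - f (y - r • θ)) / (2 * r)

lemma AA_le (f : E → ℝ) (K : ℝ) (hK : ∀ x h : E, |f (x + h) + f (x - h) - 2 * f x| ≤ K * ‖h‖ ^ 2)
    (θ : E) (hθ : ‖θ‖ = 1) (p p' : E) (r : ℝ) (hr : 0 < r) (hpr : ‖p' - p‖ = 2 * r) :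
    AA f θ r p' - AA f θ r p ≤ 2 * K * r := by
  set m : E := (1/2:ℝ) • (p + p') with hm
  set k : E := (1/2:ℝ) • (p' - p) with hk
  have hkn : ‖k‖ = r := by rw [hk, norm_smul, hpr]; norm_num; ring
  have e1 : p' + r • θ = m + (k + r • θ) := by rw [hm, hk]; module
  have e2 : p - r • θ = m - (k + r • θ) := by rw [hm, hk]; module
  have e3 : p' - r • θ = m + (k - r • θ) := by rw [hm, hk]; module
  have e4 : p + r • θ = m - (k - r • θ) := by rw [hm, hk]; module
  have h1 := abs_le.mp (hK m (k + r • θ))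
  have h2 := abs_le.mp (hK m (k - r • θ))
  have hpar := parallelogram_law_with_norm ℝ k (r • θ)
  have hrθ : ‖r • θ‖ = r := by rw [norm_smul, hθ, Real.norm_of_nonneg hr.le, mul_one]
  rw [hkn, hrθ] at hpar
  have h3 : f (p' + r • θ) - f (p' - r • θ) - (f (p + r • θ) - f (p - r • θ)) ≤ 4 * K * r ^ 2 := by
    have h4 : K * ‖k + r • θ‖ ^ 2 + K * ‖k - r • θ‖ ^ 2 = 4 * K * r ^ 2 := by rw [← mul_add, hpar]; ring
    rw [e1, e2, e3, e4]
    linarith [h1.2, h2.1]
  unfold AA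
  rw [← sub_div, div_le_iff₀ (by positivity)]
  calc _ ≤ 4 * K * r ^ 2 := h3
    _ = _ := by ring

lemma AA_chain (f : E → ℝ) (K : ℝ) (hK : ∀ x h : E, |f (x + h) + f (x - h) - 2 * f x| ≤ K * ‖h‖ ^ 2)
    (θ : E) (hθ : ‖θ‖ = 1) (y z : E) (hyz : y ≠ z) (N : ℕ) (hN : 0 < N) :
    AA f θ (‖y - z‖ / (2 * N)) y - AA f θ (‖y - z‖ / (2 * N)) z ≤ K * ‖y - z‖ := by
  have hNr : (0:ℝ) < N := by exact_mod_cast hN
  have hv : 0 < ‖y - z‖ := norm_pos_iff.mpr (sub_ne_zero.mpr hyz)
  set r : ℝ := ‖y - z‖ / (2 * N) with hr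
  have hr0 : 0 < r := by positivity
  set p : ℕ → E := fun j => z + ((j:ℝ) / N) • (y - z) with hp
  have h1 : ∀ j, AA f θ r (p (j+1)) - AA f θ r (p j) ≤ 2 * K * r := by
    intro j
    apply AA_le f K hK θ hθ _ _ r hr0
    have : p (j+1) - p j = (1 / (N:ℝ)) • (y - z) := by
      simp only [hp]
      push_cast
      rw [add_sub_add_left_eq_sub, ← sub_smul]
      congr 1
      field_simp
      ring
    rw [this, norm_smul, hr, Real.norm_of_nonneg (by positivity)]
    field_simp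
  have h2 := Finset.sum_range_sub (fun j => AA f θ r (p j)) N
  have h3 : p N = y := by
    simp only [hp]
    rw [div_self hNr.ne', one_smul]; abel
  have h4 : p 0 = z := by simp [hp]
  rw [h3, h4] at h2
  rw [← h2]
  calc ∑ i ∈ Finset.range N, (AA f θ r (p (i + 1)) - AA f θ r (p i)) ≤ ∑ i ∈ Finset.range N, 2 * K * r :=
        Finset.sum_le_sum (fun i _ => h1 i)
    _ = K * ‖y - z‖ := by
        rw [Finset.sum_const, Finset.card_range, nsmul_eq_mul, hr]
        field_simp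

lemma AA_tendsto (f : E → ℝ) (hf : Differentiable ℝ f) (θ y : E) (u : ℕ → ℝ) (hu0 : ∀ᶠ n in atTop, u n ≠ 0)
    (hu : Tendsto u atTop (𝓝 0)) : Tendsto (fun n => AA f θ (u n) y) atTop (𝓝 (fderiv ℝ f y θ)) := by
  have h1 : HasDerivAt (fun s : ℝ => f (y + s • θ)) (fderiv ℝ f y θ) 0 := by
    have hl : HasDerivAt (fun s : ℝ => y + s • θ) θ 0 := by
      simpa using ((hasDerivAt_id (0:ℝ)).smul_const θ).const_add y
    have hfy : HasFDerivAt f (fderiv ℝ f y) (y + (0:ℝ) • θ) := by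
      simpa using (hf y).hasFDerivAt
    exact hfy.comp_hasDerivAt (0:ℝ) hl
  rw [hasDerivAt_iff_tendsto_slope_zero] at h1
  have hu1 : Tendsto u atTop (𝓝[≠] 0) := tendsto_nhdsWithin_iff.mpr ⟨hu, hu0⟩
  have hu2 : Tendsto (fun n => -u n) atTop (𝓝[≠] 0) := by
    refine tendsto_nhdsWithin_iff.mpr ⟨by simpa using hu.neg, ?_⟩
    filter_upwards [hu0] with n hn
    simpa using hn
  have h2 := h1.comp hu1
  have h3 := h1.comp hu2
  have h4 := (h2.add h3).const_mul (1/2:ℝ)
  have h5 : (1/2:ℝ) * (fderiv ℝ f y θ + fderiv ℝ f y θ) = fderiv ℝ f y θ := by ring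
  rw [h5] at h4
  refine h4.congr' ?_
  filter_upwards [hu0] with n hn
  have e : y + (-u n) • θ = y - u n • θ := by rw [neg_smul, sub_eq_add_neg]
  simp only [Function.comp, zero_add, zero_smul, add_zero, smul_eq_mul, AA, e]
  field_simp
  ring

lemma fderiv_lip (f : E → ℝ) (hf : Differentiable ℝ f) (K : ℝ)
    (hK : ∀ x h : E, |f (x + h) + f (x - h) - 2 * f x| ≤ K * ‖h‖ ^ 2)
    (θ : E) (hθ : ‖θ‖ = 1) (y z : E) : |fderiv ℝ f y θ - fderiv ℝ f z θ| ≤ K * dist y z := by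
  by_cases hyz : y = z
  · subst hyz; simp
  have key : ∀ y z : E, y ≠ z → fderiv ℝ f y θ - fderiv ℝ f z θ ≤ K * dist y z := by
    intro y z hyz
    have hv : 0 < ‖y - z‖ := norm_pos_iff.mpr (sub_ne_zero.mpr hyz)
    set u : ℕ → ℝ := fun n => ‖y - z‖ / (2 * ((n:ℕ) : ℝ)) with hu
    have hu0 : ∀ᶠ n in atTop, u n ≠ 0 := by
      filter_upwards [eventually_gt_atTop 0] with n hn
      have : (0:ℝ) < n := by exact_mod_cast hn
      simp only [hu]
      positivity
    have hut : Tendsto u atTop (𝓝 0) := by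
      apply Tendsto.const_div_atTop
      exact tendsto_natCast_atTop_atTop.const_mul_atTop (by norm_num)
    have h1 := (AA_tendsto f hf θ y u hu0 hut).sub (AA_tendsto f hf θ z u hu0 hut)
    apply le_of_tendsto h1
    filter_upwards [eventually_gt_atTop 0] with n hn
    have := AA_chain f K hK θ hθ y z hyz n hn
    rw [dist_eq_norm]
    exact this
  rw [abs_le]
  constructor
  · have := key z y (Ne.symm hyz)
    rw [dist_comm] at this
    linarith
  · exact key y z hyz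

end grad

end Pool.Agent.S04335
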