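import Mathlib

set_option autoImplicit false
open MeasureTheory Set Filter Topology

namespace Pool.Agent.S04335

section supconv
variable {E : Type*} [NormedAddCommGroup E] [InnerProductSpace ℝ E] [FiniteDimensional ℝ E]

noncomputable def mm (P : Set E) (δ : ℝ) (y : E) : ℝ := min (Metric.infDist y P) (2 * Real.sqrt δ)

/-- truncated squared distance, `δ` plays the role of `d` -/
noncomputable def ww (P : Set E) (δ : ℝ) (y : E) : ℝ := (mm P δ y) ^ 2 / (4 * δ)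

noncomputable def gg (P : Set E) (δ : ℝ) (x : E) : ℝ := ⨆ y : E, (ww P δ y - ‖x - y‖ ^ 2 / (2 * δ))

variable (P : Set E) (δ : ℝ) (hδ : 0 < δ)

omit [InnerProductSpace ℝ E] [FiniteDimensional ℝ E] in
lemma mm_nonneg (y : E) : 0 ≤ mm P δ y := le_min Metric.infDist_nonneg (by positivity)

omit [InnerProductSpace ℝ E] [FiniteDimensional ℝ E] in
lemma mm_lip (y z : E) : mm P δ y ≤ mm P δ z + dist y z := by
  unfold mm
  have h := Metric.infDist_le_infDist_add_dist (s := P) (x := y) (y := z)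
  rcases le_total (Metric.infDist z P) (2 * Real.sqrt δ) with h1 | h1
  · rw [min_eq_left h1]
    exact (min_le_left _ _).trans h
  · rw [min_eq_right h1]
    exact (min_le_right _ _).trans (by linarith [dist_nonneg (x := y) (y := z)])

include hδ

omit [InnerProductSpace ℝ E] [FiniteDimensional ℝ E] in
lemma ww_nonneg (y : E) : 0 ≤ ww P δ y := by unfold ww; positivity

omit [InnerProductSpace ℝ E] [FiniteDimensional ℝ E] in
lemma ww_le_one (y : E) : ww P δ y ≤ 1 := by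
  unfold ww
  rw [div_le_one (by positivity)]
  have h1 := mm_nonneg P δ y
  have h2 : mm P δ y ≤ 2 * Real.sqrt δ := min_le_right _ _
  have h3 := Real.sq_sqrt hδ.le
  nlinarith [Real.sqrt_nonneg δ]

omit [InnerProductSpace ℝ E] [FiniteDimensional ℝ E] in
lemma ww_lip (y z : E) : ww P δ y ≤ ww P δ z + (Real.sqrt δ)⁻¹ * dist y z := by
  have h1 := mm_nonneg P δ y
  have h1' := mm_nonneg P δ z
  have h2 : mm P δ y ≤ 2 * Real.sqrt δ := min_le_right _ _
  have h2' : mm P δ z ≤ 2 * Real.sqrt δ := min_le_right _ _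
  have h3 := mm_lip P δ y z
  have hs : 0 < Real.sqrt δ := Real.sqrt_pos.mpr hδ
  have h4 := Real.sq_sqrt hδ.le
  have h5 : mm P δ y ^ 2 ≤ mm P δ z ^ 2 + 4 * Real.sqrt δ * dist y z := by
    nlinarith [dist_nonneg (x := y) (y := z)]
  unfold ww
  rw [div_le_iff₀ (by positivity)]
  calc mm P δ y ^ 2 ≤ mm P δ z ^ 2 + 4 * Real.sqrt δ * dist y z := h5
    _ = (mm P δ z ^ 2 / (4 * δ) + (Real.sqrt δ)⁻¹ * dist y z) * (4 * δ) := by
        nth_rewrite 4 [← h4]
        field_simp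
        rw [h4]
        ring

omit [FiniteDimensional ℝ E] in
lemma ww_semiconcave (hP : IsCompact P) (hPn : P.Nonempty) (y k : E) :
    ww P δ (y + k) + ww P δ (y - k) - 2 * ww P δ y ≤ ‖k‖ ^ 2 / (2 * δ) := by
  rcases le_total (Metric.infDist y P) (2 * Real.sqrt δ) with h1 | h1
  · obtain ⟨p, hp, hpd⟩ := hP.exists_infDist_eq_dist hPn y
    have e1 : ww P δ y = ‖y - p‖ ^ 2 / (4 * δ) := by
      unfold ww mm
      rw [min_eq_left h1, hpd, dist_eq_norm]
    have e2 : ∀ z : E, ww P δ z ≤ ‖z - p‖ ^ 2 / (4 * δ) := by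
      intro z
      unfold ww
      have : mm P δ z ≤ ‖z - p‖ := (min_le_left _ _).trans (by rw [← dist_eq_norm]; exact Metric.infDist_le_dist_of_mem hp)
      have := mm_nonneg P δ z
      gcongr
    have hpar := parallelogram_law_with_norm ℝ (y - p) k
    have a1 := e2 (y + k)
    have a2 := e2 (y - k)
    rw [show y + k - p = (y - p) + k by abel] at a1
    rw [show y - k - p = (y - p) - k by abel] at a2
    calc _ ≤ ‖(y - p) + k‖ ^ 2 / (4 * δ) + ‖(y - p) - k‖ ^ 2 / (4 * δ) - 2 * (‖y - p‖ ^ 2 / (4 * δ)) := by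
          rw [e1]; linarith
      _ = ((‖(y - p) + k‖ ^ 2 + ‖(y - p) - k‖ ^ 2) - 2 * ‖y - p‖ ^ 2) / (4 * δ) := by ring
      _ = ‖k‖ ^ 2 / (2 * δ) := by rw [hpar]; field_simp; ring
  · have e1 : ww P δ y = 1 := by
      unfold ww mm
      rw [min_eq_right h1, mul_pow, Real.sq_sqrt hδ.le]
      field_simp; norm_num
    have a1 := ww_le_one P δ hδ (y + k)
    have a2 := ww_le_one P δ hδ (y - k)
    have : 0 ≤ ‖k‖ ^ 2 / (2 * δ) := by positivity
    rw [e1]; linarith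

omit [InnerProductSpace ℝ E] [FiniteDimensional ℝ E] in
lemma gg_bdd (x : E) : BddAbove (range (fun y : E => ww P δ y - ‖x - y‖ ^ 2 / (2 * δ))) := by
  refine ⟨1, ?_⟩
  rintro _ ⟨y, rfl⟩
  have := ww_le_one P δ hδ y
  have : 0 ≤ ‖x - y‖ ^ 2 / (2 * δ) := by positivity
  simp only
  linarith

omit [InnerProductSpace ℝ E] [FiniteDimensional ℝ E] in
lemma le_gg (x y : E) : ww P δ y - ‖x - y‖ ^ 2 / (2 * δ) ≤ gg P δ x := le_ciSup (gg_bdd P δ hδ x) y

omit [InnerProductSpace ℝ E] [FiniteDimensional ℝ E] in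
lemma ww_le_gg (x : E) : ww P δ x ≤ gg P δ x := by
  have := le_gg P δ hδ x x
  simpa using this

omit [InnerProductSpace ℝ E] [FiniteDimensional ℝ E] in
lemma gg_nonneg (x : E) : 0 ≤ gg P δ x := (ww_nonneg P δ hδ x).trans (ww_le_gg P δ hδ x)

omit [InnerProductSpace ℝ E] [FiniteDimensional ℝ E] in
lemma gg_le_one (x : E) : gg P δ x ≤ 1 := by
  apply ciSup_le
  intro y
  have := ww_le_one P δ hδ y
  have : 0 ≤ ‖x - y‖ ^ 2 / (2 * δ) := by positivity
  linarith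

omit [InnerProductSpace ℝ E] [FiniteDimensional ℝ E] in
lemma gg_zero (x : E) (hx : x ∈ P) : gg P δ x = 0 := by
  apply le_antisymm _ (gg_nonneg P δ hδ x)
  apply ciSup_le
  intro y
  have h1 : mm P δ y ≤ ‖x - y‖ := (min_le_left _ _).trans (by
    rw [norm_sub_rev, ← dist_eq_norm]; exact Metric.infDist_le_dist_of_mem hx)
  have h2 := mm_nonneg P δ y
  have h3 : ww P δ y ≤ ‖x - y‖ ^ 2 / (2 * δ) := by
    unfold ww
    have : mm P δ y ^ 2 ≤ ‖x - y‖ ^ 2 := by gcongr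
    calc mm P δ y ^ 2 / (4 * δ) ≤ ‖x - y‖ ^ 2 / (4 * δ) := by gcongr
      _ ≤ ‖x - y‖ ^ 2 / (2 * δ) := by gcongr; norm_num
  linarith

omit [InnerProductSpace ℝ E] [FiniteDimensional ℝ E] in
lemma gg_lip (x x' : E) : gg P δ x ≤ gg P δ x' + (Real.sqrt δ)⁻¹ * dist x x' := by
  apply ciSup_le
  intro y
  have h1 := le_gg P δ hδ x' (y + (x' - x))
  have h2 := ww_lip P δ hδ y (y + (x' - x))
  rw [show x' - (y + (x' - x)) = x - y by abel] at h1
  have h3 : dist y (y + (x' - x)) = dist x x' := by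
    rw [dist_eq_norm, dist_eq_norm]; congr 1; abel
  rw [h3] at h2
  linarith

omit [FiniteDimensional ℝ E] in
lemma gg_lower (x h : E) : 2 * gg P δ x ≤ gg P δ (x + h) + gg P δ (x - h) + ‖h‖ ^ 2 / δ := by
  have key : gg P δ x ≤ (gg P δ (x + h) + gg P δ (x - h) + ‖h‖ ^ 2 / δ) / 2 := by
    apply ciSup_le
    intro y
    have h1 := le_gg P δ hδ (x + h) y
    have h2 := le_gg P δ hδ (x - h) y
    have hpar := parallelogram_law_with_norm ℝ (x - y) h
    rw [show x + h - y = (x - y) + h by abel] at h1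
    rw [show x - h - y = (x - y) - h by abel] at h2
    have h3 : ‖(x - y) + h‖ ^ 2 / (2 * δ) + ‖(x - y) - h‖ ^ 2 / (2 * δ) = 2 * (‖x - y‖ ^ 2 / (2 * δ)) + ‖h‖ ^ 2 / δ := by
      rw [← add_div, hpar]; field_simp
    linarith
  linarith

omit [FiniteDimensional ℝ E] in
lemma gg_upper (hP : IsCompact P) (hPn : P.Nonempty) (x h : E) :
    gg P δ (x + h) + gg P δ (x - h) ≤ 2 * gg P δ x + ‖h‖ ^ 2 / δ := by
  have key : ∀ y1 y2 : E, (ww P δ y1 - ‖(x + h) - y1‖ ^ 2 / (2 * δ)) + (ww P δ y2 - ‖(x - h) - y2‖ ^ 2 / (2 * δ))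
      ≤ 2 * gg P δ x + ‖h‖ ^ 2 / δ := by
    intro y1 y2
    set y : E := (1/2:ℝ) • (y1 + y2) with hy
    set k : E := (1/2:ℝ) • (y1 - y2) with hk
    have e1 : y1 = y + k := by rw [hy, hk]; module
    have e2 : y2 = y - k := by rw [hy, hk]; module
    have h1 := ww_semiconcave P δ hδ hP hPn y k
    have h2 := le_gg P δ hδ x y
    have hpar := parallelogram_law_with_norm ℝ (x - y) (h - k)
    have hpar2 := parallelogram_law_with_norm ℝ h (h - k)
    rw [e1, e2]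
    rw [show x + h - (y + k) = (x - y) + (h - k) by abel, show x - h - (y - k) = (x - y) - (h - k) by abel]
    rw [show h - (h - k) = k by abel] at hpar2
    have h3 : ‖(x - y) + (h - k)‖ ^ 2 / (2 * δ) + ‖(x - y) - (h - k)‖ ^ 2 / (2 * δ)
        = 2 * (‖x - y‖ ^ 2 / (2 * δ)) + ‖h - k‖ ^ 2 / δ := by
      rw [← add_div, hpar]; field_simp
    have h4 : ‖k‖ ^ 2 / (2 * δ) ≤ ‖h‖ ^ 2 / δ + ‖h - k‖ ^ 2 / δ := by
      have : ‖k‖ ^ 2 ≤ 2 * (‖h‖ ^ 2 + ‖h - k‖ ^ 2) := by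
        nlinarith [sq_nonneg ‖h + (h - k)‖]
      calc ‖k‖ ^ 2 / (2 * δ) ≤ 2 * (‖h‖ ^ 2 + ‖h - k‖ ^ 2) / (2 * δ) := by gcongr
        _ = _ := by field_simp
    linarith
  have key2 : ∀ y2 : E, gg P δ (x + h) ≤ 2 * gg P δ x + ‖h‖ ^ 2 / δ - (ww P δ y2 - ‖(x - h) - y2‖ ^ 2 / (2 * δ)) := by
    intro y2
    apply ciSup_le
    intro y1
    have := key y1 y2
    linarith
  have key3 : gg P δ (x - h) ≤ 2 * gg P δ x + ‖h‖ ^ 2 / δ - gg P δ (x + h) := by
    apply ciSup_le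
    intro y2
    have := key2 y2
    linarith
  linarith

end supconv

end Pool.Agent.S04335
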