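import Mathlib
import Pool.Agent.H9.U1
import Pool.Agent.H9.U2

set_option autoImplicit false
open MeasureTheory Set Filter Topology

namespace Pool.Agent.S04335

/-- ball volume bound: `n * vol(B(x, √d q / 10)) ≤ 1/2` -/
lemma vol_bound (d : ℕ) (hd : 1 ≤ d) (q : ℝ) (hq : 0 < q) (x : EuclideanSpace ℝ (Fin d)) :
    (volume : Measure (EuclideanSpace ℝ (Fin d))).real (Metric.closedBall x (Real.sqrt d * q / 10)) ≤ (q / 2) ^ d := by
  have hd0 : (0:ℝ) < d := by exact_mod_cast hd
  have hpi := Real.pi_pos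
  set b : ℝ := 50 / q ^ 2 with hb
  have hb0 : 0 < b := by positivity
  have h1 : (volume : Measure (EuclideanSpace ℝ (Fin d))).real (Metric.closedBall x (Real.sqrt d * q / 10))
      = (volume : Measure (EuclideanSpace ℝ (Fin d))).real (Metric.closedBall 0 (Real.sqrt d * q / 10)) := by
    rw [measureReal_def, measureReal_def, Measure.addHaar_closedBall_center]
  have hgi := GaussianFourier.integral_rexp_neg_mul_sq_norm (V := EuclideanSpace ℝ (Fin d)) hb0
  have hpos : 0 < (Real.pi / b) ^ (Module.finrank ℝ (EuclideanSpace ℝ (Fin d)) / 2 : ℝ) := by positivity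
  have hint : Integrable (fun v : EuclideanSpace ℝ (Fin d) => Real.exp (-b * ‖v‖ ^ 2)) := by
    by_contra h
    rw [integral_undef h] at hgi
    linarith
  have h2 := mul_meas_ge_le_integral_of_nonneg (μ := (volume : Measure (EuclideanSpace ℝ (Fin d))))
    (Eventually.of_forall (fun v => (Real.exp_pos _).le)) hint (Real.exp (-(d/2:ℝ)))
  have h3 : {v : EuclideanSpace ℝ (Fin d) | Real.exp (-(d/2:ℝ)) ≤ Real.exp (-b * ‖v‖ ^ 2)}
      = Metric.closedBall 0 (Real.sqrt d * q / 10) := by
    ext v
    rw [mem_closedBall_zero_iff]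
    change Real.exp (-(d/2:ℝ)) ≤ Real.exp (-b * ‖v‖ ^ 2) ↔ _
    rw [Real.exp_le_exp]
    have e1 : -(d/2:ℝ) ≤ -b * ‖v‖ ^ 2 ↔ ‖v‖ ^ 2 ≤ (Real.sqrt d * q / 10) ^ 2 := by
      rw [div_pow, mul_pow, Real.sq_sqrt hd0.le, hb]
      constructor
      · intro h
        have : 50 / q ^ 2 * ‖v‖ ^ 2 ≤ d / 2 := by linarith
        rw [div_mul_eq_mul_div, div_le_iff₀ (by positivity)] at this
        linarith
      · intro h
        have : 50 / q ^ 2 * ‖v‖ ^ 2 ≤ d / 2 := by
          rw [div_mul_eq_mul_div, div_le_iff₀ (by positivity)]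
          linarith
        linarith
    rw [e1]
    exact pow_le_pow_iff_left₀ (norm_nonneg v) (by positivity) two_ne_zero
  rw [h3, hgi, finrank_euclideanSpace_fin] at h2
  rw [h1]
  have h4 : (Real.pi / b) ^ ((d:ℝ) / 2) = (Real.sqrt (Real.pi / b)) ^ d := by
    rw [Real.sqrt_eq_rpow, ← Real.rpow_natCast, ← Real.rpow_mul (by positivity)]
    congr 1; ring
  have h5 : Real.exp (-(d/2:ℝ)) = (Real.exp (-(1/2:ℝ))) ^ d := by
    rw [← Real.exp_nat_mul]; congr 1; ring
  rw [h4, h5] at h2
  have h6 : Real.sqrt (Real.pi / b) ≤ Real.exp (-(1/2:ℝ)) * (q / 2) := by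
    rw [Real.sqrt_le_left (by positivity), mul_pow, ← Real.exp_nat_mul]
    have e1 : Real.exp ((2:ℕ) * (-(1/2:ℝ))) = (Real.exp 1)⁻¹ := by
      rw [← Real.exp_neg]; congr 1; norm_num
    rw [e1, hb]
    have e2 := Real.exp_one_lt_d9
    have e3 := Real.pi_lt_d2
    have e4 := Real.exp_pos 1
    have e5 : Real.pi * Real.exp 1 ≤ 50 / 4 := by nlinarith
    rw [show Real.pi / (50 / q ^ 2) = Real.pi * q ^ 2 / 50 by field_simp]
    rw [div_le_iff₀ (by norm_num)]
    have : (Real.exp 1)⁻¹ * (q / 2) ^ 2 * 50 = (50 / 4) * (Real.exp 1)⁻¹ * q ^ 2 := by ring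
    rw [this]
    have e6 : Real.pi ≤ (50/4) * (Real.exp 1)⁻¹ := by
      rw [← div_eq_mul_inv, le_div_iff₀ e4]; exact e5
    nlinarith [sq_nonneg q]
  have h7 : (Real.exp (-(1/2:ℝ))) ^ d * (volume : Measure (EuclideanSpace ℝ (Fin d))).real (Metric.closedBall 0 (Real.sqrt d * q / 10))
      ≤ (Real.exp (-(1/2:ℝ))) ^ d * (q / 2) ^ d := by
    rw [← mul_pow]
    exact h2.trans (pow_le_pow_left₀ (Real.sqrt_nonneg _) h6 d)
  exact le_of_mul_le_mul_left h7 (by positivity)

section moll
variable {E : Type*} [NormedAddCommGroup E] [InnerProductSpace ℝ E] [FiniteDimensional ℝ E]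
  [MeasurableSpace E] [BorelSpace E]

/-- mollification -/
noncomputable def moll (φ : ContDiffBump (0 : E)) (g : E → ℝ) (x : E) : ℝ :=
  ∫ z, φ.normed volume z * g (x - z)

lemma moll_int (φ : ContDiffBump (0 : E)) (g : E → ℝ) (hg : Continuous g) (x : E) :
    Integrable (fun z => φ.normed volume z * g (x - z)) := by
  apply Continuous.integrable_of_hasCompactSupport
  · exact φ.continuous_normed.mul (hg.comp (continuous_const.sub continuous_id))
  · exact φ.hasCompactSupport_normed.mul_right

lemma moll_contDiff (φ : ContDiffBump (0 : E)) (g : E → ℝ) (hg : Continuous g) : ContDiff ℝ 2 (moll φ g) := by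
  have h0 : HasCompactSupport (φ.normed (volume : Measure E)) := φ.hasCompactSupport_normed
  have h1 : ContDiff ℝ 2 (φ.normed (volume : Measure E)) := φ.contDiff_normed (n := 2)
  have h2 : LocallyIntegrable g (volume : Measure E) := hg.locallyIntegrable
  have h := h0.contDiff_convolution_left (μ := (volume : Measure E)) (ContinuousLinearMap.lsmul ℝ ℝ) h1 h2
  exact h

lemma moll_ge (φ : ContDiffBump (0 : E)) (G : E → ℝ) (hG : Continuous G) (c : ℝ)
    (h : ∀ z ∈ Metric.ball (0:E) φ.rOut, c ≤ G z) : c ≤ ∫ z, φ.normed volume z * G z := by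
  have h1 : ∫ z, φ.normed (volume : Measure E) z * c = c := by
    rw [integral_mul_const, φ.integral_normed, one_mul]
  rw [← h1]
  apply integral_mono
  · exact φ.integrable_normed.mul_const c
  · apply Continuous.integrable_of_hasCompactSupport
    · exact φ.continuous_normed.mul hG
    · exact φ.hasCompactSupport_normed.mul_right
  · intro z
    simp only
    by_cases hz : z ∈ Metric.ball (0:E) φ.rOut
    · exact mul_le_mul_of_nonneg_left (h z hz) (φ.nonneg_normed (μ := (volume : Measure E)) z)
    · have : φ.normed (volume : Measure E) z = 0 := by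
        by_contra h0
        have : z ∈ Function.support (φ.normed (volume : Measure E)) := h0
        rw [φ.support_normed_eq] at this
        exact hz this
      rw [this]; simp

lemma moll_le (φ : ContDiffBump (0 : E)) (G : E → ℝ) (hG : Continuous G) (c : ℝ)
    (h : ∀ z ∈ Metric.ball (0:E) φ.rOut, G z ≤ c) : ∫ z, φ.normed volume z * G z ≤ c := by
  have := moll_ge φ (fun z => -G z) hG.neg (-c) (fun z hz => neg_le_neg (h z hz))
  simp only [mul_neg, integral_neg] at this
  linarith

end moll

section build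
variable {E : Type*} [NormedAddCommGroup E] [InnerProductSpace ℝ E] [FiniteDimensional ℝ E]
  [MeasurableSpace E] [BorelSpace E]

lemma gg_cont (P : Set E) (δ : ℝ) (hδ : 0 < δ) : Continuous (gg P δ) := by
  have : LipschitzWith (Real.toNNReal (Real.sqrt δ)⁻¹) (gg P δ) := by
    apply LipschitzWith.of_le_add_mul
    intro x y
    rw [Real.coe_toNNReal _ (by positivity)]
    exact gg_lip P δ hδ x y
  exact this.continuous

/-- the fooling function -/
lemma exists_f (δ : ℝ) (hδ : 0 < δ) {n : ℕ} (hn : 1 ≤ n) (x : Fin n → E) (ρ : ℝ) (hρ : 0 < ρ) (hρ2 : ρ ≤ 2 * Real.sqrt δ) :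
    ∃ f : E → ℝ, ContDiff ℝ 2 f ∧ (∀ y, 0 ≤ f y) ∧ (∀ y, f y ≤ 1) ∧
      (∀ y z, |f y - f z| ≤ (Real.sqrt δ)⁻¹ * dist y z) ∧
      (∀ y h, |f (y + h) + f (y - h) - 2 * f y| ≤ δ⁻¹ * ‖h‖ ^ 2) ∧
      (∀ i, f (x i) = 0) ∧
      (∀ y, (∀ i, ρ < dist y (x i)) → ρ ^ 2 / (16 * δ) ≤ f y) := by
  set η : ℝ := ρ / 4 with hη
  have hη0 : 0 < η := by positivity
  set P : Set E := ⋃ i, Metric.closedBall (x i) η with hP
  have hPc : IsCompact P := isCompact_iUnion (fun i => isCompact_closedBall _ _)
  have hPn : P.Nonempty := ⟨x ⟨0, by omega⟩, mem_iUnion.mpr ⟨⟨0, by omega⟩, Metric.mem_closedBall_self hη0.le⟩⟩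
  let φ : ContDiffBump (0:E) := ⟨η / 2, η, by positivity, by linarith⟩
  have hφ : φ.rOut = η := rfl
  have hgc := gg_cont P δ hδ
  have hcont : ∀ y : E, Continuous (fun z => gg P δ (y - z)) := fun y => hgc.comp (continuous_const.sub continuous_id)
  refine ⟨moll φ (gg P δ), moll_contDiff φ _ hgc, ?_, ?_, ?_, ?_, ?_, ?_⟩
  · intro y
    exact moll_ge φ (fun z => gg P δ (y - z)) (hcont y) 0 (fun z _ => gg_nonneg P δ hδ _)
  · intro y
    exact moll_le φ (fun z => gg P δ (y - z)) (hcont y) 1 (fun z _ => gg_le_one P δ hδ _)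
  · have key : ∀ y z, moll φ (gg P δ) y - moll φ (gg P δ) z ≤ (Real.sqrt δ)⁻¹ * dist y z := by
      intro y z
      unfold moll
      rw [← integral_sub (moll_int φ _ hgc y) (moll_int φ _ hgc z)]
      simp_rw [← mul_sub]
      apply moll_le φ (fun t => gg P δ (y - t) - gg P δ (z - t)) ((hcont y).sub (hcont z))
      intro t _
      have := gg_lip P δ hδ (y - t) (z - t)
      rw [dist_sub_right] at this
      linarith
    intro y z
    rw [abs_le]
    constructor
    · have := key z y
      rw [dist_comm] at this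
      linarith
    · exact key y z
  · intro y h
    have e1 : moll φ (gg P δ) (y + h) + moll φ (gg P δ) (y - h) - 2 * moll φ (gg P δ) y
        = ∫ t, φ.normed volume t * (gg P δ ((y - t) + h) + gg P δ ((y - t) - h) - 2 * gg P δ (y - t)) := by
      unfold moll
      rw [← integral_const_mul, ← integral_add (moll_int φ _ hgc _) (moll_int φ _ hgc _), ← integral_sub]
      · apply integral_congr_ae
        apply Eventually.of_forall
        intro t
        simp only
        rw [show y + h - t = (y - t) + h by abel, show y - h - t = (y - t) - h by abel]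
        ring
      · exact (moll_int φ _ hgc _).add (moll_int φ _ hgc _)
      · exact (moll_int φ _ hgc _).const_mul 2
    have hc : Continuous (fun t => gg P δ ((y - t) + h) + gg P δ ((y - t) - h) - 2 * gg P δ (y - t)) := by
      have a1 : Continuous (fun t : E => gg P δ ((y - t) + h)) := hgc.comp ((continuous_const.sub continuous_id).add continuous_const)
      have a2 : Continuous (fun t : E => gg P δ ((y - t) - h)) := hgc.comp ((continuous_const.sub continuous_id).sub continuous_const)
      exact (a1.add a2).sub (continuous_const.mul (hcont y))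
    rw [e1, abs_le]
    constructor
    · apply moll_ge φ _ hc
      intro t _
      have := gg_lower P δ hδ (y - t) h
      rw [inv_mul_eq_div]
      linarith
    · apply moll_le φ _ hc
      intro t _
      have := gg_upper P δ hδ hPc hPn (y - t) h
      rw [inv_mul_eq_div]
      linarith
  · intro i
    have hz : ∀ z ∈ Metric.ball (0:E) φ.rOut, gg P δ (x i - z) = 0 := by
      intro z hz
      apply gg_zero P δ hδ
      rw [mem_ball_zero_iff, hφ] at hz
      refine mem_iUnion.mpr ⟨i, ?_⟩
      rw [Metric.mem_closedBall, dist_eq_norm, sub_sub_cancel_left, norm_neg]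
      exact hz.le
    apply le_antisymm
    · exact moll_le φ (fun z => gg P δ (x i - z)) (hcont _) 0 (fun z hz' => (hz z hz').le)
    · exact moll_ge φ (fun z => gg P δ (x i - z)) (hcont _) 0 (fun z hz' => (hz z hz').ge)
  · intro y hy
    apply moll_ge φ (fun z => gg P δ (y - z)) (hcont _)
    intro z hz
    rw [mem_ball_zero_iff, hφ] at hz
    refine le_trans ?_ (ww_le_gg P δ hδ _)
    have h1 : ρ / 2 ≤ Metric.infDist (y - z) P := by
      rw [Metric.le_infDist hPn]
      intro p hp
      obtain ⟨i, hi⟩ := mem_iUnion.mp hp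
      rw [Metric.mem_closedBall] at hi
      have h2 := hy i
      have h3 : dist y (x i) ≤ dist y (y - z) + dist (y - z) p + dist p (x i) := dist_triangle4 _ _ _ _
      have h4 : dist y (y - z) = ‖z‖ := by rw [dist_eq_norm]; congr 1; abel
      rw [h4] at h3
      linarith
    have h2 : ρ / 2 ≤ mm P δ (y - z) := le_min h1 (by linarith)
    unfold ww
    calc ρ ^ 2 / (16 * δ) = (ρ / 2) ^ 2 / (4 * δ) := by ring
      _ ≤ _ := by gcongr

end build

end Pool.Agent.S04335
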