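import Mathlib
import Pool.Agent.H9.U3

set_option autoImplicit false
open MeasureTheory Set Filter Topology

namespace Pool.Agent.S04335

theorem main_result : ∃ C : ℝ, 0 < C ∧
      ∀ d : ℕ, 1 ≤ d →
      ∀ D : Set (EuclideanSpace ℝ (Fin d)), IsOpen D → MeasureTheory.volume D = 1 →
      ∀ n : ℕ, 1 ≤ n →
      ∀ x : Fin n → EuclideanSpace ℝ (Fin d), (∀ i, x i ∈ D) →
      ∃ f : EuclideanSpace ℝ (Fin d) → ℝ,
        ContDiffOn ℝ 2 f D ∧
        (∀ y ∈ D, |f y| ≤ 1) ∧
        (∀ y ∈ D, ∀ z ∈ D, |f y - f z| ≤ (Real.sqrt (d : ℝ))⁻¹ * dist y z) ∧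
        (∀ θ : EuclideanSpace ℝ (Fin d), ‖θ‖ = 1 →
          ∀ y ∈ D, ∀ z ∈ D,
            |fderiv ℝ f y θ - fderiv ℝ f z θ| ≤ ((d : ℝ))⁻¹ * dist y z) ∧
        (∀ i, f (x i) = 0) ∧
        C * (n : ℝ) ^ (-(2 : ℝ) / (d : ℝ)) ≤ |∫ y in D, f y| := by
  refine ⟨1/3200, by norm_num, ?_⟩
  intro d hd D hD hvol n hn x hx
  have hd0 : (0:ℝ) < d := by exact_mod_cast hd
  have hn0 : (0:ℝ) < n := by exact_mod_cast hn
  have hn1 : (1:ℝ) ≤ n := by exact_mod_cast hn
  set q : ℝ := (n:ℝ) ^ (-(1:ℝ) / (d:ℝ)) with hq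
  have hq0 : 0 < q := Real.rpow_pos_of_pos hn0 _
  have hq1 : q ≤ 1 := Real.rpow_le_one_of_one_le_of_nonpos hn1 (by
    rw [neg_div]; exact neg_nonpos.mpr (by positivity))
  have hqd : q ^ d = (n:ℝ)⁻¹ := by
    rw [hq, ← Real.rpow_natCast, ← Real.rpow_mul hn0.le, div_mul_cancel₀ _ hd0.ne', Real.rpow_neg_one]
  have hq2 : (n:ℝ) ^ (-(2:ℝ) / (d:ℝ)) = q ^ 2 := by
    rw [hq, ← Real.rpow_natCast, ← Real.rpow_mul hn0.le]
    congr 1
    push_cast
    ring
  have hs0 : 0 < Real.sqrt d := Real.sqrt_pos.mpr hd0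
  set ρ : ℝ := Real.sqrt d * q / 10 with hρ
  have hρ0 : 0 < ρ := by positivity
  have hρ2 : ρ ≤ 2 * Real.sqrt d := by
    rw [hρ]
    nlinarith
  obtain ⟨f, hf1, hf2, hf3, hf4, hf5, hf6, hf7⟩ := exists_f (d:ℝ) hd0 hn x ρ hρ0 hρ2
  refine ⟨f, hf1.contDiffOn, ?_, fun y _ z _ => hf4 y z, ?_, hf6, ?_⟩
  · intro y _
    rw [abs_of_nonneg (hf2 y)]
    exact hf3 y
  · intro θ hθ y _ z _
    exact fderiv_lip f (hf1.differentiable (by norm_num)) _ hf5 θ hθ y z
  · rw [abs_of_nonneg (setIntegral_nonneg hD.measurableSet (fun y _ => hf2 y)), hq2]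
    set U : Set (EuclideanSpace ℝ (Fin d)) := ⋃ i, Metric.closedBall (x i) ρ with hU
    have hUm : MeasurableSet U := MeasurableSet.iUnion (fun i => Metric.isClosed_closedBall.measurableSet)
    have hfin : volume D ≠ ⊤ := by rw [hvol]; exact ENNReal.one_ne_top
    have hDr : (volume : Measure (EuclideanSpace ℝ (Fin d))).real D = 1 := by
      rw [measureReal_def, hvol]; simp
    have hUfin : volume U ≠ ⊤ := by
      have : IsCompact U := isCompact_iUnion (fun i => isCompact_closedBall _ _)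
      exact this.measure_lt_top.ne
    have hUr : (volume : Measure (EuclideanSpace ℝ (Fin d))).real U ≤ 1/2 := by
      calc (volume : Measure (EuclideanSpace ℝ (Fin d))).real U
          ≤ ∑ i : Fin n, (volume : Measure (EuclideanSpace ℝ (Fin d))).real (Metric.closedBall (x i) ρ) :=
            measureReal_iUnion_fintype_le _
        _ ≤ ∑ i : Fin n, (q / 2) ^ d := Finset.sum_le_sum (fun i _ => vol_bound d hd q hq0 (x i))
        _ = (1/2) ^ d := by
            rw [Finset.sum_const, Finset.card_univ, Fintype.card_fin, nsmul_eq_mul, div_pow, hqd, div_pow, one_pow]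
            field_simp
        _ ≤ (1/2) ^ 1 := pow_le_pow_of_le_one (by norm_num) (by norm_num) hd
        _ = 1/2 := by norm_num
    have hS : 1/2 ≤ (volume : Measure (EuclideanSpace ℝ (Fin d))).real (D \ U) := by
      have h1 := le_measureReal_sdiff (μ := (volume : Measure (EuclideanSpace ℝ (Fin d)))) (s₁ := D) (s₂ := U) hUfin
      rw [hDr] at h1
      linarith
    have hint : IntegrableOn f D volume := by
      apply Measure.integrableOn_of_bounded (M := 1) hfin
      · exact hf1.continuous.aestronglyMeasurable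
      · apply Eventually.of_forall
        intro y
        rw [Real.norm_of_nonneg (hf2 y)]
        exact hf3 y
    have hSfin : volume (D \ U) ≠ ⊤ := ne_top_of_le_ne_top hfin (measure_mono sdiff_subset)
    calc 1/3200 * q ^ 2 = (ρ ^ 2 / (16 * d)) * (1/2) := by
          rw [hρ, div_pow, mul_pow, Real.sq_sqrt hd0.le]
          field_simp
          norm_num
      _ ≤ (ρ ^ 2 / (16 * d)) * (volume : Measure (EuclideanSpace ℝ (Fin d))).real (D \ U) := by
          gcongr
      _ = ∫ y in D \ U, (ρ ^ 2 / (16 * d)) := by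
          rw [setIntegral_const, smul_eq_mul, mul_comm]
      _ ≤ ∫ y in D \ U, f y := by
          apply setIntegral_mono_on (integrableOn_const hSfin) (hint.mono_set sdiff_subset) (hD.measurableSet.diff hUm)
          intro y hy
          apply hf7
          intro i
          by_contra hcon
          rw [not_lt] at hcon
          exact hy.2 (mem_iUnion.mpr ⟨i, hcon⟩)
      _ ≤ ∫ y in D, f y := by
          apply setIntegral_mono_set hint
          · exact Eventually.of_forall (fun y => hf2 y)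
          · exact (sdiff_subset).eventuallyLE

end Pool.Agent.S04335
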