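import Mathlib

set_option autoImplicit false
open scoped ENNReal MeasureTheory
open MeasureTheory Set Filter Topology

namespace Pool.Agent.S04355

abbrev E2 := EuclideanSpace ℝ (Fin 2)

noncomputable def pt (x s : ℝ) : E2 := !₂[x, s]

lemma pt_zero (x s : ℝ) : (pt x s) 0 = x := by simp [pt]
lemma pt_one (x s : ℝ) : (pt x s) 1 = s := by simp [pt]

lemma pt_eta (p : E2) : pt (p 0) (p 1) = p := by
  ext i; fin_cases i <;> simp [pt]

lemma pt_inj {x s x' s' : ℝ} (h : pt x s = pt x' s') : x = x' ∧ s = s' := by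
  constructor
  · have := congrArg (fun p : E2 => p 0) h; simpa [pt] using this
  · have := congrArg (fun p : E2 => p 1) h; simpa [pt] using this

lemma dist_pt (x s x' s' : ℝ) : dist (pt x s) (pt x' s') = Real.sqrt ((x - x')^2 + (s - s')^2) := by
  rw [EuclideanSpace.dist_eq]
  simp [pt, Fin.sum_univ_two, Real.dist_eq, sq_abs]

lemma continuous_pt : Continuous (fun p : ℝ × ℝ => pt p.1 p.2) := by
  unfold pt
  apply (PiLp.continuous_toLp 2 _).comp
  apply continuous_pi
  intro i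
  fin_cases i
  · exact continuous_fst
  · exact continuous_snd

lemma lip_line (K : NNReal) (g : ℝ → E2) (A : Set ℝ) (hg : Continuous g) (hL : LipschitzOnWith K g A)
    (ρ : E2 → ℝ≥0∞) (hρ : Measurable ρ) :
    ∫⁻ p in g '' A, ρ p ∂μH[1] ≤ K * ∫⁻ t in A, ρ (g t) := by
  have h1 : (μH[1] : Measure E2).restrict (g '' A) ≤ (K : ℝ≥0∞) • Measure.map g ((volume : Measure ℝ).restrict A) := by
    rw [Measure.le_iff]
    intro S hS
    rw [Measure.restrict_apply hS, Measure.smul_apply, Measure.map_apply hg.measurable hS,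
      Measure.restrict_apply (hg.measurable hS)]
    have h2 : S ∩ g '' A ⊆ g '' (g ⁻¹' S ∩ A) := by
      rintro _ ⟨hp, t, ht, rfl⟩
      exact ⟨t, ⟨hp, ht⟩, rfl⟩
    calc μH[1] (S ∩ g '' A) ≤ μH[1] (g '' (g ⁻¹' S ∩ A)) := measure_mono h2
      _ ≤ (K : ℝ≥0∞) ^ (1:ℝ) * μH[1] (g ⁻¹' S ∩ A) := (hL.mono inter_subset_right).hausdorffMeasure_image_le zero_le_one
      _ = (K : ℝ≥0∞) • volume (g ⁻¹' S ∩ A) := by
          rw [hausdorffMeasure_real, ENNReal.rpow_one, smul_eq_mul]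
  calc ∫⁻ p in g '' A, ρ p ∂μH[1] ≤ ∫⁻ p, ρ p ∂((K : ℝ≥0∞) • Measure.map g ((volume : Measure ℝ).restrict A)) :=
        lintegral_mono' h1 le_rfl
    _ = K * ∫⁻ t in A, ρ (g t) := by
        rw [lintegral_smul_measure, lintegral_map hρ hg.measurable, smul_eq_mul]

lemma lip_len (K : NNReal) (g : ℝ → E2) (A : Set ℝ) (hL : LipschitzOnWith K g A) (hfin : volume A < ⊤) :
    μH[1] (g '' A) < ⊤ := by
  calc μH[1] (g '' A) ≤ (K : ℝ≥0∞) ^ (1:ℝ) * μH[1] A := hL.hausdorffMeasure_image_le zero_le_one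
    _ < ⊤ := by
        rw [hausdorffMeasure_real]
        exact ENNReal.mul_lt_top (by simp) hfin

lemma lintegral_E2 (f : E2 → ℝ≥0∞) (hf : Measurable f) :
    ∫⁻ p, f p = ∫⁻ z : ℝ × ℝ, f (pt z.1 z.2) := by
  have h1 := (EuclideanSpace.volume_preserving_symm_measurableEquiv_toLp (Fin 2)).symm
  have h2 := (volume_preserving_finTwoArrow ℝ).symm
  have h3 := h1.comp h2
  have h4 := h3.lintegral_comp hf
  rw [← h4]
  apply lintegral_congr
  intro z
  congr 1

lemma cs (A : Set ℝ) (f : ℝ → ℝ≥0∞) (hf : Measurable f) :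
    (∫⁻ t in A, f t) ^ 2 ≤ volume A * ∫⁻ t in A, f t ^ 2 := by
  have h := ENNReal.lintegral_mul_le_Lp_mul_Lq ((volume : Measure ℝ).restrict A) (p := 2) (q := 2)
    (Real.HolderConjugate.two_two) hf.aemeasurable (measurable_const (a := (1:ℝ≥0∞))).aemeasurable
  simp only [Pi.mul_apply, mul_one, ENNReal.one_rpow, lintegral_const, Measure.restrict_apply MeasurableSet.univ,
    univ_inter, one_mul] at h
  calc (∫⁻ t in A, f t) ^ 2 ≤ ((∫⁻ t in A, f t ^ (2:ℝ)) ^ (1/2:ℝ) * (volume A) ^ (1/2:ℝ)) ^ 2 := by gcongr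
    _ = volume A * ∫⁻ t in A, f t ^ 2 := by
        rw [mul_pow, ← ENNReal.rpow_natCast, ← ENNReal.rpow_natCast, ← ENNReal.rpow_mul, ← ENNReal.rpow_mul]
        norm_num
        ring_nf

lemma concat {X : Type*} [TopologicalSpace X] (γ1 γ2 : C(unitInterval, X)) (h1 : Function.Injective γ1)
    (h2 : Function.Injective γ2) (h12 : γ1 1 = γ2 0) (hr : range γ1 ∩ range γ2 ⊆ {γ1 1}) :
    ∃ γ : C(unitInterval, X), Function.Injective γ ∧ γ 0 = γ1 0 ∧ γ 1 = γ2 1 ∧ range γ = range γ1 ∪ range γ2 := by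
  let p1 : Path (γ1 0) (γ1 1) := ⟨γ1, rfl, rfl⟩
  let p2 : Path (γ1 1) (γ2 1) := ⟨γ2, h12.symm, rfl⟩
  refine ⟨(p1.trans p2).toContinuousMap, ?_, ?_, ?_, ?_⟩
  · intro s t hst
    have hst' : (p1.trans p2) s = (p1.trans p2) t := hst
    rw [Path.trans_apply, Path.trans_apply] at hst'
    have key : ∀ a b : unitInterval, γ1 a = γ2 b → a = 1 ∧ b = 0 := by
      intro a b hab
      have : γ1 a ∈ range γ1 ∩ range γ2 := ⟨⟨a, rfl⟩, ⟨b, hab.symm⟩⟩
      have h3 := hr this
      rw [mem_singleton_iff] at h3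
      exact ⟨h1 h3, h2 (by rw [← hab, h3, h12])⟩
    split_ifs at hst' with hs ht ht
    · have := h1 hst'
      rw [Subtype.mk.injEq] at this
      apply Subtype.ext; linarith
    · have := key _ _ hst'
      have h4 := congrArg Subtype.val this.2
      simp at h4
      exfalso; apply ht; linarith
    · have := key _ _ hst'.symm
      have h4 := congrArg Subtype.val this.2
      simp at h4
      exfalso; apply hs; linarith
    · have := h2 hst'
      rw [Subtype.mk.injEq] at this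
      apply Subtype.ext; linarith
  · exact (p1.trans p2).source
  · exact (p1.trans p2).target
  · exact Path.trans_range p1 p2

end Pool.Agent.S04355
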