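import Mathlib
import Pool.Agent.H9.W1

set_option autoImplicit false
open scoped ENNReal MeasureTheory
open MeasureTheory Set Filter Topology

namespace Pool.Agent.S04355

/-- point on the circle with centre `(a,0)` and radius `s` -/
noncomputable def cp (a s θ : ℝ) : E2 := pt (a + s * Real.cos θ) (s * Real.sin θ)

lemma continuous_cp (a s : ℝ) : Continuous (cp a s) := by
  unfold cp
  exact continuous_pt.comp (by fun_prop : Continuous (fun θ : ℝ => (a + s * Real.cos θ, s * Real.sin θ)))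

lemma dist_cp (a s θ θ' : ℝ) (hs : 0 ≤ s) : dist (cp a s θ) (cp a s θ') ≤ s * dist θ θ' := by
  unfold cp
  rw [dist_pt, Real.dist_eq]
  rw [Real.sqrt_le_left (by positivity)]
  have h1 : (Real.cos θ - Real.cos θ') ^ 2 + (Real.sin θ - Real.sin θ') ^ 2 = 2 - 2 * Real.cos (θ - θ') := by
    rw [Real.cos_sub]
    nlinarith [Real.sin_sq_add_cos_sq θ, Real.sin_sq_add_cos_sq θ']
  have h2 : 1 - (θ - θ') ^ 2 / 2 ≤ Real.cos (θ - θ') := Real.one_sub_sq_div_two_le_cos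
  have h3 : (a + s * Real.cos θ - (a + s * Real.cos θ')) ^ 2 + (s * Real.sin θ - s * Real.sin θ') ^ 2
      = s ^ 2 * ((Real.cos θ - Real.cos θ') ^ 2 + (Real.sin θ - Real.sin θ') ^ 2) := by ring
  rw [h3, h1, mul_pow, sq_abs]
  nlinarith [sq_nonneg s]

lemma lip_cp (a s : ℝ) (hs : 0 ≤ s) (A : Set ℝ) : LipschitzOnWith (Real.toNNReal s) (cp a s) A := by
  apply LipschitzOnWith.of_dist_le_mul
  intro x _ y _
  rw [Real.coe_toNNReal _ hs]
  exact dist_cp a s x y hs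

lemma dist_center (a s θ : ℝ) (hs : 0 ≤ s) : dist (cp a s θ) (pt a 0) = s := by
  unfold cp
  rw [dist_pt]
  have : (a + s * Real.cos θ - a) ^ 2 + (s * Real.sin θ - 0) ^ 2 = s ^ 2 := by
    nlinarith [Real.sin_sq_add_cos_sq θ]
  rw [this, Real.sqrt_sq hs]

lemma exists_angle (a s : ℝ) (hs : 0 < s) (p : E2) (hp : dist p (pt a 0) = s) :
    ∃ θ : ℝ, -Real.pi < θ ∧ θ ≤ Real.pi ∧ cp a s θ = p := by
  set w : ℂ := ⟨p 0 - a, p 1⟩ with hw
  have hn : ‖w‖ = s := by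
    rw [← hp, ← pt_eta p, dist_pt, Complex.norm_def, Complex.normSq_apply]
    congr 1
    simp only [hw, pt_zero, pt_one]
    ring
  refine ⟨Complex.arg w, Complex.neg_pi_lt_arg w, Complex.arg_le_pi w, ?_⟩
  have h1 := Complex.norm_mul_cos_arg w
  have h2 := Complex.norm_mul_sin_arg w
  rw [hn] at h1 h2
  unfold cp
  rw [h1, h2]
  simp only [hw]
  rw [add_sub_cancel, pt_eta]

/-- the arc from angle `θ` to angle `0` -/
noncomputable def arc (a s θ : ℝ) : C(unitInterval, E2) :=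
  ⟨fun u => cp a s (θ * (1 - (u:ℝ))), (continuous_cp a s).comp (by fun_prop)⟩

lemma arc_inj (a s θ : ℝ) (hs : 0 < s) (h1 : -Real.pi < θ) (h2 : θ ≤ Real.pi) (h0 : θ ≠ 0) :
    Function.Injective (arc a s θ) := by
  intro u v huv
  have huv' : cp a s (θ * (1 - (u:ℝ))) = cp a s (θ * (1 - (v:ℝ))) := huv
  obtain ⟨e1, e2⟩ := pt_inj huv'
  have c1 : Real.cos (θ * (1 - (u:ℝ))) = Real.cos (θ * (1 - (v:ℝ))) := by
    have := add_left_cancel e1
    exact mul_left_cancel₀ hs.ne' this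
  have c2 : Real.sin (θ * (1 - (u:ℝ))) = Real.sin (θ * (1 - (v:ℝ))) := mul_left_cancel₀ hs.ne' e2
  have hu := u.2
  have hv := v.2
  have key : θ * (1 - (u:ℝ)) = θ * (1 - (v:ℝ)) := by
    rcases lt_or_gt_of_ne h0 with hneg | hpos
    · have a1 : -(θ * (1 - (u:ℝ))) ∈ Icc 0 Real.pi := ⟨by nlinarith [hu.1, hu.2], by nlinarith [hu.1, hu.2]⟩
      have a2 : -(θ * (1 - (v:ℝ))) ∈ Icc 0 Real.pi := ⟨by nlinarith [hv.1, hv.2], by nlinarith [hv.1, hv.2]⟩
      have := Real.injOn_cos a1 a2 (by rw [Real.cos_neg, Real.cos_neg]; exact c1)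
      linarith
    · have a1 : (θ * (1 - (u:ℝ))) ∈ Icc 0 Real.pi := ⟨by nlinarith [hu.1, hu.2], by nlinarith [hu.1, hu.2]⟩
      have a2 : (θ * (1 - (v:ℝ))) ∈ Icc 0 Real.pi := ⟨by nlinarith [hv.1, hv.2], by nlinarith [hv.1, hv.2]⟩
      exact Real.injOn_cos a1 a2 c1
  have := mul_left_cancel₀ h0 key
  apply Subtype.ext
  linarith

lemma arc_range (a s θ : ℝ) (h1 : -Real.pi < θ) (h2 : θ ≤ Real.pi) :
    range (arc a s θ) ⊆ cp a s '' Icc (-Real.pi) Real.pi := by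
  rintro _ ⟨u, rfl⟩
  refine ⟨θ * (1 - (u:ℝ)), ?_, rfl⟩
  have hu := u.2
  have hpi := Real.pi_pos
  constructor <;> nlinarith [hu.1, hu.2]

/-- polar integral around `(a,0)` -/
lemma polar_bound (ρ : E2 → ℝ≥0∞) (hρ : Measurable ρ) (a : ℝ) :
    ∫⁻ s in Ioi (0:ℝ), (ENNReal.ofReal s * ∫⁻ θ in Icc (-Real.pi) Real.pi, (ρ (cp a s θ)) ^ 2) ≤ ∫⁻ p, ρ p ^ 2 := by
  rw [lintegral_E2 _ (hρ.pow_const 2)]
  have hm : Measurable (fun z : ℝ × ℝ => ρ (pt z.1 z.2) ^ 2) := (hρ.comp continuous_pt.measurable).pow_const 2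
  have h1 : ∫⁻ z : ℝ × ℝ, ρ (pt z.1 z.2) ^ 2 = ∫⁻ z : ℝ × ℝ, ρ (pt (a + z.1) z.2) ^ 2 := by
    have := lintegral_add_left_eq_self (μ := (volume : Measure (ℝ × ℝ))) (fun z : ℝ × ℝ => ρ (pt z.1 z.2) ^ 2) (a, 0)
    rw [← this]
    apply lintegral_congr
    intro z
    simp
  have hG : Measurable (fun p : ℝ × ℝ => ENNReal.ofReal p.1 * ρ (cp a p.1 p.2) ^ 2) := by
    apply Measurable.mul
    · fun_prop
    · apply Measurable.pow_const
      apply hρ.comp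
      exact (continuous_pt.comp (by fun_prop : Continuous (fun p : ℝ × ℝ => (a + p.1 * Real.cos p.2, p.1 * Real.sin p.2)))).measurable
  have h2 : ∫⁻ z : ℝ × ℝ, ρ (pt (a + z.1) z.2) ^ 2
      = ∫⁻ p in Ioi (0:ℝ) ×ˢ Ioo (-Real.pi) Real.pi, ENNReal.ofReal p.1 * ρ (cp a p.1 p.2) ^ 2 := by
    rw [← lintegral_comp_polarCoord_symm, polarCoord_target]
    rfl
  rw [h1, h2, Measure.volume_eq_prod, ← Measure.prod_restrict, lintegral_prod _ hG.aemeasurable]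
  apply le_of_eq
  apply lintegral_congr
  intro s
  have hm2 : Measurable (fun θ : ℝ => ρ (cp a s θ) ^ 2) := (hρ.comp (continuous_cp a s).measurable).pow_const 2
  change _ = ∫⁻ θ in Ioo (-Real.pi) Real.pi, ENNReal.ofReal s * ρ (cp a s θ) ^ 2
  rw [lintegral_const_mul _ hm2]
  congr 1
  exact setLIntegral_congr Ioo_ae_eq_Icc.symm

end Pool.Agent.S04355
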