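import Mathlib
import Pool.Agent.H9.W2

set_option autoImplicit false
open scoped ENNReal MeasureTheory
open MeasureTheory Set Filter Topology

namespace Pool.Agent.S04355

/-- admissibility for curves joining `E` to `F` -/
def Adm (E F : Set E2) (ρ : E2 → ℝ≥0∞) : Prop :=
  ∀ γ : C(unitInterval, E2), Function.Injective γ → γ 0 ∈ E → γ 1 ∈ F →
    μH[1] (Set.range γ) < ⊤ → 1 ≤ ∫⁻ x in Set.range γ, ρ x ∂μH[1]

/-- rescaled initial piece of a curve -/
noncomputable def initial (γ : C(unitInterval, E2)) (τ : unitInterval) : C(unitInterval, E2) :=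
  ⟨fun u => γ (u * τ), γ.continuous.comp (by fun_prop)⟩

lemma initial_inj (γ : C(unitInterval, E2)) (hγ : Function.Injective γ) (τ : unitInterval) (hτ : 0 < τ) :
    Function.Injective (initial γ τ) := by
  intro u v huv
  have h1 := hγ huv
  have h2 : (u:ℝ) * τ = v * τ := by
    have := congrArg Subtype.val h1
    simpa using this
  have hτ' : (τ:ℝ) ≠ 0 := by
    have : (0:ℝ) < τ := hτ
    exact this.ne'
  exact Subtype.ext (mul_right_cancel₀ hτ' h2)

lemma initial_range (γ : C(unitInterval, E2)) (τ : unitInterval) : range (initial γ τ) = γ '' Iic τ := by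
  ext p
  constructor
  · rintro ⟨u, rfl⟩
    refine ⟨u * τ, ?_, rfl⟩
    have hu := u.2
    have ht := τ.2
    change (u:ℝ) * τ ≤ τ
    nlinarith [hu.1, hu.2, ht.1]
  · rintro ⟨t, ht, rfl⟩
    by_cases h0 : (τ:ℝ) = 0
    · have h1 : t = 0 := by
        have h5 : (t:ℝ) ≤ τ := ht
        rw [h0] at h5
        exact Subtype.ext (le_antisymm h5 t.2.1)
      have h2 : τ = 0 := Subtype.ext h0
      refine ⟨0, ?_⟩
      change γ (0 * τ) = γ t
      rw [h1, zero_mul]
    · have hpos : (0:ℝ) < τ := lt_of_le_of_ne τ.2.1 (Ne.symm h0)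
      refine ⟨⟨t / τ, div_nonneg t.2.1 hpos.le, (div_le_one hpos).mpr ht⟩, ?_⟩
      change γ (_ * τ) = γ t
      congr 1
      apply Subtype.ext
      simp
      field_simp

/-- every non-degenerate rectifiable arc issuing from `(a,0)` has infinite `ρ`-length, when `F` has full length on the line -/
lemma arc_infinite (E : Set E2) (ρ : E2 → ℝ≥0∞) (hρ : Measurable ρ) (hfin : ∫⁻ p, ρ p ^ 2 < ⊤)
    (hadm : Adm E ({x | x 1 = 0} \ E) ρ) (hE0 : ∀ᵐ t : ℝ, pt t 0 ∉ E) (a : ℝ) (ha : pt a 0 ∈ E)
    (γ : C(unitInterval, E2)) (hγ : Function.Injective γ) (h0 : γ 0 = pt a 0)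
    (hrect : μH[1] (range γ) < ⊤) : ∫⁻ x in range γ, ρ x ∂μH[1] = ⊤ := by
  by_contra hne
  -- small initial piece
  have hsmall : ∃ τ : unitInterval, 0 < τ ∧ ∫⁻ x in γ '' Iic τ, ρ x ∂μH[1] < 1/2 := by
    set m : Measure E2 := ((μH[1] : Measure E2).restrict (range γ)).withDensity ρ with hm
    have hmfin : m univ ≠ ⊤ := by
      rw [hm, withDensity_apply _ MeasurableSet.univ, Measure.restrict_univ]
      exact hne
    let S : ℕ → Set E2 := fun n => γ '' Iic (⟨1 / ((n:ℝ) + 1), by positivity, by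
      rw [div_le_one (by positivity)]; have : (0:ℝ) ≤ n := by positivity
      linarith⟩ : unitInterval)
    have hSanti : Antitone S := by
      intro i j hij
      apply image_mono
      apply Iic_subset_Iic.mpr
      change 1 / ((j:ℝ) + 1) ≤ 1 / ((i:ℝ) + 1)
      have : (i:ℝ) ≤ j := by exact_mod_cast hij
      gcongr
    have hSmeas : ∀ n, MeasurableSet (S n) := fun n => ((isClosed_Iic.isCompact).image γ.continuous).measurableSet
    have hInter : ⋂ n, S n ⊆ {γ 0} := by
      intro p hp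
      rw [mem_iInter] at hp
      obtain ⟨t0, ht0, hpt0⟩ := hp 0
      have : ∀ n : ℕ, (t0:ℝ) ≤ 1 / ((n:ℝ) + 1) := by
        intro n
        obtain ⟨t, ht, hpt⟩ := hp n
        have : t = t0 := hγ (by rw [hpt, hpt0])
        subst this
        exact ht
      have h2 : (t0:ℝ) ≤ 0 := ge_of_tendsto' tendsto_one_div_add_atTop_nhds_zero_nat this
      have h3 : t0 = 0 := Subtype.ext (le_antisymm h2 t0.2.1)
      rw [mem_singleton_iff, ← hpt0, h3]
    have hlim := tendsto_measure_iInter_atTop (μ := m) (s := S) (fun n => (hSmeas n).nullMeasurableSet) hSanti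
      ⟨0, ne_top_of_le_ne_top hmfin (measure_mono (subset_univ _))⟩
    have hz : m (⋂ n, S n) = 0 := by
      apply measure_mono_null hInter
      rw [hm, withDensity_apply _ (measurableSet_singleton _), Measure.restrict_restrict (measurableSet_singleton _)]
      apply setLIntegral_measure_zero
      apply measure_mono_null inter_subset_left
      have : NullSingletonClass (μH[1] : Measure E2) := Measure.nullSingletonClass_hausdorff _ one_pos
      exact measure_singleton _
    rw [hz] at hlim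
    obtain ⟨n, hn⟩ := (hlim.eventually (gt_mem_nhds (show (0:ℝ≥0∞) < 1/2 by simp))).exists
    refine ⟨⟨1 / ((n:ℝ) + 1), by positivity, by
      rw [div_le_one (by positivity)]; have : (0:ℝ) ≤ n := by positivity
      linarith⟩, ?_, ?_⟩
    · change (0:ℝ) < 1 / ((n:ℝ) + 1)
      positivity
    · have h2 : m (S n) = ∫⁻ x in S n, ρ x ∂μH[1] := by
        rw [hm, withDensity_apply _ (hSmeas n), Measure.restrict_restrict (hSmeas n),
          inter_eq_left.mpr (image_subset_range _ _)]
      rw [← h2]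
      exact hn
  obtain ⟨t0, ht0, hsm⟩ := hsmall
  set r0 : ℝ := dist (γ t0) (pt a 0) with hr0
  have hr0pos : 0 < r0 := by
    rw [hr0, dist_pos, ← h0]
    intro h
    exact ht0.ne' (hγ h)
  -- circle estimate
  have hcirc : ∀ s : ℝ, 0 < s → s < r0 → pt (a + s) 0 ∉ E →
      ENNReal.ofReal (1 / (8 * Real.pi * s ^ 2)) ≤ ∫⁻ θ in Icc (-Real.pi) Real.pi, ρ (cp a s θ) ^ 2 := by
    intro s hs hsr hsE
    have hcont : Continuous (fun t : unitInterval => dist (γ t) (pt a 0)) := by fun_prop
    -- first hitting time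
    obtain ⟨τ, hτ1, hτ2, hτ3⟩ : ∃ τ : unitInterval, τ ≤ t0 ∧ dist (γ τ) (pt a 0) = s ∧
        ∀ t, t < τ → dist (γ t) (pt a 0) < s := by
      have hclosed : IsCompact {t : unitInterval | s ≤ dist (γ t) (pt a 0)} :=
        (isClosed_le continuous_const hcont).isCompact
      obtain ⟨τ, hτ⟩ := hclosed.exists_isLeast ⟨t0, hsr.le⟩
      have hle : τ ≤ t0 := hτ.2 hsr.le
      have hlt : ∀ t, t < τ → dist (γ t) (pt a 0) < s := by
        intro t ht
        by_contra h
        exact absurd (hτ.2 (show t ∈ {t : unitInterval | s ≤ dist (γ t) (pt a 0)} from not_lt.mp h)) (not_le.mpr ht)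
      refine ⟨τ, hle, ?_, hlt⟩
      have hivt := intermediate_value_Icc (show (0:unitInterval) ≤ τ from unitInterval.nonneg')
        hcont.continuousOn
      have hmem : s ∈ Icc (dist (γ 0) (pt a 0)) (dist (γ τ) (pt a 0)) := by
        rw [h0, dist_self]
        exact ⟨hs.le, hτ.1⟩
      obtain ⟨t, ⟨_, ht2⟩, ht3⟩ := hivt hmem
      have : τ ≤ t := hτ.2 (show t ∈ {t : unitInterval | s ≤ dist (γ t) (pt a 0)} from ht3.ge)
      have heq : t = τ := le_antisymm ht2 this
      rw [← heq]; exact ht3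
    have hτpos : 0 < τ := by
      rcases eq_or_lt_of_le (unitInterval.nonneg' (t := τ)) with h | h
      · rw [← h, h0, dist_self] at hτ2
        exact absurd hτ2 hs.ne
      · exact h
    have hini : ∫⁻ x in γ '' Iic τ, ρ x ∂μH[1] < 1/2 :=
      lt_of_le_of_lt (lintegral_mono_set (image_mono (Iic_subset_Iic.mpr hτ1))) hsm
    have hinilen : μH[1] (γ '' Iic τ) < ⊤ := lt_of_le_of_lt (measure_mono (image_subset_range _ _)) hrect
    obtain ⟨θ, hθ1, hθ2, hθ3⟩ := exists_angle a s hs (γ τ) hτ2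
    have hF : pt (a + s) 0 ∈ ({x : E2 | x 1 = 0} \ E) := ⟨by simp [pt_one], hsE⟩
    have hini0 : (initial γ τ) 0 = pt a 0 := by
      change γ (0 * τ) = _
      rw [zero_mul, h0]
    have hini1 : (initial γ τ) 1 = γ τ := by
      change γ (1 * τ) = _
      rw [one_mul]
    by_cases hθ0 : θ = 0
    · exfalso
      have h1 := hadm (initial γ τ) (initial_inj γ hγ τ hτpos) (by rw [hini0]; exact ha) (by
        rw [hini1, ← hθ3, hθ0]
        unfold cp
        rw [Real.cos_zero, Real.sin_zero, mul_one, mul_zero]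
        exact hF) (by rw [initial_range]; exact hinilen)
      rw [initial_range] at h1
      have h2 := lt_of_le_of_lt h1 hini
      exact absurd h2 (by simp)
    · have harc0 : (arc a s θ) 0 = γ τ := by
        change cp a s (θ * (1 - ((0:unitInterval):ℝ))) = _
        simp [hθ3]
      have harc1 : (arc a s θ) 1 = pt (a + s) 0 := by
        change cp a s (θ * (1 - ((1:unitInterval):ℝ))) = _
        simp [cp]
      obtain ⟨Γ, hΓ1, hΓ2, hΓ3, hΓ4⟩ := concat (initial γ τ) (arc a s θ) (initial_inj γ hγ τ hτpos)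
        (arc_inj a s θ hs hθ1 hθ2 hθ0) (by rw [hini1, harc0]) (by
          rintro p ⟨hp1, hp2⟩
          rw [initial_range] at hp1
          obtain ⟨t, ht, rfl⟩ := hp1
          obtain ⟨φ, _, hφ⟩ := arc_range a s θ hθ1 hθ2 hp2
          have hd : dist (γ t) (pt a 0) = s := by rw [← hφ]; exact dist_center a s φ hs.le
          rw [mem_singleton_iff, hini1]
          rcases eq_or_lt_of_le (show t ≤ τ from ht) with h | h
          · rw [h]
          · exact absurd hd (hτ3 t h).ne)
      have harclen : μH[1] (range (arc a s θ)) < ⊤ := by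
        refine lt_of_le_of_lt (measure_mono (arc_range a s θ hθ1 hθ2)) ?_
        exact lip_len _ (cp a s) _ (lip_cp a s hs.le _) (by simp)
      have h1 := hadm Γ hΓ1 (by rw [hΓ2, hini0]; exact ha) (by rw [hΓ3, harc1]; exact hF) (by
        rw [hΓ4, initial_range]
        exact lt_of_le_of_lt (measure_union_le _ _) (ENNReal.add_lt_top.mpr ⟨hinilen, harclen⟩))
      rw [hΓ4, initial_range] at h1
      have h2 : (1:ℝ≥0∞) ≤ ∫⁻ x in γ '' Iic τ, ρ x ∂μH[1] + ∫⁻ x in range (arc a s θ), ρ x ∂μH[1] :=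
        h1.trans (lintegral_union_le _ _ _)
      have h3 : (1/2:ℝ≥0∞) ≤ ∫⁻ x in range (arc a s θ), ρ x ∂μH[1] := by
        by_contra hcon
        rw [not_le] at hcon
        have h4 := ENNReal.add_lt_add hini hcon
        rw [ENNReal.add_halves] at h4
        exact absurd h2 (not_le.mpr h4)
      have h4 : (1/2:ℝ≥0∞) ≤ ENNReal.ofReal s * ∫⁻ φ in Icc (-Real.pi) Real.pi, ρ (cp a s φ) := by
        calc (1/2:ℝ≥0∞) ≤ ∫⁻ x in range (arc a s θ), ρ x ∂μH[1] := h3
          _ ≤ ∫⁻ x in cp a s '' Icc (-Real.pi) Real.pi, ρ x ∂μH[1] := lintegral_mono_set (arc_range a s θ hθ1 hθ2)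
          _ ≤ (Real.toNNReal s : ℝ≥0∞) * ∫⁻ φ in Icc (-Real.pi) Real.pi, ρ (cp a s φ) :=
              lip_line _ _ _ (continuous_cp a s) (lip_cp a s hs.le _) ρ hρ
          _ = _ := rfl
      have h5 := cs (Icc (-Real.pi) Real.pi) (fun φ => ρ (cp a s φ)) (hρ.comp (continuous_cp a s).measurable)
      have h6 : (1/2:ℝ≥0∞) ^ 2 ≤ (ENNReal.ofReal s) ^ 2 * (ENNReal.ofReal (2 * Real.pi) * ∫⁻ φ in Icc (-Real.pi) Real.pi, ρ (cp a s φ) ^ 2) := by
        calc (1/2:ℝ≥0∞) ^ 2 ≤ (ENNReal.ofReal s * ∫⁻ φ in Icc (-Real.pi) Real.pi, ρ (cp a s φ)) ^ 2 := by gcongr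
          _ = (ENNReal.ofReal s) ^ 2 * (∫⁻ φ in Icc (-Real.pi) Real.pi, ρ (cp a s φ)) ^ 2 := mul_pow _ _ _
          _ ≤ _ := by
              gcongr
              rw [Real.volume_Icc, show Real.pi - -Real.pi = 2 * Real.pi by ring] at h5
              exact h5
      set J := ∫⁻ φ in Icc (-Real.pi) Real.pi, ρ (cp a s φ) ^ 2 with hJ
      have hpi := Real.pi_pos
      have h7 : ENNReal.ofReal (1 / (8 * Real.pi * s ^ 2)) * (1/2) ^ 2 ≤ ENNReal.ofReal (1 / (8 * Real.pi * s ^ 2)) *
          ((ENNReal.ofReal s) ^ 2 * (ENNReal.ofReal (2 * Real.pi) * J)) := by gcongr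
      have h8 : ENNReal.ofReal (1 / (8 * Real.pi * s ^ 2)) * ((ENNReal.ofReal s) ^ 2 * (ENNReal.ofReal (2 * Real.pi) * J))
          = ENNReal.ofReal (1/4) * J := by
        rw [← ENNReal.ofReal_pow hs.le, ← mul_assoc, ← mul_assoc, ← ENNReal.ofReal_mul (by positivity), ← ENNReal.ofReal_mul (by positivity)]
        congr 2
        field_simp
        norm_num
      have h9 : (1/2:ℝ≥0∞) ^ 2 = ENNReal.ofReal (1/4) := by
        rw [show (1/4:ℝ) = (1/2)^2 by norm_num, ENNReal.ofReal_pow (by norm_num)]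
        congr 1
        rw [ENNReal.ofReal_div_of_pos (by norm_num)]
        simp
      rw [h8, h9, mul_comm] at h7
      exact (ENNReal.mul_le_mul_iff_right (by simp) ENNReal.ofReal_ne_top).mp h7
  -- integrate
  have hbig := polar_bound ρ hρ a
  have hlow : ∫⁻ s in Ioo (0:ℝ) r0, ENNReal.ofReal (1 / (8 * Real.pi * s)) ≤
      ∫⁻ s in Ioi (0:ℝ), (ENNReal.ofReal s * ∫⁻ θ in Icc (-Real.pi) Real.pi, (ρ (cp a s θ)) ^ 2) := by
    calc ∫⁻ s in Ioo (0:ℝ) r0, ENNReal.ofReal (1 / (8 * Real.pi * s))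
        ≤ ∫⁻ s in Ioo (0:ℝ) r0, (ENNReal.ofReal s * ∫⁻ θ in Icc (-Real.pi) Real.pi, (ρ (cp a s θ)) ^ 2) := by
          apply lintegral_mono_ae
          have hae : ∀ᵐ s : ℝ, pt (a + s) 0 ∉ E := by
            have := (measurePreserving_add_left (volume : Measure ℝ) a).quasiMeasurePreserving.ae hE0
            exact this
          filter_upwards [ae_restrict_of_ae hae, ae_restrict_mem measurableSet_Ioo] with s h1 h2
          calc ENNReal.ofReal (1 / (8 * Real.pi * s)) = ENNReal.ofReal s * ENNReal.ofReal (1 / (8 * Real.pi * s ^ 2)) := by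
                rw [← ENNReal.ofReal_mul h2.1.le]
                congr 1
                have := h2.1.ne'
                field_simp
            _ ≤ _ := by
                gcongr
                exact hcirc s h2.1 h2.2 h1
      _ ≤ _ := lintegral_mono_set Ioo_subset_Ioi_self
  have hdiv : ∫⁻ s in Ioo (0:ℝ) r0, ENNReal.ofReal (1 / (8 * Real.pi * s)) = ⊤ := by
    by_contra hnt
    have hpi := Real.pi_pos
    have hint : IntegrableOn (fun s : ℝ => 1 / (8 * Real.pi * s)) (Ioo 0 r0) := by
      refine ⟨Measurable.aestronglyMeasurable (by fun_prop), ?_⟩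
      rw [hasFiniteIntegral_iff_ofReal]
      · exact lt_top_iff_ne_top.mpr hnt
      · filter_upwards [ae_restrict_mem measurableSet_Ioo] with s hs
        have := hs.1
        simp only [Pi.zero_apply]
        positivity
    have h1 : IntegrableOn (fun s : ℝ => s⁻¹) (Ioo 0 r0) := by
      have := hint.const_mul (8 * Real.pi)
      refine this.congr ?_
      filter_upwards [ae_restrict_mem measurableSet_Ioo] with s hs
      have := hs.1.ne'
      field_simp
    have h2 : IntervalIntegrable (fun s : ℝ => s⁻¹) volume 0 r0 := by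
      rw [intervalIntegrable_iff_integrableOn_Ioo_of_le hr0pos.le]
      exact h1
    rw [intervalIntegrable_inv_iff] at h2
    rcases h2 with h2 | h2
    · exact hr0pos.ne h2
    · exact h2 left_mem_uIcc
  rw [hdiv] at hlow
  exact absurd (hlow.trans hbig) (not_le.mpr hfin)

end Pool.Agent.S04355
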