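import Mathlib
import Pool.Agent.H9.W3

set_option autoImplicit false
open scoped ENNReal MeasureTheory
open MeasureTheory Set Filter Topology

namespace Pool.Agent.S04355

noncomputable def vert (a t : ℝ) : C(unitInterval, E2) :=
  ⟨fun u => pt a (u * t), continuous_pt.comp (by fun_prop : Continuous (fun u : unitInterval => (a, (u:ℝ) * t)))⟩
noncomputable def horiz (x h t : ℝ) : C(unitInterval, E2) :=
  ⟨fun u => pt (x + u * h) t, continuous_pt.comp (by fun_prop : Continuous (fun u : unitInterval => (x + (u:ℝ) * h, t)))⟩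
noncomputable def down (a t : ℝ) : C(unitInterval, E2) :=
  ⟨fun u => pt a ((1 - u) * t), continuous_pt.comp (by fun_prop : Continuous (fun u : unitInterval => (a, (1 - (u:ℝ)) * t)))⟩

lemma lip_vert (a : ℝ) (A : Set ℝ) : LipschitzOnWith 1 (fun s => pt a s) A := by
  apply LipschitzOnWith.of_dist_le_mul
  intro x _ y _
  rw [dist_pt, NNReal.coe_one, one_mul, sub_self, Real.dist_eq, ← Real.sqrt_sq_eq_abs]
  simp

lemma lip_horiz (x t : ℝ) (A : Set ℝ) : LipschitzOnWith 1 (fun w => pt (x + w) t) A := by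
  apply LipschitzOnWith.of_dist_le_mul
  intro y _ z _
  rw [dist_pt, NNReal.coe_one, one_mul, sub_self, Real.dist_eq, ← Real.sqrt_sq_eq_abs]
  simp

lemma cont_vert (a : ℝ) : Continuous (fun s => pt a s) :=
  continuous_pt.comp (by fun_prop : Continuous (fun s : ℝ => (a, s)))
lemma cont_horiz (x t : ℝ) : Continuous (fun w => pt (x + w) t) :=
  continuous_pt.comp (by fun_prop : Continuous (fun w : ℝ => (x + w, t)))

lemma path_cost (E : Set E2) (ρ : E2 → ℝ≥0∞) (hρ : Measurable ρ)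
    (hadm : Adm E ({x | x 1 = 0} \ E) ρ) (x h t : ℝ) (hh : 0 < h) (ht : h < t) (ht2 : t < 2 * h)
    (hx : pt x 0 ∈ E) (hxh : pt (x + h) 0 ∉ E) :
    1 ≤ (∫⁻ s in Icc 0 (2*h), ρ (pt x s)) + (∫⁻ w in Icc 0 h, ρ (pt (x + w) t)) + ∫⁻ s in Icc 0 (2*h), ρ (pt (x+h) s) := by
  have ht0 : 0 < t := hh.trans ht
  have i1 : Function.Injective (vert x t) := by
    intro u v huv
    have := (pt_inj (show pt x (u * t) = pt x (v * t) from huv)).2
    exact Subtype.ext (mul_right_cancel₀ ht0.ne' this)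
  have i2 : Function.Injective (horiz x h t) := by
    intro u v huv
    have := (pt_inj (show pt (x + u * h) t = pt (x + v * h) t from huv)).1
    have := add_left_cancel this
    exact Subtype.ext (mul_right_cancel₀ hh.ne' this)
  have i3 : Function.Injective (down (x + h) t) := by
    intro u v huv
    have := (pt_inj (show pt (x+h) ((1 - u) * t) = pt (x+h) ((1 - v) * t) from huv)).2
    have := mul_right_cancel₀ ht0.ne' this
    apply Subtype.ext
    linarith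
  have v1 : (vert x t) 1 = pt x t := by change pt x (((1:unitInterval):ℝ) * t) = _; simp
  have v0 : (vert x t) 0 = pt x 0 := by change pt x (((0:unitInterval):ℝ) * t) = _; simp
  have w0 : (horiz x h t) 0 = pt x t := by change pt (x + ((0:unitInterval):ℝ) * h) t = _; simp
  have w1 : (horiz x h t) 1 = pt (x + h) t := by change pt (x + ((1:unitInterval):ℝ) * h) t = _; simp
  have d0 : (down (x+h) t) 0 = pt (x + h) t := by change pt (x+h) ((1 - ((0:unitInterval):ℝ)) * t) = _; simp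
  have d1 : (down (x+h) t) 1 = pt (x + h) 0 := by change pt (x+h) ((1 - ((1:unitInterval):ℝ)) * t) = _; simp
  obtain ⟨Γ, g1, g2, g3, g4⟩ := concat (vert x t) (horiz x h t) i1 i2 (by rw [v1, w0]) (by
    rintro p ⟨⟨u, rfl⟩, ⟨v, hv⟩⟩
    obtain ⟨e1, e2⟩ := pt_inj (show pt (x + v * h) t = pt x (u * t) from hv)
    rw [mem_singleton_iff, v1]
    change pt x (u * t) = pt x t
    rw [← e2])
  obtain ⟨Δ, k1, k2, k3, k4⟩ := concat Γ (down (x+h) t) g1 i3 (by rw [g3, w1, d0]) (by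
    rintro p ⟨hp, ⟨v, hv⟩⟩
    rw [g4] at hp
    rw [mem_singleton_iff, g3, w1]
    rcases hp with ⟨u, hu⟩ | ⟨u, hu⟩
    · exfalso
      rw [← hv] at hu
      obtain ⟨e1, e2⟩ := pt_inj (show pt x (u * t) = pt (x+h) ((1 - v) * t) from hu)
      linarith
    · rw [← hv] at hu
      obtain ⟨e1, e2⟩ := pt_inj (show pt (x + u * h) t = pt (x+h) ((1 - v) * t) from hu)
      rw [← hv]
      change pt (x+h) ((1 - v) * t) = pt (x+h) t
      rw [← e2])
  have r1 : range (vert x t) ⊆ (fun s => pt x s) '' Icc 0 (2*h) := by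
    rintro _ ⟨u, rfl⟩
    have hu := u.2
    exact ⟨u * t, ⟨by nlinarith [hu.1], by nlinarith [hu.1, hu.2]⟩, rfl⟩
  have r2 : range (horiz x h t) ⊆ (fun w => pt (x + w) t) '' Icc 0 h := by
    rintro _ ⟨u, rfl⟩
    have hu := u.2
    exact ⟨u * h, ⟨by nlinarith [hu.1], by nlinarith [hu.1, hu.2]⟩, rfl⟩
  have r3 : range (down (x+h) t) ⊆ (fun s => pt (x+h) s) '' Icc 0 (2*h) := by
    rintro _ ⟨u, rfl⟩
    have hu := u.2
    exact ⟨(1 - u) * t, ⟨by nlinarith [hu.1, hu.2], by nlinarith [hu.1, hu.2]⟩, rfl⟩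
  have l1 : μH[1] (range (vert x t)) < ⊤ := lt_of_le_of_lt (measure_mono r1) (lip_len 1 _ _ (lip_vert x _) measure_Icc_lt_top)
  have l2 : μH[1] (range (horiz x h t)) < ⊤ := lt_of_le_of_lt (measure_mono r2) (lip_len 1 _ _ (lip_horiz x t _) measure_Icc_lt_top)
  have l3 : μH[1] (range (down (x+h) t)) < ⊤ := lt_of_le_of_lt (measure_mono r3) (lip_len 1 _ _ (lip_vert (x+h) _) measure_Icc_lt_top)
  have hfinal := hadm Δ k1 (by rw [k2, g2, v0]; exact hx) (by rw [k3, d1]; exact ⟨by simp [pt_one], hxh⟩) (by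
    rw [k4, g4]
    exact lt_of_le_of_lt (measure_union_le _ _) (ENNReal.add_lt_top.mpr
      ⟨lt_of_le_of_lt (measure_union_le _ _) (ENNReal.add_lt_top.mpr ⟨l1, l2⟩), l3⟩))
  rw [k4, g4] at hfinal
  refine hfinal.trans ((lintegral_union_le _ _ _).trans ?_)
  apply add_le_add
  · refine (lintegral_union_le _ _ _).trans ?_
    apply add_le_add
    · calc _ ≤ ∫⁻ p in (fun s => pt x s) '' Icc 0 (2*h), ρ p ∂μH[1] := lintegral_mono_set r1
        _ ≤ ((1:NNReal) : ℝ≥0∞) * ∫⁻ s in Icc 0 (2*h), ρ (pt x s) := lip_line 1 _ _ (cont_vert x) (lip_vert x _) ρ hρ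
        _ = _ := by rw [ENNReal.coe_one, one_mul]
    · calc _ ≤ ∫⁻ p in (fun w => pt (x + w) t) '' Icc 0 h, ρ p ∂μH[1] := lintegral_mono_set r2
        _ ≤ ((1:NNReal) : ℝ≥0∞) * ∫⁻ w in Icc 0 h, ρ (pt (x+w) t) := lip_line 1 _ _ (cont_horiz x t) (lip_horiz x t _) ρ hρ
        _ = _ := by rw [ENNReal.coe_one, one_mul]
  · calc _ ≤ ∫⁻ p in (fun s => pt (x+h) s) '' Icc 0 (2*h), ρ p ∂μH[1] := lintegral_mono_set r3
      _ ≤ ((1:NNReal) : ℝ≥0∞) * ∫⁻ s in Icc 0 (2*h), ρ (pt (x+h) s) := lip_line 1 _ _ (cont_vert (x+h)) (lip_vert (x+h) _) ρ hρ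
      _ = _ := by rw [ENNReal.coe_one, one_mul]

/-- energy in the strip -/
noncomputable def eta (ρ : E2 → ℝ≥0∞) (h : ℝ) : ℝ≥0∞ := ∫⁻ x : ℝ, ∫⁻ s in Icc 0 (2*h), ρ (pt x s) ^ 2

lemma meas_R (ρ : E2 → ℝ≥0∞) (hρ : Measurable ρ) : Measurable (fun z : ℝ × ℝ => ρ (pt z.1 z.2)) :=
  hρ.comp continuous_pt.measurable

lemma A1_bound (ρ : E2 → ℝ≥0∞) (hρ : Measurable ρ) (h : ℝ) (hh : 0 < h) :
    volume {x : ℝ | 1/3 ≤ ∫⁻ s in Icc 0 (2*h), ρ (pt x s)} ≤ 9 * (ENNReal.ofReal (2*h) * eta ρ h) := by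
  have hm : Measurable (fun x : ℝ => ∫⁻ s in Icc 0 (2*h), ρ (pt x s)) :=
    Measurable.lintegral_prod_right' (meas_R ρ hρ)
  have hm2 : Measurable (fun x : ℝ => ∫⁻ s in Icc 0 (2*h), ρ (pt x s) ^ 2) :=
    Measurable.lintegral_prod_right' ((meas_R ρ hρ).pow_const 2)
  have h1 := mul_meas_ge_le_lintegral (μ := (volume : Measure ℝ)) (hm.pow_const 2) ((1/3:ℝ≥0∞)^2)
  have h2 : {x : ℝ | 1/3 ≤ ∫⁻ s in Icc 0 (2*h), ρ (pt x s)} ⊆ {x : ℝ | (1/3:ℝ≥0∞)^2 ≤ (∫⁻ s in Icc 0 (2*h), ρ (pt x s)) ^ 2} := by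
    intro x hx
    have hx' : (1/3:ℝ≥0∞) ≤ ∫⁻ s in Icc 0 (2*h), ρ (pt x s) := hx
    change (1/3:ℝ≥0∞)^2 ≤ (∫⁻ s in Icc 0 (2*h), ρ (pt x s)) ^ 2
    gcongr
  have h3 : ∫⁻ x : ℝ, (∫⁻ s in Icc 0 (2*h), ρ (pt x s)) ^ 2 ≤ ENNReal.ofReal (2*h) * eta ρ h := by
    unfold eta
    rw [← lintegral_const_mul _ hm2]
    apply lintegral_mono
    intro x
    have := cs (Icc 0 (2*h)) (fun s => ρ (pt x s)) (hρ.comp (cont_vert x).measurable)
    rw [Real.volume_Icc, sub_zero] at this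
    exact this
  have h4 : (9:ℝ≥0∞) * (1/3)^2 = 1 := by
    rw [one_div, ← ENNReal.inv_pow, show (9:ℝ≥0∞) = 3^2 by norm_num]
    exact ENNReal.mul_inv_cancel (by norm_num) (by norm_num)
  calc volume {x : ℝ | 1/3 ≤ ∫⁻ s in Icc 0 (2*h), ρ (pt x s)}
      ≤ volume {x : ℝ | (1/3:ℝ≥0∞)^2 ≤ (∫⁻ s in Icc 0 (2*h), ρ (pt x s)) ^ 2} := measure_mono h2
    _ = 9 * ((1/3)^2 * volume {x : ℝ | (1/3:ℝ≥0∞)^2 ≤ (∫⁻ s in Icc 0 (2*h), ρ (pt x s)) ^ 2}) := by
        rw [← mul_assoc, h4, one_mul]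
    _ ≤ _ := mul_le_mul' le_rfl (h1.trans h3)

lemma A3_bound (ρ : E2 → ℝ≥0∞) (hρ : Measurable ρ) (h : ℝ) (hh : 0 < h) :
    volume {x : ℝ | ∀ t ∈ Ioo h (2*h), 1/3 ≤ ∫⁻ w in Icc 0 h, ρ (pt (x + w) t)} ≤ 9 * (ENNReal.ofReal h * eta ρ h) := by
  have hmc : Continuous (fun z : (ℝ × ℝ) × ℝ => pt (z.1.1 + z.2) z.1.2) :=
    continuous_pt.comp (by fun_prop : Continuous (fun z : (ℝ × ℝ) × ℝ => (z.1.1 + z.2, z.1.2)))
  have hmH : Measurable (fun z : ℝ × ℝ => ∫⁻ w in Icc 0 h, ρ (pt (z.1 + w) z.2)) :=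
    Measurable.lintegral_prod_right' (f := fun z : (ℝ × ℝ) × ℝ => ρ (pt (z.1.1 + z.2) z.1.2)) (hρ.comp hmc.measurable)
  have hmF : Measurable (fun x : ℝ => ∫⁻ t in Ioo h (2*h), (∫⁻ w in Icc 0 h, ρ (pt (x + w) t)) ^ 2) :=
    Measurable.lintegral_prod_right' (hmH.pow_const 2)
  have h1 := mul_meas_ge_le_lintegral (μ := (volume : Measure ℝ)) hmF (ENNReal.ofReal h * (1/3:ℝ≥0∞)^2)
  have h2 : {x : ℝ | ∀ t ∈ Ioo h (2*h), 1/3 ≤ ∫⁻ w in Icc 0 h, ρ (pt (x + w) t)} ⊆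
      {x : ℝ | ENNReal.ofReal h * (1/3:ℝ≥0∞)^2 ≤ ∫⁻ t in Ioo h (2*h), (∫⁻ w in Icc 0 h, ρ (pt (x + w) t)) ^ 2} := by
    intro x hx
    change ENNReal.ofReal h * (1/3:ℝ≥0∞)^2 ≤ ∫⁻ t in Ioo h (2*h), (∫⁻ w in Icc 0 h, ρ (pt (x + w) t)) ^ 2
    calc ENNReal.ofReal h * (1/3:ℝ≥0∞)^2 = ∫⁻ t in Ioo h (2*h), (1/3:ℝ≥0∞)^2 := by
          rw [setLIntegral_const, Real.volume_Ioo, mul_comm]
          congr 2; ring
      _ ≤ _ := by
          apply setLIntegral_mono' measurableSet_Ioo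
          intro t ht
          have := hx t ht
          gcongr
  have h3 : ∫⁻ x : ℝ, ∫⁻ t in Ioo h (2*h), (∫⁻ w in Icc 0 h, ρ (pt (x + w) t)) ^ 2
      ≤ ENNReal.ofReal h * (ENNReal.ofReal h * eta ρ h) := by
    calc ∫⁻ x : ℝ, ∫⁻ t in Ioo h (2*h), (∫⁻ w in Icc 0 h, ρ (pt (x + w) t)) ^ 2
        ≤ ∫⁻ x : ℝ, ∫⁻ t in Ioo h (2*h), ENNReal.ofReal h * ∫⁻ w in Icc 0 h, ρ (pt (x + w) t) ^ 2 := by
          apply lintegral_mono
          intro x
          apply lintegral_mono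
          intro t
          have := cs (Icc 0 h) (fun w => ρ (pt (x + w) t)) (hρ.comp (cont_horiz x t).measurable)
          rw [Real.volume_Icc, sub_zero] at this
          exact this
      _ = ENNReal.ofReal h * ∫⁻ x : ℝ, ∫⁻ t in Ioo h (2*h), ∫⁻ w in Icc 0 h, ρ (pt (x + w) t) ^ 2 := by
          have m1 : Measurable (fun z : ℝ × ℝ => ∫⁻ w in Icc 0 h, ρ (pt (z.1 + w) z.2) ^ 2) :=
            Measurable.lintegral_prod_right' (f := fun z : (ℝ × ℝ) × ℝ => ρ (pt (z.1.1 + z.2) z.1.2) ^ 2) ((hρ.comp hmc.measurable).pow_const 2)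
          rw [← lintegral_const_mul]
          · apply lintegral_congr
            intro x
            rw [lintegral_const_mul]
            exact m1.comp measurable_prodMk_left
          · exact Measurable.lintegral_prod_right' m1
      _ = ENNReal.ofReal h * ∫⁻ w in Icc 0 h, ∫⁻ t in Ioo h (2*h), ∫⁻ x : ℝ, ρ (pt (x + w) t) ^ 2 := by
          congr 1
          have e1 : ∀ x : ℝ, ∫⁻ t in Ioo h (2*h), ∫⁻ w in Icc 0 h, ρ (pt (x + w) t) ^ 2
              = ∫⁻ w in Icc 0 h, ∫⁻ t in Ioo h (2*h), ρ (pt (x + w) t) ^ 2 := by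
            intro x
            apply lintegral_lintegral_swap
            apply Measurable.aemeasurable
            apply Measurable.pow_const
            apply hρ.comp
            exact (continuous_pt.comp (by fun_prop : Continuous (fun z : ℝ × ℝ => (x + z.2, z.1)))).measurable
          simp_rw [e1]
          rw [lintegral_lintegral_swap]
          · apply lintegral_congr
            intro w
            apply lintegral_lintegral_swap
            apply Measurable.aemeasurable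
            apply Measurable.pow_const
            apply hρ.comp
            exact (continuous_pt.comp (by fun_prop : Continuous (fun z : ℝ × ℝ => (z.1 + w, z.2)))).measurable
          · apply Measurable.aemeasurable
            exact Measurable.lintegral_prod_right' (f := fun z : (ℝ × ℝ) × ℝ => ρ (pt (z.1.1 + z.1.2) z.2) ^ 2)
              ((hρ.comp (continuous_pt.comp (by fun_prop : Continuous (fun z : (ℝ × ℝ) × ℝ => (z.1.1 + z.1.2, z.2)))).measurable).pow_const 2)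
      _ = ENNReal.ofReal h * ∫⁻ w in Icc 0 h, ∫⁻ t in Ioo h (2*h), ∫⁻ x : ℝ, ρ (pt x t) ^ 2 := by
          congr 1
          apply lintegral_congr
          intro w
          apply lintegral_congr
          intro t
          exact lintegral_add_right_eq_self (fun x : ℝ => ρ (pt x t) ^ 2) w
      _ = ENNReal.ofReal h * (ENNReal.ofReal h * ∫⁻ t in Ioo h (2*h), ∫⁻ x : ℝ, ρ (pt x t) ^ 2) := by
          rw [setLIntegral_const, Real.volume_Icc, sub_zero, mul_comm (∫⁻ t in Ioo h (2*h), ∫⁻ x : ℝ, ρ (pt x t) ^ 2)]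
      _ ≤ ENNReal.ofReal h * (ENNReal.ofReal h * eta ρ h) := by
          gcongr
          unfold eta
          rw [lintegral_lintegral_swap (μ := (volume : Measure ℝ)) (ν := (volume : Measure ℝ).restrict (Icc 0 (2*h)))
            (f := fun x s => ρ (pt x s) ^ 2) ((meas_R ρ hρ).pow_const 2).aemeasurable]
          exact lintegral_mono_set (fun t ht => ⟨by linarith [ht.1], ht.2.le⟩)
  have h4 : (9:ℝ≥0∞) * (1/3)^2 = 1 := by
    rw [one_div, ← ENNReal.inv_pow, show (9:ℝ≥0∞) = 3^2 by norm_num]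
    exact ENNReal.mul_inv_cancel (by norm_num) (by norm_num)
  have h5 := h1.trans h3
  have hh0 : ENNReal.ofReal h ≠ 0 := by simpa using hh
  rw [mul_assoc, ENNReal.mul_le_mul_iff_right hh0 ENNReal.ofReal_ne_top] at h5
  calc volume {x : ℝ | ∀ t ∈ Ioo h (2*h), 1/3 ≤ ∫⁻ w in Icc 0 h, ρ (pt (x + w) t)}
      ≤ volume {x : ℝ | ENNReal.ofReal h * (1/3:ℝ≥0∞)^2 ≤ ∫⁻ t in Ioo h (2*h), (∫⁻ w in Icc 0 h, ρ (pt (x + w) t)) ^ 2} := measure_mono h2
    _ = 9 * ((1/3)^2 * volume {x : ℝ | ENNReal.ofReal h * (1/3:ℝ≥0∞)^2 ≤ ∫⁻ t in Ioo h (2*h), (∫⁻ w in Icc 0 h, ρ (pt (x + w) t)) ^ 2}) := by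
        rw [← mul_assoc, h4, one_mul]
    _ ≤ _ := by gcongr

end Pool.Agent.S04355
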