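import Mathlib
import Pool.Agent.H9.W4

set_option autoImplicit false
open scoped ENNReal MeasureTheory
open MeasureTheory Set Filter Topology

namespace Pool.Agent.S04355

lemma G_bound (E : Set E2) (ρ : E2 → ℝ≥0∞) (hρ : Measurable ρ)
    (hadm : Adm E ({x | x 1 = 0} \ E) ρ) (h : ℝ) (hh : 0 < h) :
    volume {x : ℝ | pt x 0 ∈ E ∧ pt (x + h) 0 ∉ E} ≤ 45 * (ENNReal.ofReal h * eta ρ h) := by
  have hsub : {x : ℝ | pt x 0 ∈ E ∧ pt (x + h) 0 ∉ E} ⊆
      ({x : ℝ | 1/3 ≤ ∫⁻ s in Icc 0 (2*h), ρ (pt x s)} ∪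
        (fun x => x + h) ⁻¹' {x : ℝ | 1/3 ≤ ∫⁻ s in Icc 0 (2*h), ρ (pt x s)}) ∪
      {x : ℝ | ∀ t ∈ Ioo h (2*h), 1/3 ≤ ∫⁻ w in Icc 0 h, ρ (pt (x + w) t)} := by
    rintro x ⟨hx1, hx2⟩
    by_contra hcon
    simp only [mem_union, not_or] at hcon
    obtain ⟨⟨c1, c2⟩, c3⟩ := hcon
    have c1' : ∫⁻ s in Icc 0 (2*h), ρ (pt x s) < 1/3 := not_le.mp c1
    have c2' : ∫⁻ s in Icc 0 (2*h), ρ (pt (x+h) s) < 1/3 := not_le.mp c2
    have c3' : ∃ t ∈ Ioo h (2*h), ∫⁻ w in Icc 0 h, ρ (pt (x + w) t) < 1/3 := by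
      by_contra hh'
      push Not at hh'
      exact c3 hh'
    obtain ⟨t, ht, c4⟩ := c3'
    have h1 := path_cost E ρ hρ hadm x h t hh ht.1 ht.2 hx1 hx2
    have h2 := ENNReal.add_lt_add (ENNReal.add_lt_add c1' c4) c2'
    have h3 : (1/3:ℝ≥0∞) + 1/3 + 1/3 = 1 := by
      rw [← ENNReal.add_div, ← ENNReal.add_div]
      norm_num
      exact ENNReal.div_self (by norm_num) (by norm_num)
    rw [h3] at h2
    exact absurd h1 (not_le.mpr h2)
  have htr : volume ((fun x => x + h) ⁻¹' {x : ℝ | 1/3 ≤ ∫⁻ s in Icc 0 (2*h), ρ (pt x s)})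
      = volume {x : ℝ | 1/3 ≤ ∫⁻ s in Icc 0 (2*h), ρ (pt x s)} := measure_preimage_add_right _ _ _
  have hA1 := A1_bound ρ hρ h hh
  have hA3 := A3_bound ρ hρ h hh
  calc volume {x : ℝ | pt x 0 ∈ E ∧ pt (x + h) 0 ∉ E}
      ≤ volume {x : ℝ | 1/3 ≤ ∫⁻ s in Icc 0 (2*h), ρ (pt x s)} + volume {x : ℝ | 1/3 ≤ ∫⁻ s in Icc 0 (2*h), ρ (pt x s)}
        + volume {x : ℝ | ∀ t ∈ Ioo h (2*h), 1/3 ≤ ∫⁻ w in Icc 0 h, ρ (pt (x + w) t)} := by
        refine (measure_mono hsub).trans ((measure_union_le _ _).trans ?_)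
        refine add_le_add ((measure_union_le _ _).trans ?_) le_rfl
        rw [htr]
    _ ≤ 9 * (ENNReal.ofReal (2*h) * eta ρ h) + 9 * (ENNReal.ofReal (2*h) * eta ρ h) + 9 * (ENNReal.ofReal h * eta ρ h) :=
        add_le_add (add_le_add hA1 hA1) hA3
    _ = 45 * (ENNReal.ofReal h * eta ρ h) := by
        rw [ENNReal.ofReal_mul (by norm_num)]
        rw [show ENNReal.ofReal 2 = 2 by simp]
        ring

lemma sub_add (E0 : Set ℝ) (h : ℝ) (k : ℕ) :
    volume {x : ℝ | x ∈ E0 ∧ x + k * h ∉ E0} ≤ k * volume {x : ℝ | x ∈ E0 ∧ x + h ∉ E0} := by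
  induction k with
  | zero =>
    have : {x : ℝ | x ∈ E0 ∧ x + (0:ℕ) * h ∉ E0} = ∅ := by
      ext x; simp
    rw [this]; simp
  | succ k ih =>
    have hsub : {x : ℝ | x ∈ E0 ∧ x + (k+1:ℕ) * h ∉ E0} ⊆ {x : ℝ | x ∈ E0 ∧ x + k * h ∉ E0} ∪
        (fun x => x + k * h) ⁻¹' {x : ℝ | x ∈ E0 ∧ x + h ∉ E0} := by
      rintro x ⟨h1, h2⟩
      by_cases h3 : x + k * h ∈ E0
      · right
        refine ⟨h3, ?_⟩
        have : x + k * h + h = x + (k+1:ℕ) * h := by push_cast; ring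
        rw [this]; exact h2
      · left; exact ⟨h1, h3⟩
    calc _ ≤ volume {x : ℝ | x ∈ E0 ∧ x + k * h ∉ E0} + volume ((fun x => x + k * h) ⁻¹' {x : ℝ | x ∈ E0 ∧ x + h ∉ E0}) :=
          (measure_mono hsub).trans (measure_union_le _ _)
      _ ≤ k * volume {x : ℝ | x ∈ E0 ∧ x + h ∉ E0} + volume {x : ℝ | x ∈ E0 ∧ x + h ∉ E0} := by
          refine add_le_add ih ?_
          rw [measure_preimage_add_right]
      _ = _ := by push_cast; ring

lemma eta_tendsto (ρ : E2 → ℝ≥0∞) (hρ : Measurable ρ) (hfin : ∫⁻ p, ρ p ^ 2 < ⊤) :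
    Tendsto (fun n : ℕ => eta ρ (2 / ((n:ℝ) + 1))) atTop (𝓝 0) := by
  set m : Measure (ℝ × ℝ) := (volume : Measure (ℝ × ℝ)).withDensity (fun z => ρ (pt z.1 z.2) ^ 2) with hm
  have hmR := (meas_R ρ hρ).pow_const 2
  have hmfin : m univ ≠ ⊤ := by
    rw [hm, withDensity_apply _ MeasurableSet.univ, Measure.restrict_univ, ← lintegral_E2 _ (hρ.pow_const 2)]
    exact hfin.ne
  let S : ℕ → Set (ℝ × ℝ) := fun n => univ ×ˢ Icc 0 (2 * (2 / ((n:ℝ) + 1)))
  have hSm : ∀ n, MeasurableSet (S n) := fun n => MeasurableSet.univ.prod measurableSet_Icc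
  have hSanti : Antitone S := by
    intro i j hij
    apply prod_mono subset_rfl
    apply Icc_subset_Icc_right
    have : (i:ℝ) ≤ j := by exact_mod_cast hij
    gcongr
  have heq : ∀ n : ℕ, eta ρ (2 / ((n:ℝ) + 1)) = m (S n) := by
    intro n
    rw [hm, withDensity_apply _ (hSm n), Measure.volume_eq_prod, ← Measure.prod_restrict, Measure.restrict_univ,
      lintegral_prod _ hmR.aemeasurable]
    rfl
  have hlim := tendsto_measure_iInter_atTop (μ := m) (s := S) (fun n => (hSm n).nullMeasurableSet) hSanti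
    ⟨0, ne_top_of_le_ne_top hmfin (measure_mono (subset_univ _))⟩
  have hz : m (⋂ n, S n) = 0 := by
    have hsub : ⋂ n, S n ⊆ univ ×ˢ {(0:ℝ)} := by
      intro z hz
      rw [mem_iInter] at hz
      refine ⟨mem_univ _, ?_⟩
      rw [mem_singleton_iff]
      apply le_antisymm
      · have h1 : ∀ n : ℕ, z.2 ≤ 4 * (1 / ((n:ℝ) + 1)) := by
          intro n
          have := (hz n).2.2
          calc z.2 ≤ 2 * (2 / ((n:ℝ) + 1)) := this
            _ = _ := by ring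
        have h2 : Tendsto (fun n : ℕ => 4 * (1 / ((n:ℝ) + 1))) atTop (𝓝 (4 * 0)) :=
          tendsto_one_div_add_atTop_nhds_zero_nat.const_mul 4
        rw [mul_zero] at h2
        exact ge_of_tendsto' h2 h1
      · exact (hz 0).2.1
    apply measure_mono_null hsub
    rw [hm, withDensity_apply _ (MeasurableSet.univ.prod (measurableSet_singleton _))]
    apply setLIntegral_measure_zero
    rw [Measure.volume_eq_prod, Measure.prod_prod]
    simp
  rw [hz] at hlim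
  simp_rw [heq]
  exact hlim

theorem main_result :
    ∀ E : Set (EuclideanSpace ℝ (Fin 2)), IsCompact E →
      E ⊆ {x | x 1 = 0 ∧ 0 ≤ x 0 ∧ x 0 ≤ 1} →
      0 < (⨅ (ρ : EuclideanSpace ℝ (Fin 2) → ℝ≥0∞) (_ : Measurable ρ)
            (_ : ∀ γ : C(unitInterval, EuclideanSpace ℝ (Fin 2)),
              Function.Injective γ → γ 0 ∈ E → γ 1 ∈ Metric.sphere (0 : EuclideanSpace ℝ (Fin 2)) 2 →
              μH[1] (Set.range γ) < ⊤ → 1 ≤ ∫⁻ x in Set.range γ, ρ x ∂μH[1]),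
            ∫⁻ x, ρ x ^ 2) →
      (⨅ (ρ : EuclideanSpace ℝ (Fin 2) → ℝ≥0∞) (_ : Measurable ρ)
            (_ : ∀ γ : C(unitInterval, EuclideanSpace ℝ (Fin 2)),
              Function.Injective γ → γ 0 ∈ E → γ 1 ∈ ({x | x 1 = 0} \ E) →
              μH[1] (Set.range γ) < ⊤ → 1 ≤ ∫⁻ x in Set.range γ, ρ x ∂μH[1]),
            ∫⁻ x, ρ x ^ 2) = ⊤ := by
  intro E hE hEsub hpos
  rw [iInf_eq_top]
  intro ρ
  rw [iInf_eq_top]
  intro hρ
  rw [iInf_eq_top]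
  intro hadm0
  have hadm : Adm E ({x | x 1 = 0} \ E) ρ := hadm0
  by_contra hne
  have hfin : ∫⁻ p, ρ p ^ 2 < ⊤ := lt_top_iff_ne_top.mpr hne
  set E0 : Set ℝ := {t | pt t 0 ∈ E} with hE0
  have hEpt : ∀ p ∈ E, p = pt (p 0) 0 := by
    intro p hp
    have := (hEsub hp).1
    rw [← this, pt_eta]
  have hE01 : ∀ t ∈ E0, 0 ≤ t ∧ t ≤ 1 := by
    intro t ht
    have := (hEsub ht).2
    rw [pt_zero] at this
    exact this
  by_cases hzero : volume E0 = 0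
  · -- case A
    have hae : ∀ᵐ t : ℝ, pt t 0 ∉ E := by
      rw [ae_iff]
      simpa using hzero
    have hinf : ∀ γ : C(unitInterval, EuclideanSpace ℝ (Fin 2)),
        Function.Injective γ → γ 0 ∈ E → μH[1] (Set.range γ) < ⊤ → ∫⁻ x in range γ, ρ x ∂μH[1] = ⊤ := by
      intro γ h1 h2 h3
      exact arc_infinite E ρ hρ hfin hadm hae ((γ 0) 0) (by rw [← hEpt _ h2]; exact h2) γ h1 (hEpt _ h2) h3
    apply absurd hpos
    rw [not_lt]
    have hle : ∀ n : ℕ, (⨅ (ρ : EuclideanSpace ℝ (Fin 2) → ℝ≥0∞) (_ : Measurable ρ)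
            (_ : ∀ γ : C(unitInterval, EuclideanSpace ℝ (Fin 2)),
              Function.Injective γ → γ 0 ∈ E → γ 1 ∈ Metric.sphere (0 : EuclideanSpace ℝ (Fin 2)) 2 →
              μH[1] (Set.range γ) < ⊤ → 1 ≤ ∫⁻ x in Set.range γ, ρ x ∂μH[1]),
            ∫⁻ x, ρ x ^ 2) ≤ (ENNReal.ofReal (1 / ((n:ℝ) + 1))) ^ 2 * ∫⁻ x, ρ x ^ 2 := by
      intro n
      have hc0 : ENNReal.ofReal (1 / ((n:ℝ) + 1)) ≠ 0 := by
        have : (0:ℝ) < 1 / ((n:ℝ) + 1) := by positivity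
        simpa using this
      refine iInf_le_of_le (fun x => ENNReal.ofReal (1 / ((n:ℝ) + 1)) * ρ x) (iInf_le_of_le (hρ.const_mul _) (iInf_le_of_le ?_ ?_))
      · intro γ h1 h2 _ h3
        rw [lintegral_const_mul _ hρ, hinf γ h1 h2 h3, ENNReal.mul_top hc0]
        exact le_top
      · simp_rw [mul_pow]
        rw [lintegral_const_mul _ (hρ.pow_const 2)]
    have hlim : Tendsto (fun n : ℕ => (ENNReal.ofReal (1 / ((n:ℝ) + 1))) ^ 2 * ∫⁻ x, ρ x ^ 2) atTop (𝓝 0) := by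
      have h1 : Tendsto (fun n : ℕ => ENNReal.ofReal (1 / ((n:ℝ) + 1))) atTop (𝓝 0) := by
        have := ENNReal.tendsto_ofReal tendsto_one_div_add_atTop_nhds_zero_nat
        rwa [ENNReal.ofReal_zero] at this
      have h2 : Tendsto (fun n : ℕ => (ENNReal.ofReal (1 / ((n:ℝ) + 1))) ^ 2) atTop (𝓝 0) := by
        have := ENNReal.Tendsto.pow (n := 2) h1
        simpa using this
      have := ENNReal.Tendsto.mul_const h2 (Or.inr hne)
      rwa [zero_mul] at this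
    exact ge_of_tendsto' hlim hle
  · -- case B
    have hbound : ∀ n : ℕ, volume E0 ≤ 90 * eta ρ (2 / ((n:ℝ) + 1)) := by
      intro n
      have hh : (0:ℝ) < 2 / ((n:ℝ) + 1) := by positivity
      have h1 := sub_add E0 (2 / ((n:ℝ) + 1)) (n+1)
      have h2 : {x : ℝ | x ∈ E0 ∧ x + (n+1:ℕ) * (2 / ((n:ℝ) + 1)) ∉ E0} = E0 := by
        ext x
        constructor
        · rintro ⟨h, _⟩; exact h
        · intro hx
          refine ⟨hx, fun h => ?_⟩
          have e1 := (hE01 _ h).2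
          have e2 := (hE01 _ hx).1
          have e3 : ((n+1:ℕ):ℝ) * (2 / ((n:ℝ) + 1)) = 2 := by push_cast; field_simp
          rw [e3] at e1
          linarith
      rw [h2] at h1
      have h3 := G_bound E ρ hρ hadm (2 / ((n:ℝ) + 1)) hh
      calc volume E0 ≤ ((n+1:ℕ) : ℝ≥0∞) * volume {x : ℝ | x ∈ E0 ∧ x + 2 / ((n:ℝ) + 1) ∉ E0} := h1
        _ ≤ ((n+1:ℕ) : ℝ≥0∞) * (45 * (ENNReal.ofReal (2 / ((n:ℝ) + 1)) * eta ρ (2 / ((n:ℝ) + 1)))) :=
            mul_le_mul' le_rfl h3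
        _ = 45 * (((n+1:ℕ) : ℝ≥0∞) * ENNReal.ofReal (2 / ((n:ℝ) + 1))) * eta ρ (2 / ((n:ℝ) + 1)) := by ring
        _ = 90 * eta ρ (2 / ((n:ℝ) + 1)) := by
            have : ((n+1:ℕ) : ℝ≥0∞) * ENNReal.ofReal (2 / ((n:ℝ) + 1)) = 2 := by
              rw [← ENNReal.ofReal_natCast, ← ENNReal.ofReal_mul (by positivity)]
              have : ((n+1:ℕ):ℝ) * (2 / ((n:ℝ) + 1)) = 2 := by push_cast; field_simp
              rw [this]; simp
            rw [this]; norm_num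
    have hlim := ENNReal.Tendsto.const_mul (a := 90) (eta_tendsto ρ hρ hfin) (Or.inr (by norm_num))
    rw [mul_zero] at hlim
    have := ge_of_tendsto' hlim hbound
    exact hzero (le_antisymm this bot_le)

end Pool.Agent.S04355
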