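import Mathlib

set_option autoImplicit false
open Set Filter Topology

namespace Pool.Agent.S04362

def dig (b : Bool) (c : ℕ) : ℕ := if c % 2 = 0 then (if b then 2 else 1) else (if b then 9 else 8)

lemma dig_pos (b : Bool) (c : ℕ) : 1 ≤ dig b c ∧ dig b c ≤ 9 := by
  unfold dig; split_ifs <;> omega

noncomputable def pt (b : Bool) (k c : ℕ) : ℝ := ((10 * c + dig b c : ℕ) : ℝ) / (10 * (1000:ℝ) ^ k)

def Ex (b : Bool) (k : ℕ) (s : ℝ) : Prop := ∃ c, c < 1000 ^ k ∧ s = pt b k c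
def Lev (b : Bool) (i : ℕ) (s : ℝ) : Prop := ∃ k, i ≤ k ∧ Ex b k s

lemma pt_unique_aux {b b' : Bool} {k k' c c' : ℕ} (hk : k ≤ k') (h : pt b k c = pt b' k' c') :
    k = k' ∧ c = c' ∧ b = b' := by
  unfold pt at h
  obtain ⟨m, rfl⟩ := Nat.exists_eq_add_of_le hk
  rw [div_eq_div_iff (by positivity) (by positivity)] at h
  have h1 : ((10 * c + dig b c : ℕ) : ℝ) * (1000:ℝ) ^ m = ((10 * c' + dig b' c' : ℕ) : ℝ) := by
    have h2 : (0:ℝ) < 10 * 1000 ^ k := by positivity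
    have h3 : ((10 * c + dig b c : ℕ) : ℝ) * (1000:ℝ) ^ m * (10 * 1000 ^ k) = ((10 * c' + dig b' c' : ℕ) : ℝ) * (10 * 1000 ^ k) := by
      rw [← h]; ring
    exact mul_right_cancel₀ h2.ne' h3
  have h4 : (10 * c + dig b c) * 1000 ^ m = 10 * c' + dig b' c' := by exact_mod_cast h1
  have hm : m = 0 := by
    by_contra hm
    obtain ⟨l, rfl⟩ := Nat.exists_eq_succ_of_ne_zero hm
    rw [pow_succ] at h4
    have h5 := dig_pos b' c'
    have h6 : (10 * c + dig b c) * (1000 ^ l * 1000) = 10 * ((10 * c + dig b c) * 1000 ^ l * 100) := by ring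
    rw [h6] at h4
    omega
  subst hm
  rw [pow_zero, mul_one] at h4
  have h5 := dig_pos b' c'
  have h6 := dig_pos b c
  have hc : c = c' := by omega
  subst hc
  refine ⟨rfl, rfl, ?_⟩
  have h7 : dig b c = dig b' c := by omega
  unfold dig at h7
  cases b <;> cases b' <;> simp at h7 ⊢ <;> split_ifs at h7 <;> omega

lemma pt_unique {b b' : Bool} {k k' c c' : ℕ} (h : pt b k c = pt b' k' c') :
    k = k' ∧ c = c' ∧ b = b' := by
  rcases le_total k k' with hk | hk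
  · exact pt_unique_aux hk h
  · obtain ⟨h1, h2, h3⟩ := pt_unique_aux hk h.symm
    exact ⟨h1.symm, h2.symm, h3.symm⟩

lemma Lev_succ (b : Bool) (i : ℕ) (s : ℝ) : Lev b i s ↔ Ex b i s ∨ Lev b (i+1) s := by
  constructor
  · rintro ⟨k, hk, h⟩
    rcases eq_or_lt_of_le hk with rfl | hk
    · exact Or.inl h
    · exact Or.inr ⟨k, hk, h⟩
  · rintro (h | ⟨k, hk, h⟩)
    · exact ⟨i, le_rfl, h⟩
    · exact ⟨k, by omega, h⟩

lemma Lev_mono {b : Bool} {i j : ℕ} (hij : i ≤ j) {s : ℝ} (h : Lev b j s) : Lev b i s := by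
  obtain ⟨k, hk, h⟩ := h
  exact ⟨k, hij.trans hk, h⟩

lemma Ex_Lev_disj {b b' : Bool} {i j : ℕ} {s : ℝ} (h : Ex b i s) (h' : Lev b' j s) : b = b' ∧ j ≤ i := by
  obtain ⟨c, hc, rfl⟩ := h
  obtain ⟨k, hk, c', hc', h⟩ := h'
  obtain ⟨h1, h2, h3⟩ := pt_unique h
  exact ⟨h3, by omega⟩

/-- `s * 1000^i` for a tag of level `≥ i`: the floor is strictly between -/
lemma tag_floor {b : Bool} {i : ℕ} {s : ℝ} (h : Lev b i s) :
    ((⌊s * 1000 ^ i⌋₊ : ℕ) : ℝ) < s * 1000 ^ i ∧ s * 1000 ^ i < ((⌊s * 1000 ^ i⌋₊ : ℕ) : ℝ) + 1 ∧ ⌊s * 1000 ^ i⌋₊ < 1000 ^ i := by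
  obtain ⟨k, hk, c, hc, rfl⟩ := h
  obtain ⟨m, rfl⟩ := Nat.exists_eq_add_of_le hk
  have hval : pt b (i + m) c * 1000 ^ i = ((10 * c + dig b c : ℕ) : ℝ) / (10 * 1000 ^ m) := by
    unfold pt
    rw [pow_add]
    field_simp
  rw [hval]
  have hd := dig_pos b c
  have hnn : (0:ℝ) ≤ ((10 * c + dig b c : ℕ) : ℝ) / (10 * 1000 ^ m) := by positivity
  refine ⟨?_, Nat.lt_floor_add_one _, ?_⟩
  · apply lt_of_le_of_ne (Nat.floor_le hnn)
    intro heq
    rw [eq_div_iff (by positivity)] at heq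
    have h4 : ⌊((10 * c + dig b c : ℕ) : ℝ) / (10 * 1000 ^ m)⌋₊ * (10 * 1000 ^ m) = 10 * c + dig b c := by exact_mod_cast heq
    have h5 : ⌊((10 * c + dig b c : ℕ) : ℝ) / (10 * 1000 ^ m)⌋₊ * (10 * 1000 ^ m) = 10 * (⌊((10 * c + dig b c : ℕ) : ℝ) / (10 * 1000 ^ m)⌋₊ * 1000 ^ m) := by ring
    rw [h5] at h4
    omega
  · rw [Nat.floor_lt hnn, div_lt_iff₀ (by positivity)]
    have h6 : 10 * c + dig b c < 10 * 1000 ^ (i + m) := by omega
    have h7 : ((10 * c + dig b c : ℕ) : ℝ) < 10 * 1000 ^ (i + m) := by exact_mod_cast h6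
    calc _ < (10:ℝ) * 1000 ^ (i + m) := h7
      _ = _ := by push_cast; rw [pow_add]; ring

lemma floor_pt (b : Bool) (i m c : ℕ) : ⌊pt b (i + m) c * 1000 ^ i⌋₊ = c / 1000 ^ m := by
  have hval : pt b (i + m) c * 1000 ^ i = ((10 * c + dig b c : ℕ) : ℝ) / ((10 * 1000 ^ m : ℕ) : ℝ) := by
    unfold pt
    rw [pow_add]
    push_cast
    field_simp
  rw [hval, Nat.floor_div_eq_div]
  have hd := dig_pos b c
  rw [← Nat.div_div_eq_div_mul]
  congr 1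
  omega

end Pool.Agent.S04362
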