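import Pool.Agent.H9.X1

set_option autoImplicit false
open Set Filter Topology

namespace Pool.Agent.S04362

structure TP (n : ℕ) (x t : ℕ → ℝ) : Prop where
  h0 : x 0 = 0
  h1 : x n = 1
  lt : ∀ i, i < n → x i < x (i+1)
  tl : ∀ i, i < n → x i ≤ t i
  tr : ∀ i, i < n → t i ≤ x (i+1)

variable {n : ℕ} {x t : ℕ → ℝ}

lemma TP.mono (h : TP n x t) {a b : ℕ} (hab : a ≤ b) (hb : b ≤ n) : x a ≤ x b := by
  induction b, hab using Nat.le_induction with
  | base => exact le_rfl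
  | succ b hab ih => exact (ih (by omega)).trans (h.lt b (by omega)).le

lemma TP.nonneg (h : TP n x t) {a : ℕ} (ha : a ≤ n) : 0 ≤ x a := by
  rw [← h.h0]; exact h.mono (Nat.zero_le _) ha

lemma TP.le_one (h : TP n x t) {a : ℕ} (ha : a ≤ n) : x a ≤ 1 := by
  rw [← h.h1]; exact h.mono ha le_rfl

lemma TP.strict (h : TP n x t) {a b : ℕ} (hab : a < b) (hb : b ≤ n) : x a < x b :=
  (h.lt a (by omega)).trans_le (h.mono (by omega : a + 1 ≤ b) hb)

lemma TP.interior (h : TP n x t) {j l : ℕ} (hj : j < n) (hl : l < n) {y : ℝ} (h1 : x l < y) (h2 : y < x (l+1))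
    (h3 : x j ≤ y) (h4 : y ≤ x (j+1)) : j = l := by
  by_contra hne
  rcases lt_or_gt_of_ne hne with hlt | hlt
  · have := h.mono (show j + 1 ≤ l by omega) (by omega)
    linarith
  · have := h.mono (show l + 1 ≤ j by omega) (by omega)
    linarith

lemma TP.consec (h : TP n x t) {j l : ℕ} (hl : l < n) (hjl : j < l) (ht : t j = t l) : l = j + 1 := by
  by_contra hne
  have h1 := h.strict (show j + 1 < l by omega) (by omega)
  have h2 := h.tr j (by omega)
  have h3 := h.tl l hl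
  linarith

open Classical in
lemma TP.card_le_two (h : TP n x t) (y : ℝ) : ((Finset.range n).filter (fun j => t j = y)).card ≤ 2 := by
  rcases ((Finset.range n).filter (fun j => t j = y)).eq_empty_or_nonempty with he | hne
  · rw [he]; simp
  · set j0 := ((Finset.range n).filter (fun j => t j = y)).min' hne with hj0
    have hm := Finset.min'_mem _ hne
    rw [← hj0] at hm
    have hsub : ((Finset.range n).filter (fun j => t j = y)) ⊆ {j0, j0 + 1} := by
      intro j hj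
      have hle := Finset.min'_le _ j hj
      rw [← hj0] at hle
      simp only [Finset.mem_filter, Finset.mem_range] at hj hm
      rcases eq_or_lt_of_le hle with h1 | h1
      · simp [h1]
      · have := h.consec hj.1 h1 (by rw [hm.2, hj.2])
        simp [this]
    exact (Finset.card_le_card hsub).trans Finset.card_le_two

open Classical in
lemma TP.card_le (h : TP n x t) (F : Finset ℕ) (hF : F ⊆ Finset.range n) (Q : Finset ℝ)
    (hQ : ∀ j ∈ F, t j ∈ Q) : F.card ≤ 2 * Q.card := by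
  have h1 : F.card ≤ 2 * (F.image t).card := by
    apply Finset.card_le_mul_card_image
    intro a _
    refine le_trans (Finset.card_le_card ?_) (h.card_le_two a)
    exact Finset.filter_subset_filter _ hF
  have h2 : (F.image t).card ≤ Q.card := by
    apply Finset.card_le_card
    intro y hy
    rw [Finset.mem_image] at hy
    obtain ⟨j, hj, rfl⟩ := hy
    exact hQ j hj
  omega

lemma TP.cover (h : TP n x t) (N : ℕ) (F : Finset ℕ) (hF : F ⊆ Finset.range n) :
    ∃ S : Finset ℕ, S ⊆ Finset.range N ∧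
      (∑ l ∈ F, (x (l+1) - x l)) * N ≤ S.card + 2 * F.card ∧
      (∀ c ∈ S, ∃ l ∈ F, x l * N ≤ c ∧ (c:ℝ) + 1 ≤ x (l+1) * N) := by
  refine ⟨F.biUnion (fun l => Finset.Ico ⌈x l * N⌉₊ ⌊x (l+1) * N⌋₊), ?_, ?_, ?_⟩
  · intro c hc
    rw [Finset.mem_biUnion] at hc
    obtain ⟨l, hl, hc⟩ := hc
    have hl' := Finset.mem_range.mp (hF hl)
    rw [Finset.mem_Ico] at hc
    rw [Finset.mem_range]
    refine lt_of_lt_of_le hc.2 ?_
    have h1 : x (l+1) * N ≤ N := by
      have := h.le_one (show l + 1 ≤ n by omega)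
      have hN : (0:ℝ) ≤ N := Nat.cast_nonneg _
      nlinarith
    calc ⌊x (l+1) * N⌋₊ ≤ ⌊(N:ℝ)⌋₊ := Nat.floor_le_floor h1
      _ = N := Nat.floor_natCast _
  · rw [Finset.card_biUnion]
    · rw [Finset.sum_mul]
      push_cast
      have h2 : (2:ℝ) * F.card = ∑ l ∈ F, (2:ℝ) := by
        rw [Finset.sum_const, nsmul_eq_mul]; ring
      rw [h2, ← Finset.sum_add_distrib]
      apply Finset.sum_le_sum
      intro l hl
      have hl' := Finset.mem_range.mp (hF hl)
      rw [Nat.card_Ico]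
      have hN : (0:ℝ) ≤ N := Nat.cast_nonneg _
      have h3 : (⌈x l * N⌉₊ : ℝ) < x l * N + 1 := Nat.ceil_lt_add_one (mul_nonneg (h.nonneg (by omega)) hN)
      have h4 : x (l+1) * N < (⌊x (l+1) * N⌋₊ : ℝ) + 1 := Nat.lt_floor_add_one _
      have h5 : (⌊x (l+1) * N⌋₊ : ℝ) - (⌈x l * N⌉₊ : ℝ) ≤ ((⌊x (l+1) * N⌋₊ - ⌈x l * N⌉₊ : ℕ) : ℝ) := by
        have : ⌊x (l+1) * N⌋₊ ≤ (⌊x (l+1) * N⌋₊ - ⌈x l * N⌉₊) + ⌈x l * N⌉₊ := by omega
        have h6 : (⌊x (l+1) * N⌋₊ : ℝ) ≤ (((⌊x (l+1) * N⌋₊ - ⌈x l * N⌉₊ : ℕ)) : ℝ) + (⌈x l * N⌉₊ : ℝ) := by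
          exact_mod_cast this
        linarith
      linarith
    · intro a ha b hb hab
      have ha' := Finset.mem_range.mp (hF ha)
      have hb' := Finset.mem_range.mp (hF hb)
      have key : ∀ a b : ℕ, a < n → b < n → a < b → ⌊x (a+1) * N⌋₊ ≤ ⌈x b * N⌉₊ := by
        intro a b ha hb hab
        have h1 := h.mono (show a + 1 ≤ b by omega) (by omega)
        have hN : (0:ℝ) ≤ N := Nat.cast_nonneg _
        have h2 : x (a+1) * N ≤ x b * N := mul_le_mul_of_nonneg_right h1 hN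
        have h3 := Nat.floor_le (mul_nonneg (h.nonneg (show a + 1 ≤ n by omega)) hN)
        have h4 := Nat.le_ceil (x b * N)
        exact_mod_cast h3.trans (h2.trans h4)
      show Disjoint (Finset.Ico _ _) (Finset.Ico _ _)
      rw [Finset.disjoint_left]
      intro c hc hc'
      rw [Finset.mem_Ico] at hc hc'
      rcases lt_or_gt_of_ne hab with hlt | hlt
      · have := key a b ha' hb' hlt; omega
      · have := key b a hb' ha' hlt; omega
  · intro c hc
    rw [Finset.mem_biUnion] at hc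
    obtain ⟨l, hl, hc⟩ := hc
    have hl' := Finset.mem_range.mp (hF hl)
    rw [Finset.mem_Ico] at hc
    refine ⟨l, hl, Nat.ceil_le.mp hc.1, ?_⟩
    have hN : (0:ℝ) ≤ N := Nat.cast_nonneg _
    have h3 := Nat.floor_le (mul_nonneg (h.nonneg (show l + 1 ≤ n by omega)) hN)
    have h4 : ((c + 1 : ℕ) : ℝ) ≤ (⌊x (l+1) * N⌋₊ : ℝ) := by exact_mod_cast hc.2
    push_cast at h4
    linarith

open Classical in
noncomputable def Ms (n : ℕ) (x t : ℕ → ℝ) (P : ℝ → Prop) : ℝ :=
  ∑ j ∈ Finset.range n, if P (t j) then (x (j+1) - x j) else 0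

lemma Ms_mono (h : TP n x t) {P Q : ℝ → Prop} (hPQ : ∀ j, j < n → P (t j) → Q (t j)) : Ms n x t P ≤ Ms n x t Q := by
  unfold Ms
  apply Finset.sum_le_sum
  intro j hj
  have hj' := Finset.mem_range.mp hj
  have := h.lt j hj'
  by_cases hP : P (t j)
  · rw [if_pos hP, if_pos (hPQ j hj' hP)]
  · rw [if_neg hP]
    split_ifs <;> linarith

lemma Ms_add (n : ℕ) (x t : ℕ → ℝ) {P Q R : ℝ → Prop} (h1 : ∀ s, R s ↔ (P s ∨ Q s)) (h2 : ∀ s, P s → ¬ Q s) :
    Ms n x t R = Ms n x t P + Ms n x t Q := by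
  unfold Ms
  rw [← Finset.sum_add_distrib]
  apply Finset.sum_congr rfl
  intro j hj
  have h1' := h1 (t j)
  have h2' := h2 (t j)
  by_cases hP : P (t j)
  · rw [if_pos (h1'.mpr (Or.inl hP)), if_pos hP, if_neg (h2' hP), add_zero]
  · by_cases hQ : Q (t j)
    · rw [if_pos (h1'.mpr (Or.inr hQ)), if_neg hP, if_pos hQ, zero_add]
    · rw [if_neg (by rw [h1']; tauto), if_neg hP, if_neg hQ, add_zero]

lemma Ms_true (h : TP n x t) : Ms n x t (fun _ => True) = 1 := by
  unfold Ms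
  simp only [if_true]
  rw [Finset.sum_range_sub, h.h0, h.h1, sub_zero]

lemma Ms_nonneg (h : TP n x t) (P : ℝ → Prop) : 0 ≤ Ms n x t P := by
  unfold Ms
  apply Finset.sum_nonneg
  intro j hj
  have := h.lt j (Finset.mem_range.mp hj)
  split_ifs <;> linarith

lemma Ms_le_one (h : TP n x t) (P : ℝ → Prop) : Ms n x t P ≤ 1 := by
  rw [← Ms_true h]
  exact Ms_mono h (fun _ _ _ => trivial)

def Test (n : ℕ) (x t : ℕ → ℝ) (b : Bool) (i : ℕ) : Prop :=
  ∀ S : Finset ℕ, S ⊆ Finset.range (1000 ^ i) →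
    |Ms n x t (fun s => Lev b i s ∧ ⌊s * 1000 ^ i⌋₊ ∈ S) - (S.card : ℝ) / 1000 ^ i * Ms n x t (Lev b i)| ≤ 1 / 1000

open Classical in
lemma TP.test (h : TP n x t) (b : Bool) (i : ℕ) (H : Test n x t b i) (P : ℝ → Prop)
    (hP : ∀ s, P s → ¬ Lev b i s) (Q : Finset ℝ) (hQ : ∀ s, P s → s ∈ Q) (φ : ℝ) (hφ : (Q.card : ℝ) ≤ φ * 1000 ^ i) :
    (Ms n x t P - 4 * φ) * Ms n x t (Lev b i) ≤ 1 / 1000 := by
  set F := (Finset.range n).filter (fun j => P (t j)) with hFdef
  have hF : F ⊆ Finset.range n := Finset.filter_subset _ _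
  obtain ⟨S, hS, hcard, hcell⟩ := h.cover (1000 ^ i) F hF
  have hW : Ms n x t P = ∑ l ∈ F, (x (l+1) - x l) := by
    unfold Ms
    rw [hFdef, Finset.sum_filter]
  have hFc : F.card ≤ 2 * Q.card := h.card_le F hF Q (fun j hj => hQ _ (Finset.mem_filter.mp hj).2)
  have hFc' : (F.card : ℝ) ≤ 2 * Q.card := by exact_mod_cast hFc
  have h0 : Ms n x t (fun s => Lev b i s ∧ ⌊s * 1000 ^ i⌋₊ ∈ S) = 0 := by
    unfold Ms
    apply Finset.sum_eq_zero
    intro j hj
    rw [if_neg]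
    rintro ⟨hL, hfl⟩
    have hj' := Finset.mem_range.mp hj
    obtain ⟨l, hl, hl1, hl2⟩ := hcell _ hfl
    have hl' := Finset.mem_range.mp (hF hl)
    obtain ⟨g1, g2, g3⟩ := tag_floor hL
    push_cast at hl1 hl2
    have hpos : (0:ℝ) < 1000 ^ i := by positivity
    have k1 : x l < t j := by
      have : x l * 1000 ^ i < t j * 1000 ^ i := lt_of_le_of_lt hl1 g1
      exact lt_of_mul_lt_mul_right this hpos.le
    have k2 : t j < x (l+1) := by
      have : t j * 1000 ^ i < x (l+1) * 1000 ^ i := lt_of_lt_of_le g2 hl2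
      exact lt_of_mul_lt_mul_right this hpos.le
    have := h.interior hj' hl' k1 k2 (h.tl j hj') (h.tr j hj')
    subst this
    exact hP _ (Finset.mem_filter.mp hl).2 hL
  have h1 := H S hS
  rw [h0, zero_sub, abs_neg] at h1
  have h2 := (abs_le.mp h1).2
  have hm := Ms_nonneg h (Lev b i)
  have hpos : (0:ℝ) < 1000 ^ i := by positivity
  have h3 : Ms n x t P ≤ (S.card : ℝ) / 1000 ^ i + 4 * φ := by
    rw [hW, div_add' _ _ _ hpos.ne', le_div_iff₀ hpos]
    push_cast at hcard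
    nlinarith
  calc (Ms n x t P - 4 * φ) * Ms n x t (Lev b i) ≤ ((S.card : ℝ) / 1000 ^ i) * Ms n x t (Lev b i) := by
        apply mul_le_mul_of_nonneg_right _ hm
        linarith
    _ ≤ 1 / 1000 := h2

end Pool.Agent.S04362
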