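import Pool.Agent.H9.X2

set_option autoImplicit false
open Set Filter Topology

namespace Pool.Agent.S04362

variable {n : ℕ} {x t : ℕ → ℝ}

def Low (b : Bool) (i : ℕ) (s : ℝ) : Prop := ∃ k, 1 ≤ k ∧ k < i ∧ Ex b k s

lemma Lev_one_iff (b : Bool) (i : ℕ) (hi : 1 ≤ i) (s : ℝ) : Lev b 1 s ↔ (Low b i s ∨ Lev b i s) := by
  constructor
  · rintro ⟨k, hk, h⟩
    by_cases hki : k < i
    · exact Or.inl ⟨k, hk, hki, h⟩
    · exact Or.inr ⟨k, by omega, h⟩
  · rintro (⟨k, hk, _, h⟩ | ⟨k, hk, h⟩)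
    · exact ⟨k, hk, h⟩
    · exact ⟨k, by omega, h⟩

lemma Low_not_Lev {b b' : Bool} {i : ℕ} {s : ℝ} (h : Low b i s) : ¬ Lev b' i s := by
  obtain ⟨k, _, hk, h⟩ := h
  intro h'
  have := (Ex_Lev_disj h h').2
  omega

lemma Ex_not_Lev {b b' : Bool} {i : ℕ} {s : ℝ} (h : Ex b i s) : ¬ Lev b' (i+1) s := by
  intro h'
  have := (Ex_Lev_disj h h').2
  omega

lemma geo_sum (i : ℕ) : 999 * ∑ k ∈ Finset.range i, 1000 ^ k + 1 = 1000 ^ i := by
  induction i with
  | zero => simp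
  | succ i ih => rw [Finset.sum_range_succ, pow_succ]; omega

open Classical in
lemma low_card (b : Bool) (i : ℕ) : ∃ Q : Finset ℝ, (∀ s, Low b i s → s ∈ Q) ∧ (Q.card : ℝ) ≤ 1 / 999 * 1000 ^ i := by
  refine ⟨(Finset.range i).biUnion (fun k => (Finset.range (1000 ^ k)).image (pt b k)), ?_, ?_⟩
  · rintro s ⟨k, _, hk, c, hc, rfl⟩
    rw [Finset.mem_biUnion]
    exact ⟨k, Finset.mem_range.mpr hk, Finset.mem_image_of_mem _ (Finset.mem_range.mpr hc)⟩
  · have h1 : ((Finset.range i).biUnion (fun k => (Finset.range (1000 ^ k)).image (pt b k))).card ≤ ∑ k ∈ Finset.range i, 1000 ^ k := by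
      refine Finset.card_biUnion_le.trans ?_
      apply Finset.sum_le_sum
      intro k _
      exact Finset.card_image_le.trans (by rw [Finset.card_range])
    have h2 := geo_sum i
    have h3 : 999 * ((Finset.range i).biUnion (fun k => (Finset.range (1000 ^ k)).image (pt b k))).card ≤ 1000 ^ i := by omega
    have h4 : (999:ℝ) * (((Finset.range i).biUnion (fun k => (Finset.range (1000 ^ k)).image (pt b k))).card : ℝ) ≤ 1000 ^ i := by
      exact_mod_cast h3
    linarith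

open Classical in
lemma ex_card (b : Bool) (i : ℕ) : ∃ Q : Finset ℝ, (∀ s, Ex b i s → s ∈ Q) ∧ (Q.card : ℝ) ≤ 1 / 1000 * 1000 ^ (i + 1) := by
  refine ⟨(Finset.range (1000 ^ i)).image (pt b i), ?_, ?_⟩
  · rintro s ⟨c, hc, rfl⟩
    exact Finset.mem_image_of_mem _ (Finset.mem_range.mpr hc)
  · have h1 : ((Finset.range (1000 ^ i)).image (pt b i)).card ≤ 1000 ^ i :=
      Finset.card_image_le.trans (by rw [Finset.card_range])
    have h2 : (((Finset.range (1000 ^ i)).image (pt b i)).card : ℝ) ≤ 1000 ^ i := by exact_mod_cast h1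
    rw [pow_succ]
    linarith

/-- the tag system eventually has no tags of level ≥ i -/
lemma exists_big (n : ℕ) (x t : ℕ → ℝ) (b : Bool) : ∃ K, ∀ i, K ≤ i → Ms n x t (Lev b i) = 0 := by
  have h1 : ∀ j : ℕ, ∃ K : ℕ, ∀ i, K ≤ i → ¬ Lev b i (t j) := by
    intro j
    by_cases hj : ∃ k, Ex b k (t j)
    · obtain ⟨k, hk⟩ := hj
      refine ⟨k + 1, fun i hi h => ?_⟩
      have := (Ex_Lev_disj hk h).2
      omega
    · refine ⟨0, fun i _ h => hj ?_⟩
      obtain ⟨k, _, h⟩ := h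
      exact ⟨k, h⟩
  choose K hK using h1
  refine ⟨(Finset.range n).sup K, fun i hi => ?_⟩
  unfold Ms
  apply Finset.sum_eq_zero
  intro j hj
  rw [if_neg]
  exact hK j i ((Finset.le_sup hj).trans hi)

/-- structure lemma: a level that carries almost everything -/
lemma level_struct (h : TP n x t) (hT : ∀ b i, 1 ≤ i → Test n x t b i)
    (hm : ∀ b, 498 / 1000 ≤ Ms n x t (Lev b 1)) :
    ∃ i, 1 ≤ i ∧ ∀ b, 485 / 1000 ≤ Ms n x t (Ex b i) ∧ Ms n x t (Lev b (i+1)) ≤ 43 / 10000 ∧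
      Ms n x t (Lev b i) = Ms n x t (Ex b i) + Ms n x t (Lev b (i+1)) := by
  classical
  have hex : ∃ i, ∀ b, Ms n x t (Lev b (i + 1)) < 1 / 4 := by
    obtain ⟨K1, h1⟩ := exists_big n x t true
    obtain ⟨K2, h2⟩ := exists_big n x t false
    refine ⟨K1 + K2, fun b => ?_⟩
    cases b
    · rw [h2 _ (by omega)]; norm_num
    · rw [h1 _ (by omega)]; norm_num
  obtain ⟨i, hi, hmin⟩ : ∃ i, (∀ b, Ms n x t (Lev b (i + 1)) < 1 / 4) ∧ ∀ j < i, ¬ (∀ b, Ms n x t (Lev b (j + 1)) < 1 / 4) :=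
    ⟨Nat.find hex, Nat.find_spec hex, fun j hj => Nat.find_min hex hj⟩
  have hi1 : 1 ≤ i := by
    by_contra h0
    have h0' : i = 0 := by omega
    have := hi true
    rw [h0', zero_add] at this
    linarith [hm true]
  obtain ⟨b0, hb0⟩ : ∃ b, 1 / 4 ≤ Ms n x t (Lev b i) := by
    have := hmin (i - 1) (by omega)
    push Not at this
    rw [show i - 1 + 1 = i by omega] at this
    exact this
  have hdec1 : ∀ b, Ms n x t (Lev b 1) = Ms n x t (Low b i) + Ms n x t (Lev b i) :=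
    fun b => Ms_add n x t (Lev_one_iff b i hi1) (fun s hs => Low_not_Lev hs)
  have hdec2 : ∀ b, Ms n x t (Lev b i) = Ms n x t (Ex b i) + Ms n x t (Lev b (i+1)) :=
    fun b => Ms_add n x t (Lev_succ b i) (fun s hs => Ex_not_Lev hs)
  have hlow : ∀ b b', 1 / 4 ≤ Ms n x t (Lev b i) → Ms n x t (Low b' i) ≤ 81 / 10000 := by
    intro b b' hb
    obtain ⟨Q, hQ1, hQ2⟩ := low_card b' i
    have := h.test b i (hT b i hi1) (Low b' i) (fun s hs => Low_not_Lev hs) Q hQ1 (1 / 999) hQ2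
    by_contra hcon
    push Not at hcon
    nlinarith
  have hlev : ∀ b', 4899 / 10000 ≤ Ms n x t (Lev b' i) := by
    intro b'
    have h1 := hlow b0 b' hb0
    have h2 := hdec1 b'
    have h3 := hm b'
    linarith
  have hex1 : ∀ b, 2399 / 10000 ≤ Ms n x t (Ex b i) := by
    intro b
    have h1 := hdec2 b
    have h2 := hi b
    have h3 := hlev b
    linarith
  have hhigh : ∀ b, Ms n x t (Lev b (i+1)) ≤ 43 / 10000 := by
    intro b
    obtain ⟨Q, hQ1, hQ2⟩ := ex_card b i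
    have h1 := h.test b (i+1) (hT b (i+1) (by omega)) (Ex b i) (fun s hs => Ex_not_Lev hs) Q hQ1 (1 / 1000) hQ2
    have h2 := hex1 b
    by_contra hcon
    push Not at hcon
    nlinarith
  refine ⟨i, hi1, fun b => ⟨?_, hhigh b, hdec2 b⟩⟩
  have h1 := hdec2 b
  have h2 := hhigh b
  have h3 := hlev b
  linarith

end Pool.Agent.S04362
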