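import Pool.Agent.H9.X3

set_option autoImplicit false
open Set Filter Topology

namespace Pool.Agent.S04362

variable {n : ℕ} {x t : ℕ → ℝ}

noncomputable def cl (l r y : ℝ) : ℝ := max l (min y r)

lemma cl_step (l r l' a b : ℝ) (h1 : l ≤ r) (h2 : r ≤ l') (hab : a ≤ b) :
    cl l r b - cl l r a ≤ (min b l' - min b l) - (min a l' - min a l) := by
  unfold cl
  simp only [max_def, min_def]
  split_ifs <;> linarith

lemma cl_mono (l r : ℝ) {a b : ℝ} (hab : a ≤ b) : cl l r a ≤ cl l r b :=
  max_le_max le_rfl (min_le_min hab le_rfl)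

lemma cl_lip (l r : ℝ) {a b : ℝ} (hab : a ≤ b) : cl l r b - cl l r a ≤ b - a := by
  unfold cl; simp only [max_def, min_def]; split_ifs <;> linarith

lemma cl_sum (l r : ℕ → ℝ) (h1 : ∀ p, l p ≤ r p) (h2 : ∀ p, r p ≤ l (p+1)) {a b : ℝ} (hab : a ≤ b) (H : ℕ) :
    ∑ p ∈ Finset.range H, (cl (l p) (r p) b - cl (l p) (r p) a) ≤ min b (l H) - min a (l H) := by
  induction H with
  | zero =>
    have : min a (l 0) ≤ min b (l 0) := min_le_min hab le_rfl
    simp only [Finset.range_zero, Finset.sum_empty]
    linarith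
  | succ H ih =>
    rw [Finset.sum_range_succ]
    have := cl_step (l H) (r H) (l (H+1)) a b (h1 H) (h2 H) hab
    linarith

lemma dig_sep (b : Bool) (c p : ℕ) (h : ¬ (b = true ∧ c = 2 * p)) (h' : ¬ (b = false ∧ c = 2 * p + 1)) :
    10 * c + dig b c < 10 * (2 * p) + dig true (2 * p) ∨
      10 * (2 * p + 1) + dig false (2 * p + 1) < 10 * c + dig b c := by
  unfold dig
  cases b
  · simp at h h' ⊢
    split_ifs <;> omega
  · simp at h h' ⊢
    split_ifs <;> omega

lemma gap_le (h : TP n x t) (i : ℕ) (p : ℕ) (hp : 2 * p + 1 < 1000 ^ i)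
    (hu1 : ∃ j, j < n ∧ t j = pt true i (2*p)) (hu2 : ∃ j, j < n ∧ t j = pt false i (2*p+1))
    (D : ℕ → Prop) [DecidablePred D] (hD : ∀ j, D j ↔ ∀ b, ¬ Ex b i (t j)) 
    (D1 : ℕ → Prop) [DecidablePred D1] (hD1 : ∀ j, D1 j ↔ t j = pt true i (2*p)) 
    (D2 : ℕ → Prop) [DecidablePred D2] (hD2 : ∀ j, D2 j ↔ t j = pt false i (2*p+1)) :
    pt false i (2*p+1) - pt true i (2*p) ≤
      ∑ j ∈ Finset.range n, (if D1 j then x (j+1) - x j else 0)
      + ∑ j ∈ Finset.range n, (if D2 j then x (j+1) - x j else 0)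
      + ∑ j ∈ Finset.range n, (if D j then
          cl (pt true i (2*p)) (pt false i (2*p+1)) (x (j+1)) - cl (pt true i (2*p)) (pt false i (2*p+1)) (x j) else 0) := by
  set l := pt true i (2*p) with hl
  set r := pt false i (2*p+1) with hr
  have hN : (0:ℝ) < 10 * 1000 ^ i := by positivity
  have hl0 : 0 ≤ l := by rw [hl]; unfold pt; positivity
  have hlr : l ≤ r := by
    rw [hl, hr]; unfold pt
    apply div_le_div_of_nonneg_right _ hN.le
    have := dig_pos true (2 * p)
    exact_mod_cast (by omega : 10 * (2 * p) + dig true (2 * p) ≤ 10 * (2 * p + 1) + dig false (2 * p + 1))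
  have hr1 : r ≤ 1 := by
    rw [hr]; unfold pt
    rw [div_le_one hN]
    have := dig_pos false (2 * p + 1)
    exact_mod_cast (by omega : 10 * (2 * p + 1) + dig false (2 * p + 1) ≤ 10 * 1000 ^ i)
  have htel : ∑ j ∈ Finset.range n, (cl l r (x (j+1)) - cl l r (x j)) = r - l := by
    rw [Finset.sum_range_sub (fun j => cl l r (x j)), h.h0, h.h1]
    unfold cl
    rw [min_eq_right hr1, max_eq_right hlr, min_eq_left (hl0.trans hlr), max_eq_left hl0]
  rw [← htel, ← Finset.sum_add_distrib, ← Finset.sum_add_distrib]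
  apply Finset.sum_le_sum
  intro j hj
  have hj' := Finset.mem_range.mp hj
  have hw := h.lt j hj'
  have hlip := cl_lip l r hw.le
  have hmono := cl_mono l r hw.le
  have n1 : 0 ≤ (if D1 j then x (j+1) - x j else 0) := by split_ifs <;> linarith
  have n2 : 0 ≤ (if D2 j then x (j+1) - x j else 0) := by split_ifs <;> linarith
  have n3 : 0 ≤ (if D j then cl l r (x (j+1)) - cl l r (x j) else 0) := by split_ifs <;> linarith
  by_cases c1 : t j = l
  · rw [if_pos ((hD1 j).mpr c1)]; linarith
  by_cases c2 : t j = r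
  · rw [if_pos ((hD2 j).mpr c2)]; linarith
  by_cases c3 : ∀ b, ¬ Ex b i (t j)
  · rw [if_pos ((hD j).mpr c3)]; linarith
  have hzero : cl l r (x (j+1)) - cl l r (x j) = 0 := by
    push Not at c3
    obtain ⟨b, c, hc, htc⟩ := c3
    have s1 : ¬ (b = true ∧ c = 2 * p) := by
      rintro ⟨rfl, rfl⟩; exact c1 htc
    have s2 : ¬ (b = false ∧ c = 2 * p + 1) := by
      rintro ⟨rfl, rfl⟩; exact c2 htc
    rcases dig_sep b c p s1 s2 with hs | hs
    · have hlt : t j < l := by
        rw [htc, hl]; unfold pt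
        apply div_lt_div_of_pos_right _ hN
        exact_mod_cast hs
      obtain ⟨j', hj1, hj2⟩ := hu1
      have hle : x (j+1) ≤ l := by
        by_contra hcon
        push Not at hcon
        have e1 := h.tl j hj'
        have := h.interior hj1 hj' (lt_of_le_of_lt e1 hlt) hcon (hj2 ▸ h.tl j' hj1) (hj2 ▸ h.tr j' hj1)
        subst this
        exact c1 hj2
      unfold cl
      rw [max_eq_left ((min_le_left _ _).trans hle), max_eq_left ((min_le_left _ _).trans (hw.le.trans hle)), sub_self]
    · have hgt : r < t j := by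
        rw [htc, hr]; unfold pt
        apply div_lt_div_of_pos_right _ hN
        exact_mod_cast hs
      obtain ⟨j', hj1, hj2⟩ := hu2
      have hle : r ≤ x j := by
        by_contra hcon
        push Not at hcon
        have e1 := h.tr j hj'
        have := h.interior hj1 hj' hcon (lt_of_lt_of_le hgt e1) (hj2 ▸ h.tl j' hj1) (hj2 ▸ h.tr j' hj1)
        subst this
        exact c2 hj2
      unfold cl
      rw [min_eq_right hle, min_eq_right (hle.trans hw.le), sub_self]
  linarith

lemma floor_pt' (b : Bool) (i c : ℕ) : ⌊pt b i c * 1000 ^ i⌋₊ = c := by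
  have := floor_pt b i 0 c
  simpa using this

open Classical in
lemma bad_card (h : TP n x t) (b : Bool) (i H d : ℕ) (hd : d ≤ 1) (hH : 1000 ^ i = 2 * H) (hT : Test n x t b i)
    (h1 : 485 / 1000 ≤ Ms n x t (Ex b i)) (h2 : Ms n x t (Lev b (i+1)) ≤ 43 / 10000)
    (h3 : Ms n x t (Lev b i) = Ms n x t (Ex b i) + Ms n x t (Lev b (i+1))) :
    (((Finset.range H).filter (fun p => ¬ ∃ j, j < n ∧ t j = pt b i (2 * p + d))).card : ℝ) ≤ 11 / 1000 * 1000 ^ i := by
  set B := (Finset.range H).filter (fun p => ¬ ∃ j, j < n ∧ t j = pt b i (2 * p + d)) with hB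
  have hinj : Function.Injective (fun p : ℕ => 2 * p + d) := by
    intro a b hab; simp at hab; exact hab
  have hS : B.image (fun p => 2 * p + d) ⊆ Finset.range (1000 ^ i) := by
    intro c hc
    rw [Finset.mem_image] at hc
    obtain ⟨p, hp, rfl⟩ := hc
    have := Finset.mem_range.mp (Finset.mem_filter.mp hp).1
    rw [Finset.mem_range, hH]; omega
  have hc : (B.image (fun p => 2 * p + d)).card = B.card := Finset.card_image_of_injective _ hinj
  have ht := hT _ hS
  rw [hc] at ht
  have hle : Ms n x t (fun s => Lev b i s ∧ ⌊s * 1000 ^ i⌋₊ ∈ B.image (fun p => 2 * p + d)) ≤ Ms n x t (Lev b (i+1)) := by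
    apply Ms_mono h
    rintro j hj ⟨hL, hfl⟩
    rcases (Lev_succ b i _).mp hL with hE | hE
    · exfalso
      obtain ⟨c, hc1, hc2⟩ := hE
      rw [hc2, floor_pt', Finset.mem_image] at hfl
      obtain ⟨p, hp, hpc⟩ := hfl
      apply (Finset.mem_filter.mp hp).2
      exact ⟨j, hj, by rw [hc2, ← hpc]⟩
    · exact hE
  have h4 := (abs_le.mp ht).1
  have hpos : (0:ℝ) < 1000 ^ i := by positivity
  have hq0 : 0 ≤ (B.card : ℝ) / 1000 ^ i := by positivity
  have hm := Ms_nonneg h (Lev b (i+1))
  have h5 : (B.card : ℝ) / 1000 ^ i ≤ 11 / 1000 := by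
    by_contra hcon
    push Not at hcon
    nlinarith
  rw [div_le_iff₀ hpos] at h5
  exact h5

open Classical in
lemma used_sum (h : TP n x t) (b : Bool) (i H d : ℕ) (hd : d ≤ 1) (hH : 1000 ^ i = 2 * H) (hT : Test n x t b i)
    (G : Finset ℕ) (hG : G ⊆ Finset.range H) :
    ∑ p ∈ G, ∑ j ∈ Finset.range n, (if t j = pt b i (2 * p + d) then x (j+1) - x j else 0) ≤
      1 / 2 * Ms n x t (Lev b i) + 1 / 1000 := by
  have hinj : Function.Injective (fun p : ℕ => 2 * p + d) := by
    intro a b hab; simp at hab; exact hab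
  have hS : (Finset.range H).image (fun p => 2 * p + d) ⊆ Finset.range (1000 ^ i) := by
    intro c hc
    rw [Finset.mem_image] at hc
    obtain ⟨p, hp, rfl⟩ := hc
    have := Finset.mem_range.mp hp
    rw [Finset.mem_range, hH]; omega
  have hc : ((Finset.range H).image (fun p => 2 * p + d)).card = H := by
    rw [Finset.card_image_of_injective _ hinj, Finset.card_range]
  have ht := hT _ hS
  rw [hc] at ht
  have hhalf : (H : ℝ) / 1000 ^ i = 1 / 2 := by
    have : (1000:ℝ) ^ i = 2 * H := by exact_mod_cast hH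
    have hpos : (0:ℝ) < 1000 ^ i := by positivity
    rw [div_eq_iff hpos.ne', this]; ring
  rw [hhalf] at ht
  have h4 := (abs_le.mp ht).2
  refine le_trans ?_ (show Ms n x t (fun s => Lev b i s ∧ ⌊s * 1000 ^ i⌋₊ ∈ (Finset.range H).image (fun p => 2 * p + d)) ≤ _ by linarith)
  rw [Finset.sum_comm]
  unfold Ms
  apply Finset.sum_le_sum
  intro j hj
  have hj' := Finset.mem_range.mp hj
  have hw := h.lt j hj'
  by_cases hex : ∃ p ∈ G, t j = pt b i (2 * p + d)
  · obtain ⟨p, hp, htp⟩ := hex
    rw [Finset.sum_eq_single p]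
    · rw [if_pos htp, if_pos]
      have hpH := Finset.mem_range.mp (hG hp)
      refine ⟨⟨i, le_rfl, 2 * p + d, by omega, htp⟩, ?_⟩
      rw [htp, floor_pt']
      exact Finset.mem_image_of_mem _ (hG hp)
    · intro q hq hqp
      rw [if_neg]
      intro hc
      rw [htp] at hc
      have := (pt_unique hc).2.1
      omega
    · intro hnp; exact absurd hp hnp
  · rw [Finset.sum_eq_zero]
    · split_ifs <;> linarith
    · intro p hp
      rw [if_neg]
      intro hc
      exact hex ⟨p, hp, hc⟩

lemma core (h : TP n x t) (hT : ∀ b i, 1 ≤ i → Test n x t b i)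
    (hm : ∀ b, 498 / 1000 ≤ Ms n x t (Lev b 1)) : False := by
  classical
  obtain ⟨i, hi, hst⟩ := level_struct h hT hm
  obtain ⟨H, hH⟩ : ∃ H, 1000 ^ i = 2 * H := by
    refine ⟨500 * 1000 ^ (i - 1), ?_⟩
    obtain ⟨m, rfl⟩ := Nat.exists_eq_add_of_le hi
    rw [show 1 + m - 1 = m by omega, pow_add]; ring
  set G := (Finset.range H).filter (fun p => (∃ j, j < n ∧ t j = pt true i (2 * p + 0)) ∧ (∃ j, j < n ∧ t j = pt false i (2 * p + 1))) with hG
  have hGs : G ⊆ Finset.range H := Finset.filter_subset _ _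
  have hb1 := bad_card h true i H 0 (by norm_num) hH (hT true i hi) (hst true).1 (hst true).2.1 (hst true).2.2
  have hb2 := bad_card h false i H 1 (by norm_num) hH (hT false i hi) (hst false).1 (hst false).2.1 (hst false).2.2
  set B1 := (Finset.range H).filter (fun p => ¬ ∃ j, j < n ∧ t j = pt true i (2 * p + 0)) with hB1
  set B2 := (Finset.range H).filter (fun p => ¬ ∃ j, j < n ∧ t j = pt false i (2 * p + 1)) with hB2
  have hcardG : H ≤ G.card + B1.card + B2.card := by
    have hsub : Finset.range H ⊆ (G ∪ B1) ∪ B2 := by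
      intro p hp
      simp only [hG, hB1, hB2, Finset.mem_union, Finset.mem_filter]
      by_cases q1 : ∃ j, j < n ∧ t j = pt true i (2 * p + 0)
      · by_cases q2 : ∃ j, j < n ∧ t j = pt false i (2 * p + 1)
        · exact Or.inl (Or.inl ⟨hp, q1, q2⟩)
        · exact Or.inr ⟨hp, q2⟩
      · exact Or.inl (Or.inr ⟨hp, q1⟩)
    have := Finset.card_le_card hsub
    rw [Finset.card_range] at this
    have h1 := Finset.card_union_le (G ∪ B1) B2
    have h2 := Finset.card_union_le G B1
    omega
  have hu1 := used_sum h true i H 0 (by norm_num) hH (hT true i hi) G hGs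
  have hu2 := used_sum h false i H 1 (by norm_num) hH (hT false i hi) G hGs
  have hN : (0:ℝ) < 1000 ^ i := by positivity
  have hgap : ∀ p ∈ G, 16 / (10 * (1000:ℝ) ^ i) ≤
      ∑ j ∈ Finset.range n, (if t j = pt true i (2 * p + 0) then x (j+1) - x j else 0)
      + ∑ j ∈ Finset.range n, (if t j = pt false i (2*p+1) then x (j+1) - x j else 0)
      + ∑ j ∈ Finset.range n, (if (∀ b, ¬ Ex b i (t j)) then
          cl (pt true i (2*p)) (pt false i (2*p+1)) (x (j+1)) - cl (pt true i (2*p)) (pt false i (2*p+1)) (x j) else 0) := by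
    intro p hp
    have hp' := Finset.mem_filter.mp hp
    have hpH := Finset.mem_range.mp hp'.1
    have := gap_le h i p (by omega) hp'.2.1 hp'.2.2 (fun j => ∀ b, ¬ Ex b i (t j)) (fun j => Iff.rfl)
      (fun j => t j = pt true i (2 * p + 0)) (fun j => Iff.rfl) (fun j => t j = pt false i (2 * p + 1)) (fun j => Iff.rfl)
    refine le_trans (le_of_eq ?_) this
    have d1 : dig true (2 * p) = 2 := by unfold dig; simp
    have d2 : dig false (2 * p + 1) = 8 := by
      unfold dig
      rw [if_neg (by omega)]; simp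
    unfold pt
    rw [d1, d2, ← sub_div]
    congr 1
    push_cast; ring
  have hsum := Finset.sum_le_sum hgap
  rw [Finset.sum_const, nsmul_eq_mul, Finset.sum_add_distrib, Finset.sum_add_distrib] at hsum
  have hC : ∑ p ∈ G, ∑ j ∈ Finset.range n, (if (∀ b, ¬ Ex b i (t j)) then
          cl (pt true i (2*p)) (pt false i (2*p+1)) (x (j+1)) - cl (pt true i (2*p)) (pt false i (2*p+1)) (x j) else 0)
        ≤ Ms n x t (fun s => ∀ b, ¬ Ex b i s) := by
    rw [Finset.sum_comm]
    unfold Ms
    apply Finset.sum_le_sum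
    intro j hj
    have hj' := Finset.mem_range.mp hj
    have hw := h.lt j hj'
    by_cases hO : ∀ b, ¬ Ex b i (t j)
    · simp only [if_pos hO]
      refine le_trans (Finset.sum_le_sum_of_subset_of_nonneg hGs ?_) ?_
      · intro p _ _
        linarith [cl_mono (pt true i (2*p)) (pt false i (2*p+1)) hw.le]
      · refine le_trans (cl_sum (fun p => pt true i (2*p)) (fun p => pt false i (2*p+1)) ?_ ?_ hw.le H) ?_
        · intro p
          show pt true i (2 * p) ≤ pt false i (2 * p + 1)
          unfold pt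
          apply div_le_div_of_nonneg_right _ (by positivity)
          have := dig_pos true (2 * p)
          exact_mod_cast (by omega : 10 * (2 * p) + dig true (2 * p) ≤ 10 * (2 * p + 1) + dig false (2 * p + 1))
        · intro p
          show pt false i (2 * p + 1) ≤ pt true i (2 * (p + 1))
          unfold pt
          apply div_le_div_of_nonneg_right _ (by positivity)
          have := dig_pos false (2 * p + 1)
          exact_mod_cast (by omega : 10 * (2 * p + 1) + dig false (2 * p + 1) ≤ 10 * (2 * (p + 1)) + dig true (2 * (p + 1)))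
        · simp only [min_def]
          split_ifs <;> linarith
    · simp only [if_neg hO, Finset.sum_const_zero]
      exact le_rfl
  have hO1 : Ms n x t (fun _ => True) = Ms n x t (fun s => ∃ b, Ex b i s) + Ms n x t (fun s => ∀ b, ¬ Ex b i s) := by
    apply Ms_add
    · intro s
      constructor
      · intro _
        by_cases hh : ∃ b, Ex b i s
        · exact Or.inl hh
        · right; push Not at hh; exact hh
      · intro _; trivial
    · rintro s ⟨b, hb⟩ hn
      exact hn b hb
  have hO2 : Ms n x t (fun s => ∃ b, Ex b i s) = Ms n x t (Ex true i) + Ms n x t (Ex false i) := by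
    apply Ms_add
    · intro s
      constructor
      · rintro ⟨b, hb⟩
        cases b
        · exact Or.inr hb
        · exact Or.inl hb
      · rintro (hb | hb)
        · exact ⟨_, hb⟩
        · exact ⟨_, hb⟩
    · rintro s ⟨c, hc, hs⟩ ⟨c', hc', hs'⟩
      rw [hs] at hs'
      exact absurd (pt_unique hs').2.2 (by simp)
  rw [Ms_true h] at hO1
  have hOn := Ms_nonneg h (fun s => ∀ b, ¬ Ex b i s)
  obtain ⟨a1, a2, a3⟩ := hst true
  obtain ⟨a4, a5, a6⟩ := hst false
  have hcG : (H : ℝ) ≤ G.card + B1.card + B2.card := by exact_mod_cast hcardG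
  have hHr : (1000:ℝ) ^ i = 2 * H := by exact_mod_cast hH
  have hfin : 478 / 1000 * 1000 ^ i ≤ (G.card : ℝ) := by linarith
  have hl : 7 / 10 ≤ (G.card : ℝ) * (16 / (10 * (1000:ℝ) ^ i)) := by
    rw [← mul_div_assoc, le_div_iff₀ (by positivity)]
    linarith
  linarith

end Pool.Agent.S04362
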