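import Pool.Agent.H9.X4

set_option autoImplicit false
open Set Filter Topology

namespace Pool.Agent.S04362

abbrev Idx := Option (Option (ℕ × Finset ℕ × Bool))

open Classical in
noncomputable def Fv (s : ℝ) : Idx → ℝ
  | none => if (Lev false 1 s ∨ Lev true 1 s) then 0 else 1
  | some none => if Lev true 1 s then 1 else 0
  | some (some (i, S, b)) => if (1 ≤ i ∧ S ⊆ Finset.range (1000 ^ i) ∧ Lev b i s) then
       ((if ⌊s * 1000 ^ i⌋₊ ∈ S then 1 else 0) - (S.card : ℝ) / 1000 ^ i) else 0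

lemma Lev_bound (s : ℝ) : ∃ K : ℕ, ∀ b i, Lev b i s → i ≤ K := by
  by_cases hj : ∃ b k, Ex b k s
  · obtain ⟨b, k, hk⟩ := hj
    exact ⟨k, fun b' i h => (Ex_Lev_disj hk h).2⟩
  · refine ⟨0, fun b i h => ?_⟩
    obtain ⟨k, _, h⟩ := h
    exact absurd ⟨b, k, h⟩ hj

lemma Fv_supp (s : ℝ) : {a | Fv s a ≠ 0}.Finite := by
  obtain ⟨K, hK⟩ := Lev_bound s
  have hfin : (({none, some none} : Set Idx) ∪ (fun q : ℕ × Finset ℕ × Bool => (some (some q) : Idx)) ''
      ((Set.Iic K) ×ˢ (((Finset.range (1000 ^ K)).powerset : Set (Finset ℕ)) ×ˢ (Set.univ : Set Bool)))).Finite := by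
    apply Set.Finite.union
    · exact (Set.finite_singleton _).insert _
    · apply Set.Finite.image
      exact (Set.finite_Iic K).prod ((Finset.finite_toSet _).prod Set.finite_univ)
  refine hfin.subset ?_
  intro a ha
  rcases a with _ | _ | ⟨i, S, b⟩
  · left; simp
  · left; simp
  · right
    refine ⟨(i, S, b), ?_, rfl⟩
    by_cases hc : (1 ≤ i ∧ S ⊆ Finset.range (1000 ^ i) ∧ Lev b i s)
    · have hiK := hK b i hc.2.2
      refine ⟨hiK, ?_, trivial⟩
      show S ∈ (((Finset.range (1000 ^ K)).powerset : Finset (Finset ℕ)) : Set (Finset ℕ))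
      rw [Finset.mem_coe, Finset.mem_powerset]
      refine hc.2.1.trans ?_
      intro c hc'
      rw [Finset.mem_range] at hc' ⊢
      exact hc'.trans_le (Nat.pow_le_pow_right (by norm_num) hiK)
    · exfalso
      apply ha
      show Fv s (some (some (i, S, b))) = 0
      simp only [Fv]
      rw [if_neg hc]

lemma Fv_bound (s : ℝ) (a : Idx) : |Fv s a| ≤ 1 := by
  rcases a with _ | _ | ⟨i, S, b⟩
  · simp only [Fv]; split_ifs <;> simp
  · simp only [Fv]; split_ifs <;> simp
  · simp only [Fv]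
    by_cases hc : (1 ≤ i ∧ S ⊆ Finset.range (1000 ^ i) ∧ Lev b i s)
    · rw [if_pos hc]
      have h1 : S.card ≤ 1000 ^ i := by
        have := Finset.card_le_card hc.2.1
        rwa [Finset.card_range] at this
      have h2 : (S.card : ℝ) ≤ 1000 ^ i := by exact_mod_cast h1
      have hpos : (0:ℝ) < 1000 ^ i := by positivity
      have h3 : (S.card : ℝ) / 1000 ^ i ≤ 1 := by rw [div_le_one hpos]; exact h2
      have h4 : 0 ≤ (S.card : ℝ) / 1000 ^ i := by positivity
      rw [abs_le]
      split_ifs <;> constructor <;> linarith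
    · rw [if_neg hc]; simp

noncomputable def mk (g : Idx → ℝ) (hg : {a | g a ≠ 0}.Finite) : ZeroAtInftyContinuousMap ℕ ℝ where
  toFun n := (Encodable.decode₂ Idx n).elim 0 g
  continuous_toFun := continuous_of_discreteTopology
  zero_at_infty' := by
    have hfin : {n : ℕ | (Encodable.decode₂ Idx n).elim 0 g ≠ 0}.Finite := by
      refine (hg.image Encodable.encode).subset ?_
      intro n hn
      simp only [Set.mem_ofPred_eq] at hn
      cases hd : Encodable.decode₂ Idx n with
      | none => rw [hd] at hn; exact absurd rfl hn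
      | some a =>
        rw [hd] at hn
        refine ⟨a, hn, ?_⟩
        exact Encodable.mem_decode₂.mp hd
    rw [Filter.cocompact_eq_cofinite]
    apply Tendsto.congr' (f₁ := fun _ => (0:ℝ)) _ tendsto_const_nhds
    rw [Filter.EventuallyEq, Filter.eventually_cofinite]
    refine hfin.subset ?_
    intro n hn
    simp only [Set.mem_ofPred_eq] at hn ⊢
    exact fun h => hn h.symm

lemma mk_encode (g : Idx → ℝ) (hg : {a | g a ≠ 0}.Finite) (a : Idx) : mk g hg (Encodable.encode a) = g a := by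
  show (Encodable.decode₂ Idx (Encodable.encode a)).elim 0 g = g a
  rw [Encodable.encodek₂]; rfl

lemma mk_none (g : Idx → ℝ) (hg : {a | g a ≠ 0}.Finite) (n : ℕ) (hn : Encodable.decode₂ Idx n = none) : mk g hg n = 0 := by
  show (Encodable.decode₂ Idx n).elim 0 g = 0
  rw [hn]; rfl

noncomputable def ff (s : ℝ) : ZeroAtInftyContinuousMap ℕ ℝ := mk (Fv s) (Fv_supp s)

lemma abs_apply_le (f : ZeroAtInftyContinuousMap ℕ ℝ) (n : ℕ) : |f n| ≤ ‖f‖ := by
  have := f.toBCF.norm_coe_le_norm n
  rw [ZeroAtInftyContinuousMap.norm_toBCF_eq_norm] at this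
  exact this

lemma ff_norm (s : ℝ) : ‖ff s‖ ≤ 1 := by
  rw [← ZeroAtInftyContinuousMap.norm_toBCF_eq_norm]
  rw [BoundedContinuousFunction.norm_le (by norm_num)]
  intro n
  show ‖ff s n‖ ≤ 1
  cases hd : Encodable.decode₂ Idx n with
  | none => rw [show ff s n = 0 from mk_none _ _ n hd]; simp
  | some a =>
    have hn : Encodable.encode a = n := Encodable.mem_decode₂.mp hd
    rw [← hn, show ff s (Encodable.encode a) = Fv s a from mk_encode _ _ a]
    exact Fv_bound s a

lemma sum_apply (n : ℕ) (g : ℕ → ZeroAtInftyContinuousMap ℕ ℝ) (m : ℕ) :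
    (∑ j ∈ Finset.range n, g j) m = ∑ j ∈ Finset.range n, g j m := by
  induction n with
  | zero => simp
  | succ n ih => rw [Finset.sum_range_succ, Finset.sum_range_succ, ← ih]; rfl

lemma count_lem (i m : ℕ) (S : Finset ℕ) (hS : S ⊆ Finset.range (1000 ^ i)) :
    ((Finset.range (1000 ^ (i + m))).filter (fun c => c / 1000 ^ m ∈ S)).card = S.card * 1000 ^ m := by
  have hMpos : 0 < 1000 ^ m := by positivity
  rw [Finset.card_eq_sum_card_fiberwise (f := fun c => c / 1000 ^ m) (t := S)]
  · rw [Finset.sum_const_nat (m := 1000 ^ m)]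
    intro q hq
    have hq' := Finset.mem_range.mp (hS hq)
    have : ((Finset.range (1000 ^ (i + m))).filter (fun c => c / 1000 ^ m ∈ S)).filter (fun c => c / 1000 ^ m = q)
        = Finset.Ico (q * 1000 ^ m) ((q + 1) * 1000 ^ m) := by
      ext c
      simp only [Finset.mem_filter, Finset.mem_range, Finset.mem_Ico]
      rw [Nat.div_eq_iff hMpos]
      constructor
      · rintro ⟨_, h1, h2⟩
        exact ⟨h1, by rw [add_mul, one_mul]; omega⟩
      · rintro ⟨h1, h2⟩
        have h3 : c / 1000 ^ m = q := by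
          rw [Nat.div_eq_iff hMpos]
          rw [add_mul, one_mul] at h2
          exact ⟨h1, by omega⟩
        refine ⟨⟨?_, by rw [h3]; exact hq⟩, h1, ?_⟩
        · rw [pow_add]
          exact h2.trans_le (Nat.mul_le_mul_right _ (by omega))
        · rw [add_mul, one_mul] at h2; omega
    rw [this, Nat.card_Ico, add_mul, one_mul]
    omega
  · intro c hc
    exact (Finset.mem_filter.mp hc).2

lemma Fv_sum (b : Bool) (L : ℕ) (hL : 1 ≤ L) (a : Idx) :
    ∑ c ∈ Finset.range (1000 ^ L), (1 / (1000:ℝ) ^ L) * Fv (pt b L c) a = if (a = some none ∧ b = true) then 1 else 0 := by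
  have hpos : (0:ℝ) < 1000 ^ L := by positivity
  have hLev : ∀ c ∈ Finset.range (1000 ^ L), ∀ i ≤ L, Lev b i (pt b L c) :=
    fun c hc i hi => ⟨L, hi, c, Finset.mem_range.mp hc, rfl⟩
  have hnLev : ∀ c ∈ Finset.range (1000 ^ L), ∀ b' i, Lev b' i (pt b L c) → b = b' ∧ i ≤ L :=
    fun c hc b' i h => Ex_Lev_disj ⟨c, Finset.mem_range.mp hc, rfl⟩ h
  rcases a with _ | _ | ⟨i, S, b'⟩
  · rw [if_neg (by simp)]
    apply Finset.sum_eq_zero
    intro c hc
    simp only [Fv]
    rw [if_pos, mul_zero]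
    cases b
    · exact Or.inl (hLev c hc 1 hL)
    · exact Or.inr (hLev c hc 1 hL)
  · cases b
    · rw [if_neg (by simp)]
      apply Finset.sum_eq_zero
      intro c hc
      simp only [Fv]
      rw [if_neg, mul_zero]
      intro h
      exact absurd (hnLev c hc _ _ h).1 (by simp)
    · rw [if_pos (by simp)]
      rw [Finset.sum_congr rfl (g := fun _ => 1 / (1000:ℝ) ^ L)]
      · rw [Finset.sum_const, Finset.card_range, nsmul_eq_mul]
        push_cast
        field_simp
      · intro c hc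
        simp only [Fv]
        rw [if_pos (hLev c hc 1 hL), mul_one]
  · rw [if_neg (by simp)]
    by_cases hc : 1 ≤ i ∧ S ⊆ Finset.range (1000 ^ i) ∧ i ≤ L ∧ b = b'
    · obtain ⟨h1, h2, h3, rfl⟩ := hc
      obtain ⟨m, rfl⟩ := Nat.exists_eq_add_of_le h3
      rw [Finset.sum_congr rfl (g := fun c => (1 / (1000:ℝ) ^ (i + m)) * ((if c / 1000 ^ m ∈ S then 1 else 0) - (S.card : ℝ) / 1000 ^ i))]
      · rw [← Finset.mul_sum, Finset.sum_sub_distrib, Finset.sum_const, Finset.card_range, nsmul_eq_mul,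
          ← Finset.sum_filter, Finset.sum_const, count_lem i m S h2, nsmul_eq_mul]
        push_cast
        rw [pow_add]
        field_simp
        ring
      · intro c hc
        simp only [Fv]
        rw [if_pos ⟨h1, h2, hLev c hc i h3⟩, floor_pt]
    · apply Finset.sum_eq_zero
      intro c hcc
      simp only [Fv]
      rw [if_neg, mul_zero]
      rintro ⟨h1, h2, h3⟩
      have := hnLev c hcc _ _ h3
      exact hc ⟨h1, h2, this.2, this.1⟩

lemma vv_supp (b : Bool) : {a : Idx | (if (a = some none ∧ b = true) then (1:ℝ) else 0) ≠ 0}.Finite := by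
  refine (Set.finite_singleton (some none : Idx)).subset ?_
  intro a ha
  simp only [Set.mem_ofPred_eq] at ha
  by_contra hne
  apply ha
  rw [if_neg]
  rintro ⟨h, _⟩
  exact hne h

noncomputable def vv (b : Bool) : ZeroAtInftyContinuousMap ℕ ℝ :=
  mk (fun a => if (a = some none ∧ b = true) then 1 else 0) (vv_supp b)

lemma riem (b : Bool) (k : ℕ) :
    ∑ i ∈ Finset.range (1000 ^ (k + 1)), (((i + 1 : ℕ) : ℝ) / 1000 ^ (k + 1) - (i : ℝ) / 1000 ^ (k + 1)) • ff (pt b (k + 1) i) = vv b := by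
  ext m
  rw [sum_apply]
  have hw : ∀ i : ℕ, (((i + 1 : ℕ) : ℝ) / 1000 ^ (k + 1) - (i : ℝ) / 1000 ^ (k + 1)) = 1 / 1000 ^ (k + 1) := by
    intro i
    rw [← sub_div]; congr 1; push_cast; ring
  cases hd : Encodable.decode₂ Idx m with
  | none =>
    rw [show vv b m = 0 from mk_none _ _ m hd]
    apply Finset.sum_eq_zero
    intro i _
    show (((i + 1 : ℕ) : ℝ) / 1000 ^ (k + 1) - (i : ℝ) / 1000 ^ (k + 1)) * ff (pt b (k + 1) i) m = 0
    rw [show ff (pt b (k + 1) i) m = 0 from mk_none _ _ m hd, mul_zero]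
  | some a =>
    have hn : Encodable.encode a = m := Encodable.mem_decode₂.mp hd
    rw [← hn, show vv b (Encodable.encode a) = _ from mk_encode _ _ a, ← Fv_sum b (k+1) (by omega) a]
    apply Finset.sum_congr rfl
    intro i _
    show (((i + 1 : ℕ) : ℝ) / 1000 ^ (k + 1) - (i : ℝ) / 1000 ^ (k + 1)) * ff (pt b (k + 1) i) (Encodable.encode a) = _
    rw [show ff (pt b (k + 1) i) (Encodable.encode a) = Fv (pt b (k + 1) i) a from mk_encode _ _ a, hw i]

end Pool.Agent.S04362
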