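import Pool.Agent.H9.X5

set_option autoImplicit false
open Set Filter Topology

namespace Pool.Agent.S04362

abbrev LimSet (f : ℝ → ZeroAtInftyContinuousMap ℕ ℝ) : Set (ZeroAtInftyContinuousMap ℕ ℝ) :=
  {v : ZeroAtInftyContinuousMap ℕ ℝ |
        ∃ (n : ℕ → ℕ) (x t : ℕ → ℕ → ℝ),
          (∀ k, x k 0 = 0 ∧ x k (n k) = 1 ∧
            (∀ i, i < n k → x k i < x k (i+1)) ∧
            (∀ i, i < n k → x k i ≤ t k i ∧ t k i ≤ x k (i+1))) ∧
          (∀ ε : ℝ, 0 < ε → ∃ K : ℕ, ∀ k, K ≤ k → ∀ i, i < n k → x k (i+1) - x k i < ε) ∧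
          Filter.Tendsto
            (fun k => ∑ i ∈ Finset.range (n k), (x k (i+1) - x k i) • f (t k i))
            Filter.atTop (nhds v)}

lemma vv_mem (b : Bool) : vv b ∈ LimSet ff := by
  refine ⟨fun k => 1000 ^ (k + 1), fun k i => (i : ℝ) / 1000 ^ (k + 1), fun k i => pt b (k + 1) i, ?_, ?_, ?_⟩
  · intro k
    have hpos : (0:ℝ) < 1000 ^ (k + 1) := by positivity
    refine ⟨by simp, ?_, ?_, ?_⟩
    · push_cast
      exact div_self hpos.ne'
    · intro i _
      apply div_lt_div_of_pos_right _ hpos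
      push_cast; linarith
    · intro i _
      have hd := dig_pos b i
      have h1 : (1:ℝ) ≤ (dig b i : ℝ) := by exact_mod_cast hd.1
      have h2 : (dig b i : ℝ) ≤ 9 := by exact_mod_cast hd.2
      unfold pt
      constructor
      · rw [div_le_div_iff₀ hpos (by positivity)]
        push_cast
        nlinarith
      · rw [div_le_div_iff₀ (by positivity) hpos]
        push_cast
        nlinarith
  · intro ε hε
    obtain ⟨K, hK⟩ := exists_pow_lt_of_lt_one hε (show (1/1000:ℝ) < 1 by norm_num)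
    refine ⟨K, fun k hk i _ => ?_⟩
    have hw : (((i + 1 : ℕ) : ℝ) / 1000 ^ (k + 1) - (i : ℝ) / 1000 ^ (k + 1)) = (1/1000:ℝ) ^ (k + 1) := by
      rw [← sub_div, one_div, inv_pow, inv_eq_one_div]; congr 1; push_cast; ring
    show (((i + 1 : ℕ) : ℝ) / 1000 ^ (k + 1) - (i : ℝ) / 1000 ^ (k + 1)) < ε
    rw [hw]
    refine lt_of_le_of_lt ?_ hK
    exact pow_le_pow_of_le_one (by norm_num) (by norm_num) (by omega)
  · have : (fun k : ℕ => ∑ i ∈ Finset.range (1000 ^ (k + 1)), (((i + 1 : ℕ) : ℝ) / 1000 ^ (k + 1) - (i : ℝ) / 1000 ^ (k + 1)) • ff (pt b (k + 1) i)) = fun _ => vv b :=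
      funext (fun k => riem b k)
    show Tendsto (fun k : ℕ => ∑ i ∈ Finset.range (1000 ^ (k + 1)), (((i + 1 : ℕ) : ℝ) / 1000 ^ (k + 1) - (i : ℝ) / 1000 ^ (k + 1)) • ff (pt b (k + 1) i)) atTop (nhds (vv b))
    rw [this]
    exact tendsto_const_nhds

lemma no_mid (n : ℕ) (x t : ℕ → ℝ) (h : TP n x t)
    (hk : ‖∑ i ∈ Finset.range n, (x (i+1) - x i) • ff (t i) - ((1/2:ℝ) • vv false + (1/2:ℝ) • vv true)‖ < 1 / 1000) : False := by
  classical
  have hcoord : ∀ a : Idx, |∑ j ∈ Finset.range n, (x (j+1) - x j) * Fv (t j) a - (if a = some none then 1 / 2 else 0)| ≤ 1 / 1000 := by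
    intro a
    have h1 := (abs_apply_le (∑ i ∈ Finset.range n, (x (i+1) - x i) • ff (t i) - ((1/2:ℝ) • vv false + (1/2:ℝ) • vv true)) (Encodable.encode a)).trans hk.le
    have h2 : (∑ i ∈ Finset.range n, (x (i+1) - x i) • ff (t i) - ((1/2:ℝ) • vv false + (1/2:ℝ) • vv true)) (Encodable.encode a)
        = ∑ j ∈ Finset.range n, (x (j+1) - x j) * Fv (t j) a - (if a = some none then 1 / 2 else 0) := by
      show (∑ i ∈ Finset.range n, (x (i+1) - x i) • ff (t i)) (Encodable.encode a) - ((1/2:ℝ) * vv false (Encodable.encode a) + (1/2:ℝ) * vv true (Encodable.encode a)) = _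
      rw [sum_apply, show vv false (Encodable.encode a) = _ from mk_encode _ _ a, show vv true (Encodable.encode a) = _ from mk_encode _ _ a]
      congr 1
      · apply Finset.sum_congr rfl
        intro j _
        show (x (j+1) - x j) * ff (t j) (Encodable.encode a) = _
        rw [show ff (t j) (Encodable.encode a) = Fv (t j) a from mk_encode _ _ a]
      · by_cases ha : a = some none
        · simp [ha]
        · simp [ha]
    rw [h2] at h1
    exact h1
  apply core h
  · intro b i hi S hS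
    have h1 := hcoord (some (some (i, S, b)))
    rw [if_neg (by simp), sub_zero] at h1
    have h2 : ∑ j ∈ Finset.range n, (x (j+1) - x j) * Fv (t j) (some (some (i, S, b)))
        = Ms n x t (fun s => Lev b i s ∧ ⌊s * 1000 ^ i⌋₊ ∈ S) - (S.card : ℝ) / 1000 ^ i * Ms n x t (Lev b i) := by
      unfold Ms
      rw [Finset.mul_sum, ← Finset.sum_sub_distrib]
      apply Finset.sum_congr rfl
      intro j _
      simp only [Fv]
      by_cases hL : Lev b i (t j)
      · rw [if_pos ⟨hi, hS, hL⟩, if_pos hL]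
        by_cases hf : ⌊t j * 1000 ^ i⌋₊ ∈ S
        · rw [if_pos hf, if_pos ⟨hL, hf⟩]; ring
        · rw [if_neg hf, if_neg (fun hh => hf hh.2)]; ring
      · rw [if_neg (fun hh => hL hh.2.2), if_neg hL, if_neg (fun hh => hL hh.1)]; ring
    rw [h2] at h1
    exact h1
  · have h1 := hcoord none
    rw [if_neg (by simp), sub_zero] at h1
    have h2 := hcoord (some none)
    rw [if_pos rfl] at h2
    have e1 : ∑ j ∈ Finset.range n, (x (j+1) - x j) * Fv (t j) none = Ms n x t (fun s => ¬ (Lev false 1 s ∨ Lev true 1 s)) := by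
      unfold Ms
      apply Finset.sum_congr rfl
      intro j _
      simp only [Fv]
      by_cases hL : Lev false 1 (t j) ∨ Lev true 1 (t j)
      · rw [if_pos hL, if_neg (fun hh => hh hL), mul_zero]
      · rw [if_neg hL, if_pos hL, mul_one]
    have e2 : ∑ j ∈ Finset.range n, (x (j+1) - x j) * Fv (t j) (some none) = Ms n x t (Lev true 1) := by
      unfold Ms
      apply Finset.sum_congr rfl
      intro j _
      simp only [Fv]
      by_cases hL : Lev true 1 (t j)
      · rw [if_pos hL, if_pos hL, mul_one]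
      · rw [if_neg hL, if_neg hL, mul_zero]
    rw [e1] at h1
    rw [e2] at h2
    have e3 : Ms n x t (fun _ => True) = Ms n x t (fun s => Lev false 1 s ∨ Lev true 1 s) + Ms n x t (fun s => ¬ (Lev false 1 s ∨ Lev true 1 s)) := by
      apply Ms_add
      · intro s; tauto
      · intro s hs hn; exact hn hs
    have e4 : Ms n x t (fun s => Lev false 1 s ∨ Lev true 1 s) = Ms n x t (Lev false 1) + Ms n x t (Lev true 1) := by
      apply Ms_add
      · intro s; exact Iff.rfl
      · rintro s ⟨k, hk, hE⟩ h'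
        have := (Ex_Lev_disj hE h').1
        simp at this
    rw [Ms_true h] at e3
    have g1 := abs_le.mp h1
    have g2 := abs_le.mp h2
    intro b
    cases b
    · linarith [g1.1, g1.2, g2.1, g2.2]
    · linarith [g1.1, g1.2, g2.1, g2.2]

theorem main_result :
    ¬ (∀ f : ℝ → ZeroAtInftyContinuousMap ℕ ℝ,
      (∃ M : ℝ, ∀ s ∈ Set.Icc (0:ℝ) 1, ‖f s‖ ≤ M) →
      Convex ℝ {v : ZeroAtInftyContinuousMap ℕ ℝ |
        ∃ (n : ℕ → ℕ) (x t : ℕ → ℕ → ℝ),
          (∀ k, x k 0 = 0 ∧ x k (n k) = 1 ∧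
            (∀ i, i < n k → x k i < x k (i+1)) ∧
            (∀ i, i < n k → x k i ≤ t k i ∧ t k i ≤ x k (i+1))) ∧
          (∀ ε : ℝ, 0 < ε → ∃ K : ℕ, ∀ k, K ≤ k → ∀ i, i < n k → x k (i+1) - x k i < ε) ∧
          Filter.Tendsto
            (fun k => ∑ i ∈ Finset.range (n k), (x k (i+1) - x k i) • f (t k i))
            Filter.atTop (nhds v)}) := by
  intro hall
  have hconv : Convex ℝ (LimSet ff) := hall ff ⟨1, fun s _ => ff_norm s⟩
  have hmid := hconv (vv_mem false) (vv_mem true) (show (0:ℝ) ≤ 1/2 by norm_num) (show (0:ℝ) ≤ 1/2 by norm_num) (by norm_num : (1/2:ℝ) + 1/2 = 1)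
  obtain ⟨n, x, t, hP, -, hlim⟩ := hmid
  rw [Metric.tendsto_atTop] at hlim
  obtain ⟨k, hk⟩ := hlim (1/1000) (by norm_num)
  have h1 := hk k le_rfl
  rw [dist_eq_norm] at h1
  obtain ⟨p1, p2, p3, p4⟩ := hP k
  exact no_mid (n k) (x k) (t k) ⟨p1, p2, p3, fun i hi => (p4 i hi).1, fun i hi => (p4 i hi).2⟩ h1

end Pool.Agent.S04362
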