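import Mathlib

set_option autoImplicit false
open MeasureTheory Filter Topology

namespace Pool.Agent.MP_d26497_an

noncomputable section

/-- the measure `μ` on `ℂ^n` with density `e^{-|z|^2}` -/
def gmu (n : ℕ) : Measure (Fin n → ℂ) :=
  volume.withDensity (fun z => ENNReal.ofReal (Real.exp (-∑ i, ‖z i‖ ^ 2)))

/-- the classes in `L²(μ)` of entire functions -/
def entSet (n : ℕ) : Set (Lp ℂ 2 (gmu n)) :=
  {f | ∃ F : (Fin n → ℂ) → ℂ, Differentiable ℂ F ∧ (f : (Fin n → ℂ) → ℂ) =ᵐ[gmu n] F}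

/-- `entSet n` as a subspace (used only in the proofs) -/
def Ent (n : ℕ) : Submodule ℂ (Lp ℂ 2 (gmu n)) where
  carrier := {f | ∃ F : (Fin n → ℂ) → ℂ, Differentiable ℂ F ∧ (f : (Fin n → ℂ) → ℂ) =ᵐ[gmu n] F}
  add_mem' := by
    rintro f g ⟨F, hF, hfF⟩ ⟨G, hG, hgG⟩
    refine ⟨fun z => F z + G z, hF.add hG, ?_⟩
    filter_upwards [Lp.coeFn_add f g, hfF, hgG] with z h1 h2 h3
    rw [h1, Pi.add_apply, h2, h3]
  zero_mem' := ⟨fun _ => 0, differentiable_const _, Lp.coeFn_zero _ _ _⟩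
  smul_mem' := by
    rintro c f ⟨F, hF, hfF⟩
    refine ⟨fun z => c * F z, hF.const_mul c, ?_⟩
    filter_upwards [Lp.coeFn_smul c f, hfF] with z h1 h2
    rw [h1, Pi.smul_apply, h2, smul_eq_mul]

/-- the Bargmann-Segal space `H²(μ)`: the closed subspace of `L²(μ)` spanned by (the classes of) the
entire functions in `L²(μ)`; these already form a closed subspace -/
def Fock (n : ℕ) : Submodule ℂ (Lp ℂ 2 (gmu n)) := (Submodule.span ℂ (entSet n)).topologicalClosure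

lemma Fock_Ent (n : ℕ) : Fock n = (Ent n).topologicalClosure := by
  unfold Fock
  congr 1
  exact Submodule.span_eq (Ent n)

/-- the graph of the Toeplitz operator `T_φ`: the pairs `(f, g)` of elements of `H²(μ)` such that
`φ f` is (the function class of) an element `u` of `L²(μ)` and `g = P u`, i.e. `u - g ⟂ H²(μ)` -/
def toepGraph (n : ℕ) (φ : (Fin n → ℂ) → ℂ) : Set (Fock n × Fock n) :=
  {p | ∃ u : Lp ℂ 2 (gmu n), ((u : (Fin n → ℂ) → ℂ) =ᵐ[gmu n] fun z => φ z * (p.1 : Lp ℂ 2 (gmu n)) z) ∧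
    ∀ h : Fock n, inner ℂ (h : Lp ℂ 2 (gmu n)) (u - (p.2 : Lp ℂ 2 (gmu n))) = 0}

/-- `G` is the graph of an operator; its closure has compact resolvent: for some `l` there is a
compact bounded everywhere defined two-sided inverse `R` of `l I - closure` -/
def HasCompactResolvent {H : Type*} [NormedAddCommGroup H] [InnerProductSpace ℂ H]
    (G : Set (H × H)) : Prop :=
  ∃ (l : ℂ) (R : H →L[ℂ] H), IsCompactOperator R ∧
    (∀ g : H, (R g, l • R g - g) ∈ closure G) ∧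
    (∀ p ∈ closure G, R (l • p.1 - p.2) = p.1)

/-- the function `φ(z) = Σ c_{αβ} z^α \bar z^β` of a polynomial in `z, \bar z` -/
def symb {n : ℕ} (p : MvPolynomial (Fin n ⊕ Fin n) ℂ) (z : Fin n → ℂ) : ℂ :=
  MvPolynomial.eval (Sum.elim z (fun i => (starRingEnd ℂ) (z i))) p

/-! ### basic Gaussian facts -/

lemma meas_dens (n : ℕ) : Measurable (fun z : Fin n → ℂ => ENNReal.ofReal (Real.exp (-∑ i, ‖z i‖ ^ 2))) := by
  apply ENNReal.measurable_ofReal.comp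
  apply Continuous.measurable
  fun_prop

lemma integrable_gmu {n : ℕ} {E : Type*} [NormedAddCommGroup E] [NormedSpace ℝ E] (g : (Fin n → ℂ) → E) :
    Integrable g (gmu n) ↔ Integrable (fun z => Real.exp (-∑ i, ‖z i‖ ^ 2) • g z) := by
  unfold gmu
  rw [integrable_withDensity_iff_integrable_smul' (meas_dens n) (Eventually.of_forall (fun z => ENNReal.ofReal_lt_top))]
  have : (fun z : Fin n → ℂ => (ENNReal.ofReal (Real.exp (-∑ i, ‖z i‖ ^ 2))).toReal • g z) = fun z => Real.exp (-∑ i, ‖z i‖ ^ 2) • g z := by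
    funext z
    rw [ENNReal.toReal_ofReal (Real.exp_pos _).le]
  rw [this]

lemma integral_gmu {n : ℕ} {E : Type*} [NormedAddCommGroup E] [NormedSpace ℝ E] (g : (Fin n → ℂ) → E) :
    ∫ z, g z ∂(gmu n) = ∫ z, Real.exp (-∑ i, ‖z i‖ ^ 2) • g z := by
  unfold gmu
  rw [integral_withDensity_eq_integral_toReal_smul (meas_dens n) (Eventually.of_forall (fun z => ENNReal.ofReal_lt_top))]
  congr 1
  funext z
  rw [ENNReal.toReal_ofReal (Real.exp_pos _).le]

lemma int_half1 : Integrable (fun z : ℂ => Real.exp (-(1/2) * ‖z‖ ^ 2)) := by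
  have h := (GaussianFourier.integrable_cexp_neg_mul_sq_norm_add (V := ℂ) (b := (1/2 : ℂ)) (by norm_num) 0 0).norm
  refine h.congr (Eventually.of_forall (fun z => ?_))
  simp only [Complex.norm_exp]
  congr 1
  simp
  rw [← Complex.ofReal_pow, Complex.ofReal_re]

lemma int_half (n : ℕ) : Integrable (fun z : Fin n → ℂ => Real.exp (-(1/2) * ∑ i, ‖z i‖ ^ 2)) := by
  have h := Integrable.fintype_prod (f := fun (_ : Fin n) (z : ℂ) => Real.exp (-(1/2) * ‖z‖ ^ 2)) (μ := fun _ => (volume : Measure ℂ)) (fun _ => int_half1)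
  refine h.congr (Eventually.of_forall (fun z => ?_))
  show ∏ i, Real.exp (-(1/2) * ‖z i‖ ^ 2) = Real.exp (-(1/2) * ∑ i, ‖z i‖ ^ 2)
  rw [← Real.exp_sum, Finset.mul_sum]

lemma growth_int {n : ℕ} {E : Type*} [NormedAddCommGroup E] [NormedSpace ℝ E] (f : (Fin n → ℂ) → E) (hf : AEStronglyMeasurable f volume) (C : ℝ)
    (hC : ∀ z, ‖f z‖ ≤ C * Real.exp ((1/2) * ∑ i, ‖z i‖ ^ 2)) : Integrable f (gmu n) := by
  rw [integrable_gmu]
  apply Integrable.mono' ((int_half n).const_mul C)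
  · apply AEStronglyMeasurable.smul _ hf
    apply Continuous.aestronglyMeasurable
    fun_prop
  · refine Eventually.of_forall (fun z => ?_)
    rw [norm_smul, Real.norm_eq_abs, abs_of_pos (Real.exp_pos _)]
    calc Real.exp (-∑ i, ‖z i‖ ^ 2) * ‖f z‖ ≤ Real.exp (-∑ i, ‖z i‖ ^ 2) * (C * Real.exp ((1/2) * ∑ i, ‖z i‖ ^ 2)) :=
          mul_le_mul_of_nonneg_left (hC z) (Real.exp_pos _).le
      _ = C * (Real.exp (-∑ i, ‖z i‖ ^ 2) * Real.exp ((1/2) * ∑ i, ‖z i‖ ^ 2)) := by ring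
      _ = C * Real.exp (-(1/2) * ∑ i, ‖z i‖ ^ 2) := by
          rw [← Real.exp_add]; congr 2; ring

lemma abs_cont (n : ℕ) : gmu n ≪ volume := withDensity_absolutelyContinuous _ _

lemma growth_memLp {n : ℕ} (f : (Fin n → ℂ) → ℂ) (hf : Continuous f) (C c : ℝ) (hC0 : 0 ≤ C) 
    (hC : ∀ z, ‖f z‖ ≤ C * Real.exp (c * ∑ i, ‖z i‖)) : MemLp f 2 (gmu n) := by
  rw [memLp_two_iff_integrable_sq_norm (hf.aestronglyMeasurable)]
  apply growth_int _ (by fun_prop : Continuous fun z => ‖f z‖ ^ 2).aestronglyMeasurable (C ^ 2 * Real.exp (n * (2 * c ^ 2)))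
  intro z
  rw [Real.norm_eq_abs, abs_of_nonneg (by positivity)]
  calc ‖f z‖ ^ 2 ≤ (C * Real.exp (c * ∑ i, ‖z i‖)) ^ 2 := by
        apply pow_le_pow_left₀ (norm_nonneg _) (hC z)
    _ = C ^ 2 * Real.exp (2 * (c * ∑ i, ‖z i‖)) := by
        rw [mul_pow, ← Real.exp_nat_mul]; norm_num
    _ ≤ C ^ 2 * (Real.exp (n * (2 * c ^ 2)) * Real.exp ((1/2) * ∑ i, ‖z i‖ ^ 2)) := by
        apply mul_le_mul_of_nonneg_left _ (by positivity)
        rw [← Real.exp_add, Real.exp_le_exp]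
        have h1 : (n : ℝ) * (2 * c ^ 2) = ∑ i : Fin n, 2 * c ^ 2 := by simp
        rw [h1, Finset.mul_sum, Finset.mul_sum, Finset.mul_sum, ← Finset.sum_add_distrib]
        apply Finset.sum_le_sum
        intro i _
        nlinarith [sq_nonneg (‖z i‖ - 2 * c)]
    _ = _ := by ring

lemma norm_pow_le (r : ℝ) (hr : 0 ≤ r) (k : ℕ) : r ^ k ≤ (k.factorial : ℝ) * Real.exp r := by
  have := Real.pow_div_factorial_le_exp r hr k
  rw [div_le_iff₀ (by positivity)] at this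
  linarith

/-- monomials times radial powers on `ℂ²` -/
def mon (a b p q : ℕ) (z : Fin 2 → ℂ) : ℂ :=
  z 0 ^ a * z 1 ^ b * ((‖z 0‖ : ℂ) ^ (2 * p) * (‖z 1‖ : ℂ) ^ (2 * q))

lemma mon_growth (a b p q : ℕ) (z : Fin 2 → ℂ) :
    ‖mon a b p q z‖ ≤ (((a + 2 * p).factorial : ℝ) * ((b + 2 * q).factorial : ℝ)) * Real.exp (1 * ∑ i, ‖z i‖) := by
  unfold mon
  rw [Fin.sum_univ_two, one_mul, Real.exp_add]
  simp only [norm_mul, norm_pow, Complex.norm_real, norm_norm]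
  have h1 := norm_pow_le ‖z 0‖ (norm_nonneg _) (a + 2 * p)
  have h2 := norm_pow_le ‖z 1‖ (norm_nonneg _) (b + 2 * q)
  calc ‖z 0‖ ^ a * ‖z 1‖ ^ b * (‖z 0‖ ^ (2 * p) * ‖z 1‖ ^ (2 * q)) = ‖z 0‖ ^ (a + 2 * p) * ‖z 1‖ ^ (b + 2 * q) := by
        rw [pow_add, pow_add]; ring
    _ ≤ _ := mul_le_mul h1 h2 (by positivity) (by positivity)
    _ = _ := by ring

lemma mon_cont (a b p q : ℕ) : Continuous (mon a b p q) := by
  unfold mon; fun_prop

lemma mon_memLp (a b p q : ℕ) : MemLp (mon a b p q) 2 (gmu 2) :=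
  growth_memLp _ (mon_cont a b p q) _ 1 (by positivity) (mon_growth a b p q)

/-- one-dimensional moments -/
lemma one_dim (a b p : ℕ) : ∫ z : ℂ, (Real.exp (-‖z‖ ^ 2) : ℂ) * ((starRingEnd ℂ) z ^ b * (z ^ a * (‖z‖ : ℂ) ^ (2 * p))) =
    if a = b then (Real.pi : ℂ) * ((a + p).factorial : ℂ) else 0 := by
  split_ifs with hab
  · subst hab
    have h1 := Complex.integral_rpow_mul_exp_neg_rpow (p := 2) (q := (2 * (a + p) : ℕ)) (by norm_num) (by
      have : (0:ℝ) ≤ ((2 * (a + p) : ℕ) : ℝ) := Nat.cast_nonneg _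
      linarith)
    have h2 : (2 * Real.pi / 2) * Real.Gamma ((((2 * (a + p) : ℕ) : ℝ) + 2) / 2) = Real.pi * ((a + p).factorial : ℝ) := by
      have : (((2 * (a + p) : ℕ) : ℝ) + 2) / 2 = ((a + p : ℕ) : ℝ) + 1 := by push_cast; ring
      rw [this, Real.Gamma_nat_eq_factorial]; ring
    rw [h2] at h1
    have h3 : ∀ z : ℂ, (Real.exp (-‖z‖ ^ 2) : ℂ) * ((starRingEnd ℂ) z ^ a * (z ^ a * (‖z‖ : ℂ) ^ (2 * p)))
        = ((‖z‖ ^ (((2 * (a + p) : ℕ) : ℝ)) * Real.exp (-‖z‖ ^ (2:ℝ)) : ℝ) : ℂ) := by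
      intro z
      rw [Real.rpow_natCast, Real.rpow_two]
      have h4 : (starRingEnd ℂ) z ^ a * z ^ a = (‖z‖ : ℂ) ^ (2 * a) := by
        rw [← mul_pow, mul_comm ((starRingEnd ℂ) z), Complex.mul_conj, Complex.normSq_eq_norm_sq, pow_mul]
        push_cast; rfl
      rw [← mul_assoc ((starRingEnd ℂ) z ^ a), h4]
      push_cast
      ring
    simp_rw [h3]
    rw [integral_complex_ofReal, h1]
    push_cast; rfl
  · -- rotation by a root of -1
    set I := ∫ z : ℂ, (Real.exp (-‖z‖ ^ 2) : ℂ) * ((starRingEnd ℂ) z ^ b * (z ^ a * (‖z‖ : ℂ) ^ (2 * p))) with hI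
    set θ : ℝ := Real.pi / ((a : ℝ) - b) with hθ
    set c : Circle := Circle.exp θ with hc
    have hmp := (rotation c).measurePreserving
    have hrot : I = ∫ z : ℂ, (Real.exp (-‖(c : ℂ) * z‖ ^ 2) : ℂ) * ((starRingEnd ℂ) ((c:ℂ) * z) ^ b * (((c:ℂ) * z) ^ a * (‖(c:ℂ) * z‖ : ℂ) ^ (2 * p))) := by
      rw [hI]
      have := hmp.integral_comp (rotation c).toHomeomorph.measurableEmbedding (fun z : ℂ => (Real.exp (-‖z‖ ^ 2) : ℂ) * ((starRingEnd ℂ) z ^ b * (z ^ a * (‖z‖ : ℂ) ^ (2 * p))))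
      rw [← this]
      rfl
    have hval : (starRingEnd ℂ) (c : ℂ) ^ b * (c : ℂ) ^ a = -1 := by
      have hne : ((a : ℝ) - b) ≠ 0 := by
        rw [sub_ne_zero]; exact_mod_cast hab
      rw [hc, Circle.coe_exp, ← Complex.exp_conj, ← Complex.exp_nat_mul, ← Complex.exp_nat_mul, ← Complex.exp_add, ← Complex.exp_pi_mul_I]
      congr 1
      simp only [map_mul, Complex.conj_ofReal, Complex.conj_I]
      have hne' : ((a : ℂ) - b) ≠ 0 := by exact_mod_cast hne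
      rw [hθ]; push_cast
      field_simp
      ring
    have hneg : I = -I := by
      conv_lhs => rw [hrot]
      rw [hI, ← integral_neg]
      congr 1
      funext z
      have hn : ‖(c : ℂ) * z‖ = ‖z‖ := by rw [norm_mul, Circle.norm_coe, one_mul]
      rw [hn, map_mul, mul_pow, mul_pow]
      calc _ = ((starRingEnd ℂ) (c : ℂ) ^ b * (c : ℂ) ^ a) * ((Real.exp (-‖z‖ ^ 2) : ℂ) * ((starRingEnd ℂ) z ^ b * (z ^ a * (‖z‖ : ℂ) ^ (2 * p)))) := by ring
        _ = _ := by rw [hval]; ring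
    exact self_eq_neg.mp hneg

lemma two_dim (a b p q a' b' : ℕ) :
    ∫ z, (starRingEnd ℂ) (mon a' b' 0 0 z) * mon a b p q z ∂(gmu 2) =
      if a = a' ∧ b = b' then ((Real.pi : ℂ) * ((a + p).factorial : ℂ)) * ((Real.pi : ℂ) * ((b + q).factorial : ℂ)) else 0 := by
  rw [integral_gmu]
  have h := integral_fintype_prod_volume_eq_prod (𝕜 := ℂ) (ι := Fin 2) (E := fun _ => ℂ)
    (fun i z => (Real.exp (-‖z‖ ^ 2) : ℂ) * ((starRingEnd ℂ) z ^ (![a', b'] i) * (z ^ (![a, b] i) * (‖z‖ : ℂ) ^ (2 * (![p, q] i)))))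
  simp only [Fin.prod_univ_two, Matrix.cons_val_zero, Matrix.cons_val_one, one_dim] at h
  have h2 : (∫ z : Fin 2 → ℂ, Real.exp (-∑ i, ‖z i‖ ^ 2) • ((starRingEnd ℂ) (mon a' b' 0 0 z) * mon a b p q z)) =
      ∫ x : Fin 2 → ℂ, (Real.exp (-‖x 0‖ ^ 2) : ℂ) * ((starRingEnd ℂ) (x 0) ^ a' * (x 0 ^ a * (‖x 0‖ : ℂ) ^ (2 * p))) *
        ((Real.exp (-‖x 1‖ ^ 2) : ℂ) * ((starRingEnd ℂ) (x 1) ^ b' * (x 1 ^ b * (‖x 1‖ : ℂ) ^ (2 * q)))) := by
    congr 1
    funext z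
    unfold mon
    rw [Fin.sum_univ_two, neg_add, Real.exp_add, Complex.real_smul]
    push_cast
    simp only [map_mul, map_pow, mul_zero, pow_zero, mul_one, map_one]
    ring
  rw [h2]
  have h5 : ∀ (x y : ℂ) (P Q : Prop) [Decidable P] [Decidable Q] [Decidable (P ∧ Q)],
      (if P then x else 0) * (if Q then y else 0) = if P ∧ Q then x * y else 0 := by
    intro x y P Q _ _ _
    by_cases hP : P <;> by_cases hQ : Q <;> simp [hP, hQ]
  exact h.trans (h5 _ _ _ _)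

end

end Pool.Agent.MP_d26497_an
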