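import Pool.Agent.H9.Y1

set_option autoImplicit false
open MeasureTheory Filter Topology

namespace Pool.Agent.MP_d26497_an

noncomputable section

/-- rotation-averaged mean value property for the Gaussian measure -/
lemma mean_value {n : ℕ} (G : (Fin n → ℂ) → ℂ) (hG : Differentiable ℂ G) (hint : Integrable G (gmu n)) :
    ∫ z, G z ∂(gmu n) = (∫ _z, (1:ℂ) ∂(gmu n)) * G 0 := by
  rw [integrable_gmu] at hint
  rw [integral_gmu, integral_gmu]
  set W : (Fin n → ℂ) → ℝ := fun z => Real.exp (-∑ i, ‖z i‖ ^ 2) with hW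
  have hWc : Continuous W := by rw [hW]; fun_prop
  have hGc : Continuous G := hG.continuous
  have hmp : ∀ c : Circle, MeasurePreserving (fun (z : Fin n → ℂ) (i : Fin n) => (rotation c) (z i)) := fun c =>
    volume_preserving_pi (fun i => (rotation c).measurePreserving)
  have hcirc : ∀ θ : ℝ, ∀ z : Fin n → ℂ, (fun i => (rotation (Circle.exp θ)) (z i)) = (Complex.exp (θ * Complex.I)) • z := by
    intro θ z
    funext i
    show (rotation (Circle.exp θ)) (z i) = Complex.exp (θ * Complex.I) * z i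
    rw [rotation_apply, Circle.coe_exp]
  have hWinv : ∀ θ : ℝ, ∀ z : Fin n → ℂ, W ((Complex.exp (θ * Complex.I)) • z) = W z := by
    intro θ z
    rw [hW]
    simp only [Pi.smul_apply, smul_eq_mul, norm_mul, Complex.norm_exp_ofReal_mul_I, one_mul]
  have hemb : ∀ c : Circle, MeasurableEmbedding (fun (z : Fin n → ℂ) (i : Fin n) => (rotation c) (z i)) := by
    intro c
    have : (fun (z : Fin n → ℂ) (i : Fin n) => (rotation c) (z i)) = (Homeomorph.piCongrRight (fun _ : Fin n => (rotation c).toHomeomorph)) := by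
      funext z i; rfl
    rw [this]
    exact (Homeomorph.piCongrRight (fun _ : Fin n => (rotation c).toHomeomorph)).measurableEmbedding
  have hI1 : ∀ θ : ℝ, Integrable (fun z : Fin n → ℂ => W z • G ((Complex.exp (θ * Complex.I)) • z)) := by
    intro θ
    have := ((hmp (Circle.exp θ)).integrable_comp_emb (hemb _)).mpr hint
    refine this.congr (Eventually.of_forall (fun z => ?_))
    show W (fun i => (rotation (Circle.exp θ)) (z i)) • G (fun i => (rotation (Circle.exp θ)) (z i)) = _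
    rw [hcirc, hWinv]
  have hI2 : ∀ θ : ℝ, ∫ z : Fin n → ℂ, W z • G ((Complex.exp (θ * Complex.I)) • z) = ∫ z : Fin n → ℂ, W z • G z := by
    intro θ
    rw [← (hmp (Circle.exp θ)).integral_comp (hemb _) (fun z => W z • G z)]
    congr 1
    funext z
    rw [hcirc, hWinv]
  have hI3 : ∀ θ : ℝ, ∫ z : Fin n → ℂ, ‖W z • G ((Complex.exp (θ * Complex.I)) • z)‖ = ∫ z : Fin n → ℂ, ‖W z • G z‖ := by
    intro θ
    rw [← (hmp (Circle.exp θ)).integral_comp (hemb _) (fun z => ‖W z • G z‖)]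
    congr 1
    funext z
    rw [hcirc, hWinv]
  have hcont : Continuous (fun q : ℝ × (Fin n → ℂ) => W q.2 • G ((Complex.exp (q.1 * Complex.I)) • q.2)) := by
    apply Continuous.smul (hWc.comp continuous_snd)
    apply hGc.comp
    have h1 : Continuous (fun q : ℝ × (Fin n → ℂ) => Complex.exp (q.1 * Complex.I)) := by fun_prop
    exact h1.smul continuous_snd
  have hprod : Integrable (fun q : ℝ × (Fin n → ℂ) => W q.2 • G ((Complex.exp (q.1 * Complex.I)) • q.2))
      ((volume.restrict (Set.Ioc 0 (2 * Real.pi))).prod volume) := by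
    rw [integrable_prod_iff hcont.aestronglyMeasurable]
    refine ⟨Eventually.of_forall (fun θ => hI1 θ), ?_⟩
    simp only [hI3]
    exact integrable_const _
  have hswap := integral_integral_swap (f := fun (θ : ℝ) (z : Fin n → ℂ) => W z • G ((Complex.exp (θ * Complex.I)) • z))
    (μ := volume.restrict (Set.Ioc 0 (2 * Real.pi))) (ν := volume) hprod
  simp only [hI2] at hswap
  have havg : ∀ z : Fin n → ℂ, ∫ θ in Set.Ioc 0 (2 * Real.pi), W z • G ((Complex.exp (θ * Complex.I)) • z) = W z • ((2 * Real.pi : ℝ) • G 0) := by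
    intro z
    rw [integral_smul]
    congr 1
    have hd : Differentiable ℂ (fun l : ℂ => G (l • z)) := hG.comp (by fun_prop)
    have h1 := DiffContOnCl.circleAverage (f := fun l : ℂ => G (l • z)) (c := 0) (R := 1) hd.diffContOnCl
    rw [Real.circleAverage] at h1
    simp only [circleMap, zero_add, Complex.ofReal_one, one_mul, zero_smul] at h1
    rw [← h1, smul_smul, mul_inv_cancel₀ (by positivity), one_smul, intervalIntegral.integral_of_le (by positivity)]
  simp only [havg] at hswap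
  rw [setIntegral_const, Measure.real, Real.volume_Ioc, ENNReal.toReal_ofReal (by linarith [Real.pi_pos]), sub_zero] at hswap
  have h2 : (∫ y : Fin n → ℂ, W y • ((2 * Real.pi : ℝ) • G 0)) = (2 * Real.pi : ℝ) • ((∫ y : Fin n → ℂ, W y • (1:ℂ)) * G 0) := by
    rw [← integral_mul_const, ← integral_smul]
    congr 1
    funext y
    simp only [Complex.real_smul]
    ring
  rw [h2] at hswap
  have hne : (2 * Real.pi : ℝ) ≠ 0 := by positivity
  exact smul_right_injective ℂ hne hswap

/-- the exponential `exp (⟨z, w⟩)` -/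
def Ew (w z : Fin 2 → ℂ) : ℂ := Complex.exp ((starRingEnd ℂ) (w 0) * z 0 + (starRingEnd ℂ) (w 1) * z 1)

lemma Ew_cont (w : Fin 2 → ℂ) : Continuous (Ew w) := by unfold Ew; fun_prop

lemma bound_memLp (A : ℝ) (_hA : 0 ≤ A) : MemLp (fun z : Fin 2 → ℂ => (Real.exp (A * ∑ i, ‖z i‖) : ℂ)) 2 (gmu 2) := by
  apply growth_memLp _ (by fun_prop) 1 A (by norm_num)
  intro z
  rw [Complex.norm_real, Real.norm_eq_abs, abs_of_pos (Real.exp_pos _), one_mul]

lemma Ew_bound (w z : Fin 2 → ℂ) : ‖Ew w z‖ ≤ 1 * Real.exp ((‖w 0‖ + ‖w 1‖) * ∑ i, ‖z i‖) := by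
  unfold Ew
  rw [Complex.norm_exp, one_mul, Real.exp_le_exp, Fin.sum_univ_two]
  refine (Complex.re_le_norm _).trans ?_
  refine (norm_add_le _ _).trans ?_
  rw [norm_mul, norm_mul, RCLike.norm_conj, RCLike.norm_conj]
  nlinarith [mul_nonneg (norm_nonneg (w 0)) (norm_nonneg (z 1)), mul_nonneg (norm_nonneg (w 1)) (norm_nonneg (z 0))]

lemma Ew_memLp (w : Fin 2 → ℂ) : MemLp (Ew w) 2 (gmu 2) :=
  growth_memLp _ (Ew_cont w) 1 _ (by norm_num) (Ew_bound w)

lemma int_conj_mul {n : ℕ} (f g : (Fin n → ℂ) → ℂ) (hf : MemLp f 2 (gmu n)) (hg : MemLp g 2 (gmu n)) :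
    Integrable (fun z => (starRingEnd ℂ) (f z) * g z) (gmu n) := by
  have hf' : MemLp (fun z => (starRingEnd ℂ) (f z)) 2 (gmu n) := hf.star
  exact hf'.integrable_mul hg

lemma repro (F : (Fin 2 → ℂ) → ℂ) (hF : Differentiable ℂ F) (hL : MemLp F 2 (gmu 2)) (w : Fin 2 → ℂ) :
    ∫ z, (starRingEnd ℂ) (Ew w z) * F z ∂(gmu 2) = (∫ _z, (1:ℂ) ∂(gmu 2)) * F w := by
  set G : (Fin 2 → ℂ) → ℂ := fun z => F (z + w) * Complex.exp (-(z 0 * (starRingEnd ℂ) (w 0) + z 1 * (starRingEnd ℂ) (w 1))) with hGdef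
  have hpt : ∀ z : Fin 2 → ℂ, Real.exp (-∑ i, ‖(z + w) i‖ ^ 2) • ((starRingEnd ℂ) (Ew w (z + w)) * F (z + w)) =
      Real.exp (-∑ i, ‖z i‖ ^ 2) • G z := by
    intro z
    rw [hGdef, Complex.real_smul, Complex.real_smul]
    unfold Ew
    rw [← Complex.exp_conj]
    push_cast
    have hkey : Complex.exp (-∑ i, (‖(z + w) i‖ : ℂ) ^ 2) * Complex.exp ((starRingEnd ℂ) ((starRingEnd ℂ) (w 0) * (z + w) 0 + (starRingEnd ℂ) (w 1) * (z + w) 1))
        = Complex.exp (-∑ i, (‖z i‖ : ℂ) ^ 2) * Complex.exp (-(z 0 * (starRingEnd ℂ) (w 0) + z 1 * (starRingEnd ℂ) (w 1))) := by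
      rw [← Complex.exp_add, ← Complex.exp_add]
      congr 1
      rw [Fin.sum_univ_two, Fin.sum_univ_two]
      simp only [← Complex.mul_conj', Pi.add_apply, map_add, map_mul, Complex.conj_conj]
      ring
    calc _ = (Complex.exp (-∑ i, (‖(z + w) i‖ : ℂ) ^ 2) * Complex.exp ((starRingEnd ℂ) ((starRingEnd ℂ) (w 0) * (z + w) 0 + (starRingEnd ℂ) (w 1) * (z + w) 1))) * F (z + w) := by ring
      _ = _ := by rw [hkey]; ring
  have hint0 := (integrable_gmu _).mp (int_conj_mul _ _ (Ew_memLp w) hL)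
  have hint1 : Integrable G (gmu 2) := by
    rw [integrable_gmu]
    refine (hint0.comp_add_right w).congr (Eventually.of_forall (fun z => ?_))
    exact hpt z
  have hGd : Differentiable ℂ G := by
    rw [hGdef]
    apply Differentiable.mul
    · exact hF.comp (by fun_prop)
    · fun_prop
  have h1 := mean_value G hGd hint1
  have hG0 : G 0 = F w := by
    rw [hGdef]; simp
  rw [hG0] at h1
  rw [← h1, integral_gmu, integral_gmu]
  rw [← integral_add_right_eq_self (fun z : Fin 2 → ℂ => Real.exp (-∑ i, ‖z i‖ ^ 2) • ((starRingEnd ℂ) (Ew w z) * F z)) w]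
  congr 1
  funext z
  exact hpt z

end

end Pool.Agent.MP_d26497_an
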