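import Pool.Agent.H9.Y2

set_option autoImplicit false
open MeasureTheory Filter Topology

namespace Pool.Agent.MP_d26497_an

noncomputable section

/-- truncated exponential series -/
def PK (K : ℕ) (x : ℂ) : ℂ := ∑ i ∈ Finset.range K, x ^ i / (i.factorial : ℂ)

lemma PK_tendsto (x : ℂ) : Tendsto (fun K => PK K x) atTop (𝓝 (Complex.exp x)) := by
  have h := NormedSpace.expSeries_div_hasSum_exp (𝔸 := ℂ) x
  rw [← Complex.exp_eq_exp_ℂ] at h
  exact h.tendsto_sum_nat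

lemma PK_bound (K : ℕ) (x : ℂ) : ‖PK K x‖ ≤ Real.exp ‖x‖ := by
  unfold PK
  refine (norm_sum_le _ _).trans ?_
  refine le_trans (Finset.sum_le_sum (fun i _ => ?_)) (Real.sum_le_exp_of_nonneg (norm_nonneg x) K)
  rw [norm_div, norm_pow]
  apply le_of_eq
  congr 1
  simp

def SK (w : Fin 2 → ℂ) (K : ℕ) (z : Fin 2 → ℂ) : ℂ :=
  PK K ((starRingEnd ℂ) (w 0) * z 0) * PK K ((starRingEnd ℂ) (w 1) * z 1)

lemma SK_tendsto (w z : Fin 2 → ℂ) : Tendsto (fun K => SK w K z) atTop (𝓝 (Ew w z)) := by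
  unfold SK Ew
  rw [Complex.exp_add]
  exact (PK_tendsto _).mul (PK_tendsto _)

lemma SK_bound (w : Fin 2 → ℂ) (K : ℕ) (z : Fin 2 → ℂ) : ‖SK w K z‖ ≤ Real.exp ((‖w 0‖ + ‖w 1‖) * ∑ i, ‖z i‖) := by
  unfold SK
  rw [norm_mul]
  refine (mul_le_mul (PK_bound _ _) (PK_bound _ _) (norm_nonneg _) (Real.exp_pos _).le).trans ?_
  rw [← Real.exp_add, Real.exp_le_exp, Fin.sum_univ_two, norm_mul, norm_mul, RCLike.norm_conj, RCLike.norm_conj]
  nlinarith [mul_nonneg (norm_nonneg (w 0)) (norm_nonneg (z 1)), mul_nonneg (norm_nonneg (w 1)) (norm_nonneg (z 0))]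

lemma SK_cont (w : Fin 2 → ℂ) (K : ℕ) : Continuous (SK w K) := by
  unfold SK PK; fun_prop

lemma SK_expand (w : Fin 2 → ℂ) (K : ℕ) (z : Fin 2 → ℂ) :
    SK w K z = ∑ i ∈ Finset.range K, ∑ j ∈ Finset.range K,
      (((starRingEnd ℂ) (w 0)) ^ i / (i.factorial : ℂ) * (((starRingEnd ℂ) (w 1)) ^ j / (j.factorial : ℂ))) * mon i j 0 0 z := by
  unfold SK PK mon
  rw [Finset.sum_mul_sum]
  apply Finset.sum_congr rfl
  intro i _
  apply Finset.sum_congr rfl
  intro j _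
  rw [mul_pow, mul_pow]
  simp only [mul_zero, pow_zero, mul_one]
  ring

/-- functions orthogonal to all monomials are orthogonal to all exponentials -/
lemma orth_exp (u : (Fin 2 → ℂ) → ℂ) (hu : MemLp u 2 (gmu 2))
    (h0 : ∀ a b, ∫ z, (starRingEnd ℂ) (mon a b 0 0 z) * u z ∂(gmu 2) = 0) (w : Fin 2 → ℂ) :
    ∫ z, (starRingEnd ℂ) (Ew w z) * u z ∂(gmu 2) = 0 := by
  have hlim : Tendsto (fun K => ∫ z, (starRingEnd ℂ) (SK w K z) * u z ∂(gmu 2)) atTop
      (𝓝 (∫ z, (starRingEnd ℂ) (Ew w z) * u z ∂(gmu 2))) := by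
    apply tendsto_integral_of_dominated_convergence (fun z => Real.exp ((‖w 0‖ + ‖w 1‖) * ∑ i, ‖z i‖) * ‖u z‖)
    · intro K
      have hc : Continuous (fun z => (starRingEnd ℂ) (SK w K z)) := (SK_cont w K).star
      exact hc.aestronglyMeasurable.mul hu.1
    · have h1 := bound_memLp (‖w 0‖ + ‖w 1‖) (by positivity)
      have h2 := (h1.integrable_mul hu).norm
      refine h2.congr (Eventually.of_forall (fun z => ?_))
      simp only [Pi.mul_apply, norm_mul, Complex.norm_real, Real.norm_eq_abs, abs_of_pos (Real.exp_pos _)]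
    · intro K
      refine Eventually.of_forall (fun z => ?_)
      rw [norm_mul, RCLike.norm_conj]
      exact mul_le_mul_of_nonneg_right (SK_bound w K z) (norm_nonneg _)
    · refine Eventually.of_forall (fun z => ?_)
      apply Tendsto.mul_const
      exact (Complex.continuous_conj.tendsto _).comp (SK_tendsto w z)
  have hz : ∀ K, ∫ z, (starRingEnd ℂ) (SK w K z) * u z ∂(gmu 2) = 0 := by
    intro K
    have h1 : ∀ z, (starRingEnd ℂ) (SK w K z) * u z = ∑ i ∈ Finset.range K, ∑ j ∈ Finset.range K,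
      (starRingEnd ℂ) (((starRingEnd ℂ) (w 0)) ^ i / (i.factorial : ℂ) * (((starRingEnd ℂ) (w 1)) ^ j / (j.factorial : ℂ))) *
        ((starRingEnd ℂ) (mon i j 0 0 z) * u z) := by
      intro z
      rw [SK_expand, map_sum, Finset.sum_mul]
      apply Finset.sum_congr rfl
      intro i _
      rw [map_sum, Finset.sum_mul]
      apply Finset.sum_congr rfl
      intro j _
      rw [map_mul]; ring
    simp_rw [h1]
    rw [integral_finsetSum]
    · apply Finset.sum_eq_zero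
      intro i _
      rw [integral_finsetSum]
      · apply Finset.sum_eq_zero
        intro j _
        rw [integral_const_mul, h0, mul_zero]
      · intro j _
        exact (int_conj_mul _ _ (mon_memLp i j 0 0) hu).const_mul _
    · intro i _
      apply integrable_finsetSum
      intro j _
      exact (int_conj_mul _ _ (mon_memLp i j 0 0) hu).const_mul _
  simp_rw [hz] at hlim
  exact (tendsto_nhds_unique hlim tendsto_const_nhds)

/-- monomials (with radial factors) as elements of `L²(μ)` -/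
def monLp (a b p q : ℕ) : Lp ℂ 2 (gmu 2) := (mon_memLp a b p q).toLp _

lemma monLp_coe (a b p q : ℕ) : (monLp a b p q : (Fin 2 → ℂ) → ℂ) =ᵐ[gmu 2] mon a b p q := (mon_memLp a b p q).coeFn_toLp

lemma inner_eq {n : ℕ} (f g : (Fin n → ℂ) → ℂ) (x y : Lp ℂ 2 (gmu n)) (hx : (x : (Fin n → ℂ) → ℂ) =ᵐ[gmu n] f)
    (hy : (y : (Fin n → ℂ) → ℂ) =ᵐ[gmu n] g) : inner ℂ x y = ∫ z, (starRingEnd ℂ) (f z) * g z ∂(gmu n) := by
  rw [L2.inner_def]
  apply integral_congr_ae
  filter_upwards [hx, hy] with z h1 h2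
  rw [h1, h2, RCLike.inner_apply, mul_comm]

lemma mon_diff (a b : ℕ) : Differentiable ℂ (mon a b 0 0) := by
  have : mon a b 0 0 = fun z : Fin 2 → ℂ => z 0 ^ a * z 1 ^ b := by
    funext z; unfold mon; simp
  rw [this]; fun_prop

def Mm : Submodule ℂ (Lp ℂ 2 (gmu 2)) := Submodule.span ℂ (Set.range (fun q : ℕ × ℕ => monLp q.1 q.2 0 0))

lemma Mm_le : Mm ≤ Ent 2 := by
  unfold Mm
  rw [Submodule.span_le]
  rintro _ ⟨q, rfl⟩
  exact ⟨mon q.1 q.2 0 0, mon_diff _ _, monLp_coe _ _ _ _⟩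

lemma K_ne : (∫ _z, (1:ℂ) ∂(gmu 2)) ≠ 0 := by
  have h := two_dim 0 0 0 0 0 0
  have h1 : ∀ z, (starRingEnd ℂ) (mon 0 0 0 0 z) * mon 0 0 0 0 z = 1 := by
    intro z; unfold mon; simp
  simp_rw [h1] at h
  rw [h]
  simp [Real.pi_ne_zero]

lemma Ent_le : Ent 2 ≤ Mm.topologicalClosure := by
  intro f hf
  obtain ⟨F, hF, hfF⟩ := hf
  haveI : CompleteSpace (Mm.topologicalClosure) := Mm.isClosed_topologicalClosure.completeSpace_coe
  set M := Mm.topologicalClosure with hM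
  obtain ⟨v, hv, u, hu, hvu⟩ : ∃ v ∈ M, ∃ u ∈ Mᗮ, f = v + u := by
    have := M.exists_add_mem_mem_orthogonal f
    obtain ⟨v, hv, u, hu, h⟩ := this
    exact ⟨v, hv, u, hu, h⟩
  have hFL : MemLp F 2 (gmu 2) := (memLp_congr_ae hfF).mp (Lp.memLp f)
  -- u is orthogonal to exponentials
  have huE : ∀ w, inner ℂ ((Ew_memLp w).toLp _) u = (0:ℂ) := by
    intro w
    rw [inner_eq (Ew w) u _ u (Ew_memLp w).coeFn_toLp (EventuallyEq.refl _ _)]
    apply orth_exp u (Lp.memLp u)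
    intro a b
    rw [← inner_eq (mon a b 0 0) u (monLp a b 0 0) u (monLp_coe _ _ _ _) (EventuallyEq.refl _ _)]
    have hm : monLp a b 0 0 ∈ M := Mm.le_topologicalClosure (Submodule.subset_span ⟨(a, b), rfl⟩)
    exact (Submodule.mem_orthogonal M u).mp hu _ hm
  have hvE : ∀ w, inner ℂ ((Ew_memLp w).toLp _) v = (∫ _z, (1:ℂ) ∂(gmu 2)) * F w := by
    intro w
    have h1 : inner ℂ ((Ew_memLp w).toLp _) f = (∫ _z, (1:ℂ) ∂(gmu 2)) * F w := by
      rw [inner_eq (Ew w) F _ f (Ew_memLp w).coeFn_toLp hfF]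
      exact repro F hF hFL w
    rw [hvu, inner_add_right, huE, add_zero] at h1
    exact h1
  obtain ⟨p, hp, hplim⟩ := mem_closure_iff_seq_limit.mp (show v ∈ closure (Mm : Set (Lp ℂ 2 (gmu 2))) from hv)
  have hP : ∀ j, ∃ P : (Fin 2 → ℂ) → ℂ, Differentiable ℂ P ∧ (p j : (Fin 2 → ℂ) → ℂ) =ᵐ[gmu 2] P := fun j => Mm_le (hp j)
  choose P hPd hPe using hP
  have hPw : ∀ w, Tendsto (fun j => P j w) atTop (𝓝 (F w)) := by
    intro w
    have h1 : Tendsto (fun j => inner ℂ ((Ew_memLp w).toLp _) (p j)) atTop (𝓝 (inner ℂ ((Ew_memLp w).toLp _) v)) :=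
      Filter.Tendsto.inner tendsto_const_nhds hplim
    rw [hvE w] at h1
    have h2 : ∀ j, inner ℂ ((Ew_memLp w).toLp _) (p j) = (∫ _z, (1:ℂ) ∂(gmu 2)) * P j w := by
      intro j
      rw [inner_eq (Ew w) (P j) _ (p j) (Ew_memLp w).coeFn_toLp (hPe j)]
      exact repro (P j) (hPd j) ((memLp_congr_ae (hPe j)).mp (Lp.memLp (p j))) w
    simp_rw [h2] at h1
    have h3 := h1.const_mul (∫ _z, (1:ℂ) ∂(gmu 2))⁻¹
    simp only [← mul_assoc, inv_mul_cancel₀ K_ne, one_mul] at h3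
    exact h3
  obtain ⟨ns, hns, hae⟩ := (tendstoInMeasure_of_tendsto_Lp hplim).exists_seq_tendsto_ae
  have hPe' : ∀ᵐ z ∂(gmu 2), ∀ j, (p j : (Fin 2 → ℂ) → ℂ) z = P j z := ae_all_iff.mpr hPe
  have hvF : (v : (Fin 2 → ℂ) → ℂ) =ᵐ[gmu 2] F := by
    filter_upwards [hae, hPe'] with z h1 h2
    have h3 : Tendsto (fun i => P (ns i) z) atTop (𝓝 (v z)) := by
      refine h1.congr (fun i => ?_)
      exact h2 _
    exact tendsto_nhds_unique h3 ((hPw z).comp hns.tendsto_atTop)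
  have hfv : f = v := by
    apply Lp.ext
    exact hfF.trans hvF.symm
  rw [hfv]; exact hv

lemma Fock_eq : Fock 2 = Mm.topologicalClosure := by
  rw [Fock_Ent]
  apply le_antisymm
  · exact Submodule.topologicalClosure_minimal _ Ent_le Mm.isClosed_topologicalClosure
  · exact Submodule.topologicalClosure_mono Mm_le

end

end Pool.Agent.MP_d26497_an
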