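import Pool.Agent.H9.Y3

set_option autoImplicit false
open MeasureTheory Filter Topology

namespace Pool.Agent.MP_d26497_an

noncomputable section

abbrev H2 : Type := Fock 2

instance : CompleteSpace (Fock 2) := (Submodule.span ℂ (entSet 2)).isClosed_topologicalClosure.completeSpace_coe

lemma mon_mem (a b : ℕ) : monLp a b 0 0 ∈ Fock 2 := by
  rw [Fock_eq]
  exact Mm.le_topologicalClosure (Submodule.subset_span ⟨(a, b), rfl⟩)

lemma inner_mon (a b p q a' b' : ℕ) : inner ℂ (monLp a' b' 0 0) (monLp a b p q) =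
    (if a = a' ∧ b = b' then ((Real.pi : ℂ) * ((a + p).factorial : ℂ)) * ((Real.pi : ℂ) * ((b + q).factorial : ℂ)) else 0 : ℂ) := by
  rw [inner_eq (mon a' b' 0 0) (mon a b p q) _ _ (monLp_coe _ _ _ _) (monLp_coe _ _ _ _)]
  exact two_dim a b p q a' b'

/-- normalisation constant -/
def nc (q : ℕ × ℕ) : ℝ := Real.pi * q.1.factorial * (Real.pi * q.2.factorial)

lemma nc_pos (q : ℕ × ℕ) : 0 < nc q := by
  unfold nc
  have := Real.pi_pos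
  positivity

/-- orthonormal monomials -/
def ee (q : ℕ × ℕ) : Fock 2 := ⟨((Real.sqrt (nc q))⁻¹ : ℂ) • monLp q.1 q.2 0 0, (Fock 2).smul_mem _ (mon_mem _ _)⟩

lemma ee_orth : Orthonormal ℂ ee := by
  rw [orthonormal_iff_ite]
  intro i j
  rw [Submodule.coe_inner]
  show inner ℂ (((Real.sqrt (nc i))⁻¹ : ℂ) • monLp i.1 i.2 0 0) (((Real.sqrt (nc j))⁻¹ : ℂ) • monLp j.1 j.2 0 0) = _
  rw [inner_smul_left, inner_smul_right, inner_mon]
  by_cases h : i = j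
  · subst h
    rw [if_pos ⟨rfl, rfl⟩, if_pos rfl]
    have h1 : ((Real.pi : ℂ) * ((i.1 + 0).factorial : ℂ)) * ((Real.pi : ℂ) * ((i.2 + 0).factorial : ℂ)) = ((nc i : ℝ) : ℂ) := by
      unfold nc; push_cast; simp
    rw [h1, map_inv₀, Complex.conj_ofReal]
    have h2 : ((Real.sqrt (nc i) : ℝ) : ℂ) * ((Real.sqrt (nc i) : ℝ) : ℂ) = ((nc i : ℝ) : ℂ) := by
      rw [← Complex.ofReal_mul, Real.mul_self_sqrt (nc_pos i).le]
    have h3 : ((Real.sqrt (nc i) : ℝ) : ℂ) ≠ 0 := by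
      exact_mod_cast (Real.sqrt_pos.mpr (nc_pos i)).ne'
    rw [← h2]
    field_simp
  · rw [if_neg h, if_neg, mul_zero, mul_zero]
    rintro ⟨h1, h2⟩
    exact h (Prod.ext h1.symm h2.symm)

lemma ee_dense : ⊤ ≤ (Submodule.span ℂ (Set.range ee)).topologicalClosure := by
  rintro ⟨x, hx⟩ -
  have hx' : x ∈ closure (Mm : Set (Lp ℂ 2 (gmu 2))) := by
    have := hx
    rw [Fock_eq] at this
    exact this
  have hle : Mm ≤ (Submodule.span ℂ (Set.range ee)).map (Fock 2).subtype := by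
    unfold Mm
    rw [Submodule.span_le]
    rintro _ ⟨q, rfl⟩
    refine ⟨((Real.sqrt (nc q) : ℝ) : ℂ) • ee q, Submodule.smul_mem _ _ (Submodule.subset_span ⟨q, rfl⟩), ?_⟩
    show ((Real.sqrt (nc q) : ℝ) : ℂ) • (((Real.sqrt (nc q))⁻¹ : ℂ) • monLp q.1 q.2 0 0) = monLp q.1 q.2 0 0
    have h3 : ((Real.sqrt (nc q) : ℝ) : ℂ) ≠ 0 := by
      exact_mod_cast (Real.sqrt_pos.mpr (nc_pos q)).ne'
    rw [smul_smul, mul_inv_cancel₀ h3, one_smul]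
  obtain ⟨p, hp, hplim⟩ := mem_closure_iff_seq_limit.mp hx'
  have hp2 : ∀ j, ∃ y ∈ Submodule.span ℂ (Set.range ee), (y : Lp ℂ 2 (gmu 2)) = p j := by
    intro j
    obtain ⟨y, hy, hy2⟩ := hle (hp j)
    exact ⟨y, hy, hy2⟩
  choose y hy hy2 using hp2
  show (⟨x, hx⟩ : Fock 2) ∈ closure ((Submodule.span ℂ (Set.range ee) : Submodule ℂ (Fock 2)) : Set (Fock 2))
  apply mem_closure_iff_seq_limit.mpr
  refine ⟨y, hy, ?_⟩
  rw [tendsto_subtype_rng]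
  simp only [hy2]
  exact hplim

def bas : HilbertBasis (ℕ × ℕ) ℂ (Fock 2) := HilbertBasis.mk ee_orth ee_dense

lemma bas_sum (x : Fock 2) : HasSum (fun q => (inner ℂ (ee q) x : ℂ) • ee q) x := by
  have h := bas.hasSum_repr x
  have h1 : ∀ q, bas q = ee q := by
    intro q; exact congrFun (HilbertBasis.coe_mk ee_orth ee_dense) q
  simp only [HilbertBasis.repr_apply_apply, h1] at h
  exact h

/-- if `y ∈ L²` is orthogonal to all monomials then it is orthogonal to `H²(μ)` -/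
lemma orth_all (y : Lp ℂ 2 (gmu 2)) (h : ∀ a b, inner ℂ (monLp a b 0 0) y = (0:ℂ)) (x : Fock 2) :
    inner ℂ (x : Lp ℂ 2 (gmu 2)) y = (0:ℂ) := by
  have hle : Mm ≤ (Submodule.span ℂ {y})ᗮ := by
    unfold Mm
    rw [Submodule.span_le]
    rintro _ ⟨q, rfl⟩
    rw [SetLike.mem_coe, Submodule.mem_orthogonal_singleton_iff_inner_left]
    exact h _ _
  have hle2 : Mm.topologicalClosure ≤ (Submodule.span ℂ {y})ᗮ :=
    Submodule.topologicalClosure_minimal _ hle (Submodule.isClosed_orthogonal _)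
  have hx : (x : Lp ℂ 2 (gmu 2)) ∈ Mm.topologicalClosure := by
    rw [← Fock_eq]; exact x.2
  exact (Submodule.mem_orthogonal_singleton_iff_inner_left).mp (hle2 hx)

/-! toepGraph is a linear subspace -/

lemma toep_zero (φ : (Fin 2 → ℂ) → ℂ) : (0 : Fock 2 × Fock 2) ∈ toepGraph 2 φ := by
  refine ⟨0, ?_, ?_⟩
  · filter_upwards [Lp.coeFn_zero ℂ 2 (gmu 2)] with z h
    show ((0 : Lp ℂ 2 (gmu 2)) : (Fin 2 → ℂ) → ℂ) z = φ z * ((0 : Lp ℂ 2 (gmu 2)) : (Fin 2 → ℂ) → ℂ) z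
    rw [h]; simp
  · intro h
    show inner ℂ (h : Lp ℂ 2 (gmu 2)) ((0 : Lp ℂ 2 (gmu 2)) - 0) = 0
    rw [sub_zero, inner_zero_right]

lemma toep_add (φ : (Fin 2 → ℂ) → ℂ) {p q : Fock 2 × Fock 2} (hp : p ∈ toepGraph 2 φ) (hq : q ∈ toepGraph 2 φ) :
    p + q ∈ toepGraph 2 φ := by
  obtain ⟨u, hu, hu2⟩ := hp
  obtain ⟨v, hv, hv2⟩ := hq
  refine ⟨u + v, ?_, ?_⟩
  · filter_upwards [Lp.coeFn_add u v, hu, hv, Lp.coeFn_add (p.1 : Lp ℂ 2 (gmu 2)) (q.1 : Lp ℂ 2 (gmu 2))] with z h1 h2 h3 h4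
    show _ = φ z * (((p.1 : Lp ℂ 2 (gmu 2)) + (q.1 : Lp ℂ 2 (gmu 2)) : Lp ℂ 2 (gmu 2)) : (Fin 2 → ℂ) → ℂ) z
    rw [h1, h4, Pi.add_apply, Pi.add_apply, h2, h3]; ring
  · intro h
    have h1 := hu2 h
    have h2 := hv2 h
    show inner ℂ (h : Lp ℂ 2 (gmu 2)) (u + v - ((p.2 : Lp ℂ 2 (gmu 2)) + (q.2 : Lp ℂ 2 (gmu 2)))) = 0
    rw [show u + v - ((p.2 : Lp ℂ 2 (gmu 2)) + (q.2 : Lp ℂ 2 (gmu 2))) = (u - (p.2 : Lp ℂ 2 (gmu 2))) + (v - (q.2 : Lp ℂ 2 (gmu 2))) by abel,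
      inner_add_right, h1, h2, add_zero]

lemma toep_smul (φ : (Fin 2 → ℂ) → ℂ) (c : ℂ) {p : Fock 2 × Fock 2} (hp : p ∈ toepGraph 2 φ) :
    c • p ∈ toepGraph 2 φ := by
  obtain ⟨u, hu, hu2⟩ := hp
  refine ⟨c • u, ?_, ?_⟩
  · filter_upwards [Lp.coeFn_smul c u, hu, Lp.coeFn_smul c (p.1 : Lp ℂ 2 (gmu 2))] with z h1 h2 h3
    show _ = φ z * ((c • (p.1 : Lp ℂ 2 (gmu 2)) : Lp ℂ 2 (gmu 2)) : (Fin 2 → ℂ) → ℂ) z
    rw [h1, h3, Pi.smul_apply, Pi.smul_apply, h2, smul_eq_mul, smul_eq_mul]; ring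
  · intro h
    have h1 := hu2 h
    show inner ℂ (h : Lp ℂ 2 (gmu 2)) (c • u - c • (p.2 : Lp ℂ 2 (gmu 2))) = 0
    rw [← smul_sub, inner_smul_right, h1, mul_zero]

lemma toep_sum (φ : (Fin 2 → ℂ) → ℂ) (s : Finset (ℕ × ℕ)) (f : ℕ × ℕ → Fock 2 × Fock 2)
    (hf : ∀ q ∈ s, f q ∈ toepGraph 2 φ) : ∑ q ∈ s, f q ∈ toepGraph 2 φ := by
  classical
  induction s using Finset.induction_on with
  | empty => simpa using toep_zero φ
  | insert a s ha ih =>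
    rw [Finset.sum_insert ha]
    exact toep_add φ (hf a (Finset.mem_insert_self _ _)) (ih (fun q hq => hf q (Finset.mem_insert_of_mem hq)))

end

end Pool.Agent.MP_d26497_an
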