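import Pool.Agent.H9.Y4

set_option autoImplicit false
open MeasureTheory Filter Topology

namespace Pool.Agent.MP_d26497_an

noncomputable section

/-- eigenvalues -/
def lam (q : ℕ × ℕ) : ℝ := ((q.1 + 1) * (q.1 + 2)) * ((q.2 + 1) * (q.2 + 2))

lemma lam_pos (q : ℕ × ℕ) : 0 < lam q := by unfold lam; positivity

lemma lam_summable : Summable (fun q : ℕ × ℕ => (lam q)⁻¹) := by
  have h1 : Summable (fun n : ℕ => (((n : ℝ) + 1) * ((n : ℝ) + 2))⁻¹) := by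
    have h2 : Summable (fun n : ℕ => 1 / (((n + 1 : ℕ) : ℝ)) ^ 2) :=
      (summable_nat_add_iff 1).mpr (Real.summable_one_div_nat_pow.mpr (by norm_num))
    refine Summable.of_nonneg_of_le (fun n => by positivity) (fun n => ?_) h2
    rw [inv_eq_one_div]
    apply one_div_le_one_div_of_le (by positivity)
    push_cast
    nlinarith [Nat.cast_nonneg (α := ℝ) n]
  have h3 := h1.mul_of_nonneg h1 (fun n => by positivity) (fun n => by positivity)
  refine h3.congr (fun q => ?_)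
  unfold lam
  exact (mul_inv _ _).symm

section abstractOp

variable {H : Type*} [NormedAddCommGroup H] [InnerProductSpace ℂ H]

/-- rank one projections -/
def TT (v : H) : H →L[ℂ] H := (innerSL ℂ v).smulRight v

lemma TT_norm (v : H) (hv : ‖v‖ = 1) : ‖TT v‖ ≤ 1 := by
  unfold TT
  rw [ContinuousLinearMap.norm_smulRight_apply, innerSL_apply_norm, hv]
  norm_num

lemma TT_compact (v : H) : IsCompactOperator (TT v) := by
  refine ⟨(fun c : ℂ => c • v) '' Metric.closedBall 0 1, (isCompact_closedBall (0:ℂ) 1).image (by fun_prop), ?_⟩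
  have hc : Continuous (fun x : H => (inner ℂ v x : ℂ)) := (innerSL ℂ v).continuous
  have h0 : (fun x : H => (inner ℂ v x : ℂ)) ⁻¹' (Metric.ball 0 1) ∈ 𝓝 (0 : H) := by
    apply hc.continuousAt.preimage_mem_nhds
    apply Metric.isOpen_ball.mem_nhds
    simp
  refine Filter.mem_of_superset h0 ?_
  intro x hx
  exact ⟨(inner ℂ v x : ℂ), Metric.ball_subset_closedBall hx, rfl⟩

lemma abstract_op [CompleteSpace H] {ι : Type*} (e : ι → H) (he : ∀ i, ‖e i‖ = 1) (c : ι → ℝ) (hc0 : ∀ i, 0 < c i)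
    (hc : Summable (fun i => (c i)⁻¹)) :
    ∃ R : H →L[ℂ] H, IsCompactOperator R ∧ ∀ x, HasSum (fun i => ((c i)⁻¹ : ℂ) • ((inner ℂ (e i) x : ℂ) • e i)) (R x) := by
  classical
  have hsum : Summable (fun i => ((c i)⁻¹ : ℂ) • TT (e i)) := by
    apply Summable.of_norm_bounded (g := fun i => (c i)⁻¹) hc
    intro i
    rw [norm_smul]
    have h1 : ‖((c i)⁻¹ : ℂ)‖ = (c i)⁻¹ := by
      rw [norm_inv, Complex.norm_real, Real.norm_eq_abs, abs_of_pos (hc0 i)]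
    rw [h1]
    calc (c i)⁻¹ * ‖TT (e i)‖ ≤ (c i)⁻¹ * 1 := mul_le_mul_of_nonneg_left (TT_norm (e i) (he i)) (inv_nonneg.mpr (hc0 i).le)
      _ = _ := mul_one _
  obtain ⟨R, hR⟩ := hsum
  refine ⟨R, ?_, ?_⟩
  · have h : ∀ s : Finset ι, IsCompactOperator (∑ i ∈ s, ((c i)⁻¹ : ℂ) • TT (e i) : H →L[ℂ] H) := by
      intro s
      induction s using Finset.induction_on with
      | empty =>
        rw [Finset.sum_empty]
        exact isCompactOperator_zero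
      | insert a s ha ih =>
        rw [Finset.sum_insert ha]
        exact ((TT_compact (e a)).smul _).add ih
    exact isCompactOperator_of_tendsto (l := atTop) (F := fun s : Finset ι => ∑ i ∈ s, ((c i)⁻¹ : ℂ) • TT (e i)) hR (Eventually.of_forall h)
  · intro x
    have := (ContinuousLinearMap.apply ℂ H x).hasSum hR
    exact this

end abstractOp

lemma exR : ∃ R : Fock 2 →L[ℂ] Fock 2, IsCompactOperator R ∧ ∀ x, HasSum (fun q => ((lam q)⁻¹ : ℂ) • ((inner ℂ (ee q) x : ℂ) • ee q)) (R x) :=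
  abstract_op ee ee_orth.1 lam lam_pos lam_summable

def R0 : Fock 2 →L[ℂ] Fock 2 := Classical.choose exR

lemma R0_apply (x : Fock 2) : HasSum (fun q => ((lam q)⁻¹ : ℂ) • ((inner ℂ (ee q) x : ℂ) • ee q)) (R0 x) :=
  (Classical.choose_spec exR).2 x

lemma R0_compact : IsCompactOperator R0 := (Classical.choose_spec exR).1

/-- the scaled monomials with radial factor -/
def uu (q : ℕ × ℕ) (p r : ℕ) : Lp ℂ 2 (gmu 2) := ((Real.sqrt (nc q))⁻¹ : ℂ) • monLp q.1 q.2 p r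

lemma uu_coe (q : ℕ × ℕ) (p r : ℕ) : (uu q p r : (Fin 2 → ℂ) → ℂ) =ᵐ[gmu 2]
    fun z => ((‖z 0‖ : ℂ) ^ (2 * p) * (‖z 1‖ : ℂ) ^ (2 * r)) * (ee q : Lp ℂ 2 (gmu 2)) z := by
  filter_upwards [Lp.coeFn_smul ((Real.sqrt (nc q))⁻¹ : ℂ) (monLp q.1 q.2 p r), Lp.coeFn_smul ((Real.sqrt (nc q))⁻¹ : ℂ) (monLp q.1 q.2 0 0),
    monLp_coe q.1 q.2 p r, monLp_coe q.1 q.2 0 0] with z h1 h2 h3 h4
  show ((((Real.sqrt (nc q))⁻¹ : ℂ) • monLp q.1 q.2 p r : Lp ℂ 2 (gmu 2)) : (Fin 2 → ℂ) → ℂ) z = 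
    _ * ((((Real.sqrt (nc q))⁻¹ : ℂ) • monLp q.1 q.2 0 0 : Lp ℂ 2 (gmu 2)) : (Fin 2 → ℂ) → ℂ) z
  rw [h1, h2, Pi.smul_apply, Pi.smul_apply, h3, h4]
  unfold mon
  simp only [smul_eq_mul, mul_zero, pow_zero, mul_one]
  ring

/-- the symbol `ψ = |z_0|^4 |z_1|^4` -/
def psi (z : Fin 2 → ℂ) : ℂ := (‖z 0‖ : ℂ) ^ (2 * 2) * (‖z 1‖ : ℂ) ^ (2 * 2)

/-- the perturbed symbol -/
def phi (z : Fin 2 → ℂ) : ℂ := (‖z 0‖ : ℂ) ^ (2 * 2) * (‖z 1‖ : ℂ) ^ (2 * 2) - 2 * ((‖z 0‖ : ℂ) ^ (2 * 2) * (‖z 1‖ : ℂ) ^ (2 * 0))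

lemma uu_orth (q : ℕ × ℕ) (x : Fock 2) :
    inner ℂ (x : Lp ℂ 2 (gmu 2)) (uu q 2 2 - (((lam q : ℝ) : ℂ) • ee q : Fock 2)) = (0:ℂ) := by
  apply orth_all
  intro a b
  show inner ℂ (monLp a b 0 0) (((Real.sqrt (nc q))⁻¹ : ℂ) • monLp q.1 q.2 2 2 - ((lam q : ℝ) : ℂ) • (((Real.sqrt (nc q))⁻¹ : ℂ) • monLp q.1 q.2 0 0)) = 0
  rw [inner_sub_right, inner_smul_right, inner_smul_right, inner_smul_right, inner_mon, inner_mon]
  by_cases h : q.1 = a ∧ q.2 = b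
  · rw [if_pos h, if_pos h]
    unfold lam
    rw [show (q.1 + 2).factorial = (q.1 + 2) * ((q.1 + 1) * q.1.factorial) by rw [Nat.factorial_succ, Nat.factorial_succ],
      show (q.2 + 2).factorial = (q.2 + 2) * ((q.2 + 1) * q.2.factorial) by rw [Nat.factorial_succ, Nat.factorial_succ]]
    push_cast
    simp only [add_zero]
    ring
  · rw [if_neg h, if_neg h]; simp

lemma ee_graph (q : ℕ × ℕ) : (ee q, ((lam q : ℝ) : ℂ) • ee q) ∈ toepGraph 2 psi :=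
  ⟨uu q 2 2, uu_coe q 2 2, fun h => uu_orth q h⟩

lemma psi_right (g : Fock 2) : (-(R0 g), -g) ∈ closure (toepGraph 2 psi) := by
  have h1 := (R0_apply g).neg
  have h2 := (bas_sum g).neg
  have h3 := h1.prodMk h2
  refine mem_closure_of_tendsto h3 (Eventually.of_forall (fun s => ?_))
  apply toep_sum
  intro q _
  have h4 := toep_smul psi (-(((lam q)⁻¹ : ℂ) * (inner ℂ (ee q) g : ℂ))) (ee_graph q)
  have hl : ((lam q : ℝ) : ℂ) ≠ 0 := by exact_mod_cast (lam_pos q).ne'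
  convert h4 using 1
  refine Prod.ext ?_ ?_
  · show -(((lam q)⁻¹ : ℂ) • ((inner ℂ (ee q) g : ℂ) • ee q)) = (-(((lam q)⁻¹ : ℂ) * (inner ℂ (ee q) g : ℂ))) • ee q
    rw [smul_smul, neg_smul]
  · show -((inner ℂ (ee q) g : ℂ) • ee q) = (-(((lam q)⁻¹ : ℂ) * (inner ℂ (ee q) g : ℂ))) • (((lam q : ℝ) : ℂ) • ee q)
    rw [smul_smul, ← neg_smul]
    congr 1
    field_simp

lemma psi_left_graph (p : Fock 2 × Fock 2) (hp : p ∈ toepGraph 2 psi) : R0 p.2 = p.1 := by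
  obtain ⟨u, hu, hu2⟩ := hp
  have hl : ∀ q, ((lam q : ℝ) : ℂ) ≠ 0 := fun q => by exact_mod_cast (lam_pos q).ne'
  have hcoef : ∀ q, (inner ℂ (ee q) p.2 : ℂ) = ((lam q : ℝ) : ℂ) * (inner ℂ (ee q) p.1 : ℂ) := by
    intro q
    have h1 : (inner ℂ (ee q) p.2 : ℂ) = inner ℂ (ee q : Lp ℂ 2 (gmu 2)) u := by
      have := hu2 (ee q)
      rw [inner_sub_right, sub_eq_zero] at this
      rw [this]; rfl
    have h2 : inner ℂ (ee q : Lp ℂ 2 (gmu 2)) u = inner ℂ (uu q 2 2) (p.1 : Lp ℂ 2 (gmu 2)) := by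
      rw [L2.inner_def, L2.inner_def]
      apply integral_congr_ae
      filter_upwards [hu, uu_coe q 2 2] with z h3 h4
      rw [h3, h4, RCLike.inner_apply, RCLike.inner_apply]
      unfold psi
      simp only [map_mul, map_pow, Complex.conj_ofReal]
      ring
    have h3 : inner ℂ (uu q 2 2) (p.1 : Lp ℂ 2 (gmu 2)) = ((lam q : ℝ) : ℂ) * (inner ℂ (ee q) p.1 : ℂ) := by
      have h4 := uu_orth q p.1
      have h5 : inner ℂ (uu q 2 2 - ((((lam q : ℝ) : ℂ) • ee q : Fock 2) : Lp ℂ 2 (gmu 2))) (p.1 : Lp ℂ 2 (gmu 2)) = (0:ℂ) := by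
        rw [← inner_conj_symm, h4, map_zero]
      rw [inner_sub_left, sub_eq_zero] at h5
      rw [h5]
      show inner ℂ (((lam q : ℝ) : ℂ) • (ee q : Lp ℂ 2 (gmu 2))) (p.1 : Lp ℂ 2 (gmu 2)) = _
      rw [inner_smul_left, Complex.conj_ofReal]; rfl
    rw [h1, h2, h3]
  have h1 := R0_apply p.2
  have h2 : (fun q => ((lam q)⁻¹ : ℂ) • ((inner ℂ (ee q) p.2 : ℂ) • ee q)) = fun q => (inner ℂ (ee q) p.1 : ℂ) • ee q := by
    funext q
    rw [hcoef q, smul_smul, ← mul_assoc, inv_mul_cancel₀ (hl q), one_mul]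
  rw [h2] at h1
  exact h1.unique (bas_sum p.1)

lemma psi_left (p : Fock 2 × Fock 2) (hp : p ∈ closure (toepGraph 2 psi)) : R0 p.2 = p.1 := by
  have hcl : IsClosed {p : Fock 2 × Fock 2 | R0 p.2 = p.1} :=
    isClosed_eq (R0.continuous.comp continuous_snd) continuous_fst
  exact closure_minimal (fun p hp => psi_left_graph p hp) hcl hp

theorem psi_compact : HasCompactResolvent (toepGraph 2 psi) := by
  refine ⟨0, -R0, ?_, ?_, ?_⟩
  · exact R0_compact.neg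
  · intro g
    have h2 : ((-R0 : Fock 2 →L[ℂ] Fock 2) g, (0:ℂ) • (-R0 : Fock 2 →L[ℂ] Fock 2) g - g) = (-(R0 g), -g) := by
      rw [zero_smul, zero_sub]; rfl
    rw [h2]; exact psi_right g
  · intro p hp
    have := psi_left p hp
    simp [this]

lemma phi_ker (k : ℕ) : (ee (k, 0), (0 : Fock 2)) ∈ toepGraph 2 phi := by
  refine ⟨uu (k, 0) 2 2 - (2:ℂ) • uu (k, 0) 2 0, ?_, ?_⟩
  · filter_upwards [uu_coe (k, 0) 2 2, uu_coe (k, 0) 2 0, Lp.coeFn_sub (uu (k, 0) 2 2) ((2:ℂ) • uu (k, 0) 2 0),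
      Lp.coeFn_smul (2:ℂ) (uu (k, 0) 2 0)] with z h1 h2 h3 h4
    rw [h3, Pi.sub_apply, h4, Pi.smul_apply, h1, h2, smul_eq_mul]
    unfold phi
    ring
  · intro x
    apply orth_all
    intro a b
    show inner ℂ (monLp a b 0 0) (((Real.sqrt (nc (k, 0)))⁻¹ : ℂ) • monLp k 0 2 2 - (2:ℂ) • (((Real.sqrt (nc (k, 0)))⁻¹ : ℂ) • monLp k 0 2 0) - 0) = 0
    rw [sub_zero, inner_sub_right, inner_smul_right, inner_smul_right, inner_smul_right, inner_mon, inner_mon]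
    by_cases h : k = a ∧ 0 = b
    · rw [if_pos h, if_pos h]
      have h2 : ((0 + 2).factorial : ℂ) = 2 := by norm_num
      have h3 : ((0 + 0).factorial : ℂ) = 1 := by norm_num
      rw [h2, h3]; ring
    · rw [if_neg h, if_neg h]; simp

theorem phi_not_compact : ¬ HasCompactResolvent (toepGraph 2 phi) := by
  rintro ⟨l, R, hR, -, h⟩
  have h1 : ∀ k, l • R (ee (k, 0)) = ee (k, 0) := by
    intro k
    have := h _ (subset_closure (phi_ker k))
    simp only [sub_zero, map_smul] at this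
    exact this
  obtain ⟨K, hK, hKs⟩ := IsCompactOperator.image_closedBall_subset_compact hR 1
  have h2 : ∀ k, R (ee (k, 0)) ∈ K := by
    intro k
    apply hKs
    refine ⟨ee (k, 0), ?_, rfl⟩
    rw [mem_closedBall_zero_iff, ee_orth.1]
  obtain ⟨a, _, φ, hφ, hlim⟩ := hK.tendsto_subseq h2
  have h3 : Tendsto (fun k => ee (φ k, 0)) atTop (𝓝 (l • a)) := by
    have := hlim.const_smul l
    refine this.congr (fun k => ?_)
    exact h1 _
  have h4 : Tendsto (fun k => ee (φ (k + 1), 0)) atTop (𝓝 (l • a)) := h3.comp (tendsto_add_atTop_nat 1)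
  have h5 : Tendsto (fun k => (inner ℂ (ee (φ k, 0)) (ee (φ (k+1), 0)) : ℂ)) atTop (𝓝 (inner ℂ (l • a) (l • a))) :=
    Filter.Tendsto.inner h3 h4
  have h6 : Tendsto (fun k => (inner ℂ (ee (φ k, 0)) (ee (φ k, 0)) : ℂ)) atTop (𝓝 (inner ℂ (l • a) (l • a))) :=
    Filter.Tendsto.inner h3 h3
  have h7 : ∀ k, (inner ℂ (ee (φ k, 0)) (ee (φ (k+1), 0)) : ℂ) = 0 := by
    intro k
    apply ee_orth.2
    intro hc
    have := hφ (Nat.lt_succ_self k)
    rw [Prod.mk.injEq] at hc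
    have := hc.1
    simp only [Nat.succ_eq_add_one] at *
    omega
  have h8 : ∀ k, (inner ℂ (ee (φ k, 0)) (ee (φ k, 0)) : ℂ) = 1 := by
    intro k
    have := orthonormal_iff_ite.mp ee_orth (φ k, 0) (φ k, 0)
    rw [if_pos rfl] at this
    exact this
  simp_rw [h7] at h5
  simp_rw [h8] at h6
  have h9 := tendsto_nhds_unique h5 tendsto_const_nhds
  have h10 := tendsto_nhds_unique h6 tendsto_const_nhds
  rw [h9] at h10
  exact zero_ne_one h10

end

end Pool.Agent.MP_d26497_an
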