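import Pool.Agent.H9.Y5

set_option autoImplicit false
open MeasureTheory Filter Topology

namespace Pool.Agent.MP_d26497_an

noncomputable section

/-- the Hilbert space `L²(μ)` on `ℂ^n` -/
def L2 (n : ℕ) : Type := Lp ℂ 2 (gmu n)

instance instL2a (n : ℕ) : NormedAddCommGroup (L2 n) := (inferInstance : NormedAddCommGroup (Lp ℂ 2 (gmu n)))
instance instL2b (n : ℕ) : InnerProductSpace ℂ (L2 n) := (inferInstance : InnerProductSpace ℂ (Lp ℂ 2 (gmu n)))

/-- a function representing the class `f ∈ L²(μ)` -/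
def fn {n : ℕ} (f : L2 n) : (Fin n → ℂ) → ℂ := ((show Lp ℂ 2 (gmu n) from f) : (Fin n → ℂ) → ℂ)

/-- the function `F` represents the class `f ∈ L²(μ)` -/
def Rep {n : ℕ} (f : L2 n) (F : (Fin n → ℂ) → ℂ) : Prop := fn f =ᵐ[gmu n] F

/-- the classes in `L²(μ)` of entire functions -/
def entire (n : ℕ) : Set (L2 n) := {f | ∃ F : (Fin n → ℂ) → ℂ, Differentiable ℂ F ∧ Rep f F}

/-- the Bargmann-Segal space `H²(μ)`: the closed subspace of `L²(μ)` spanned by (the classes of) the
entire functions in `L²(μ)`; these already form a closed subspace -/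
def bargmann (n : ℕ) : Submodule ℂ (L2 n) := (Submodule.span ℂ (entire n)).topologicalClosure

/-- `H²(μ)` as a Hilbert space -/
def BS (n : ℕ) : Type := bargmann n

instance instBSa (n : ℕ) : NormedAddCommGroup (BS n) := (inferInstance : NormedAddCommGroup (bargmann n))
instance instBSb (n : ℕ) : InnerProductSpace ℂ (BS n) := (inferInstance : InnerProductSpace ℂ (bargmann n))

/-- the inclusion `H²(μ) ⊆ L²(μ)` -/
def incl {n : ℕ} (f : BS n) : L2 n := (show bargmann n from f).1

/-- the graph of the Toeplitz operator `T_φ`: the pairs `(f, g)` of elements of `H²(μ)` such that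
`φ f` is (a representative of) an element `u` of `L²(μ)` and `g = P u`, i.e. `u - g ⟂ H²(μ)` -/
def toeplitz (n : ℕ) (φ : (Fin n → ℂ) → ℂ) : Set (BS n × BS n) :=
  {p | ∃ u : L2 n, Rep u (fun z => φ z * fn (incl p.1) z) ∧ ∀ h : BS n, inner ℂ (incl h) (u - incl p.2) = 0}

theorem psi_compact' : HasCompactResolvent (toeplitz 2 psi) := psi_compact

theorem phi_not_compact' : ¬ HasCompactResolvent (toeplitz 2 phi) := phi_not_compact

end

end Pool.Agent.MP_d26497_an
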